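import Pool.Agent.K1H46.Relation

/-!
Additive colourings, Lemma A and the first case.
-/

namespace Pool.Agent.K1H46.ZSR

variable {V X : Type*} [DecidableEq V] [DecidableEq X]

omit [DecidableEq X] in
theorem additive {F : X → X → ZMod 3} (hF : ∀ x y, F x y = F y x) {W : Finset X}
    (hW : 3 ≤ W.card)
    (hD : ∀ x y u w, [x, y, u, w].Nodup → (∀ z ∈ [x, y, u, w], z ∈ W) → Dl F x y u w = 0) :
    ∃ h : X → ZMod 3, ∀ x ∈ W, ∀ u ∈ W, x ≠ u → F x u = h x + h u := by
  classical
  have h3 : (3 : ZMod 3) = 0 := by decide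
  obtain ⟨p, q, r, hp, hq, hr, hpq, hpr, hqr⟩ := Finset.two_lt_card_iff.1 (show 2 < W.card by omega)
  have step : ∀ x ∈ W, ∀ u ∈ W, ∀ u' ∈ W, x ≠ p → u ≠ p → u' ≠ p → x ≠ u → x ≠ u' →
      F x u - F p x - F p u = F x u' - F p x - F p u' := by
    intro x hx u hu u' hu' hxp hup hup' hxu hxu'
    by_cases he : u = u'
    · rw [he]
    · have := hD x p u u' (by simp [hxp, hxu, hxu', Ne.symm hup, Ne.symm hup', he])
        (by simp [hx, hp, hu, hu'])
      unfold Dl at this
      linear_combination this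
  have sym : ∀ x u, F x u - F p x - F p u = F u x - F p u - F p x := by
    intro x u
    rw [hF x u]; ring
  have key : ∀ x ∈ W, ∀ u ∈ W, x ≠ p → u ≠ p → x ≠ u →
      F x u - F p x - F p u = F q r - F p q - F p r := by
    intro x hx u hu hxp hup hxu
    by_cases hxr : x = r
    · subst hxr
      rw [step x hx u hu q hq hxp hup (Ne.symm hpq) hxu (Ne.symm hqr), sym]
    · rw [step x hx u hu r hr hxp hup (Ne.symm hpr) hxu hxr, sym,
        step r hr x hx q hq (Ne.symm hpr) hxp (Ne.symm hpq) (Ne.symm hxr) (Ne.symm hqr), sym]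
  refine ⟨fun x => if x = p then F q r - F p q - F p r else
    F p x - (F q r - F p q - F p r), ?_⟩
  intro x hx u hu hxu
  by_cases hxp : x = p
  · subst hxp
    simp only [if_true]
    rw [if_neg (Ne.symm hxu)]; ring
  · by_cases hup : u = p
    · subst hup
      simp only [if_true]
      rw [if_neg hxp, hF x u]; ring
    · simp only [if_neg hxp, if_neg hup]
      have := key x hx u hu hxp hup hxu
      linear_combination this + (F q r - F p q - F p r) * h3

theorem cover3 : ∀ c D1 D2 : ZMod 3, D1 ≠ 0 → D2 ≠ 0 →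
    c = 0 ∨ c + D2 = 0 ∨ c + D1 = 0 ∨ c + D1 + D2 = 0 := by
  decide

theorem cover (b d1 d2 a1 a2 b1 b2 : ZMod 3) (h1 : d1 ≠ 0) (h2 : d2 ≠ 0) (h3 : a1 ≠ a2)
    (h4 : b1 ≠ b2) : b + d1 * a1 + d2 * b1 = 0 ∨ b + d1 * a1 + d2 * b2 = 0 ∨
      b + d1 * a2 + d2 * b1 = 0 ∨ b + d1 * a2 + d2 * b2 = 0 := by
  have : Fact (Nat.Prime 3) := ⟨Nat.prime_three⟩
  rcases cover3 (b + d1 * a1 + d2 * b1) (d1 * (a2 - a1)) (d2 * (b2 - b1))
    (mul_ne_zero h1 (sub_ne_zero.2 (Ne.symm h3))) (mul_ne_zero h2 (sub_ne_zero.2 (Ne.symm h4)))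
    with h | h | h | h
  · exact Or.inl h
  · right; left; rw [← h]; ring
  · right; right; left; rw [← h]; ring
  · right; right; right; rw [← h]; ring

/-- Lemma A: zero-sum placements for vertex weights. -/
theorem lemmaA (U : Finset V) (W : Finset X) (d : V → ZMod 3) (h : X → ZMod 3)
    (hd : ∑ u ∈ U, d u = 0) (hc : U.card + 2 ≤ W.card) :
    ∃ φ : V → X, (∀ u ∈ U, φ u ∈ W) ∧ Set.InjOn φ U ∧ ∑ u ∈ U, d u * h (φ u) = 0 := by
  have hne : W.Nonempty := Finset.card_pos.1 (by omega)
  have : Nonempty X := ⟨hne.choose⟩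
  have hconst : ∀ W' : Finset X, W' ⊆ W → U.card ≤ W'.card →
      (∀ x ∈ W', ∀ y ∈ W', h x = h y) →
      ∃ φ : V → X, (∀ u ∈ U, φ u ∈ W) ∧ Set.InjOn φ U ∧ ∑ u ∈ U, d u * h (φ u) = 0 := by
    intro W' hW' hc' hh
    obtain ⟨φ, h1, h2⟩ := exists_inj U W' hc'
    refine ⟨φ, fun u hu => hW' (h1 u hu), h2, ?_⟩
    rcases U.eq_empty_or_nonempty with rfl | ⟨u0, hu0⟩
    · simp
    · have : ∑ u ∈ U, d u * h (φ u) = ∑ u ∈ U, d u * h (φ u0) :=
        Finset.sum_congr rfl (fun u hu => by rw [hh _ (h1 u hu) _ (h1 u0 hu0)])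
      rw [this, ← Finset.sum_mul, hd, zero_mul]
  by_cases h1 : ∀ u ∈ U, d u = 0
  · obtain ⟨φ, h2, h3⟩ := exists_inj U W (by omega)
    refine ⟨φ, h2, h3, ?_⟩
    exact Finset.sum_eq_zero (fun u hu => by rw [h1 u hu, zero_mul])
  push Not at h1
  obtain ⟨u1, hu1, hd1⟩ := h1
  obtain ⟨u2, hu2, hu21, hd2⟩ : ∃ u2 ∈ U, u2 ≠ u1 ∧ d u2 ≠ 0 := by
    by_contra hcon
    push Not at hcon
    apply hd1
    rw [← hd]
    exact (Finset.sum_eq_single u1 (fun b hb hb1 => hcon b hb hb1) (fun h => absurd hu1 h)).symm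
  by_cases hx : ∃ x1 ∈ W, ∃ y1 ∈ W, h x1 ≠ h y1
  · obtain ⟨x1, hx1, y1, hy1, hxy1⟩ := hx
    have hxy1' : x1 ≠ y1 := fun he => hxy1 (by rw [he])
    have c1 := Finset.card_erase_add_one hx1
    have c2 := Finset.card_erase_add_one (show y1 ∈ W.erase x1 by
      simp [Finset.mem_erase, Ne.symm hxy1', hy1])
    by_cases hx' : ∃ x2 ∈ (W.erase x1).erase y1, ∃ y2 ∈ (W.erase x1).erase y1, h x2 ≠ h y2
    · obtain ⟨x2, hx2, y2, hy2, hxy2⟩ := hx'
      have hxy2' : x2 ≠ y2 := fun he => hxy2 (by rw [he])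
      have c3 := Finset.card_erase_add_one hx2
      have c4 := Finset.card_erase_add_one (show y2 ∈ ((W.erase x1).erase y1).erase x2 by
        rw [Finset.mem_erase]; exact ⟨Ne.symm hxy2', hy2⟩)
      have c5 := Finset.card_erase_add_one hu1
      have c6 := Finset.card_erase_add_one (show u2 ∈ U.erase u1 by
        rw [Finset.mem_erase]; exact ⟨hu21, hu2⟩)
      obtain ⟨ψ, hψ1, hψ2⟩ := exists_inj ((U.erase u1).erase u2)
        ((((W.erase x1).erase y1).erase x2).erase y2) (by omega)
      have hx2m := Finset.mem_erase.1 hx2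
      have hx2m' := Finset.mem_erase.1 hx2m.2
      have hy2m := Finset.mem_erase.1 hy2
      have hy2m' := Finset.mem_erase.1 hy2m.2
      have hψ3 : ∀ u ∈ (U.erase u1).erase u2, ψ u ≠ x1 ∧ ψ u ≠ y1 ∧ ψ u ≠ x2 ∧ ψ u ≠ y2 ∧
          ψ u ∈ W := by
        intro u hu
        have := hψ1 u hu
        simp only [Finset.mem_erase] at this
        tauto
      have place : ∀ p q, (p = x1 ∨ p = y1) → (q = x2 ∨ q = y2) →
          (∀ u ∈ U, (if u = u1 then p else if u = u2 then q else ψ u) ∈ W) ∧
          Set.InjOn (fun u => if u = u1 then p else if u = u2 then q else ψ u) U ∧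
          ∑ u ∈ U, d u * h (if u = u1 then p else if u = u2 then q else ψ u) =
            (∑ u ∈ (U.erase u1).erase u2, d u * h (ψ u)) + d u1 * h p + d u2 * h q := by
        intro p q hp hq
        have hpW : p ∈ W := by rcases hp with rfl | rfl <;> assumption
        have hqW : q ∈ W := by
          rcases hq with rfl | rfl
          · exact hx2m'.2
          · exact hy2m'.2
        have hpq : p ≠ q := by
          rcases hp with rfl | rfl <;> rcases hq with rfl | rfl
          · exact Ne.symm hx2m'.1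
          · exact Ne.symm hy2m'.1
          · exact Ne.symm hx2m.1
          · exact Ne.symm hy2m.1
        refine ⟨?_, ?_, ?_⟩
        · intro u hu
          split_ifs with e1 e2
          · exact hpW
          · exact hqW
          · exact (hψ3 u (by simp [Finset.mem_erase, e1, e2, hu])).2.2.2.2
        · intro u hu w hw huw
          rw [Finset.mem_coe] at hu hw
          have hψp : ∀ u ∈ (U.erase u1).erase u2, ψ u ≠ p ∧ ψ u ≠ q := by
            intro u hu
            have := hψ3 u hu
            rcases hp with rfl | rfl <;> rcases hq with rfl | rfl <;> tauto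
          dsimp only at huw
          by_cases e1 : u = u1
          · by_cases f1 : w = u1
            · rw [e1, f1]
            · rw [if_pos e1, if_neg f1] at huw
              by_cases f2 : w = u2
              · rw [if_pos f2] at huw; exact absurd huw hpq
              · rw [if_neg f2] at huw
                exact absurd huw.symm (hψp w (by simp [Finset.mem_erase, f1, f2, hw])).1
          · by_cases e2 : u = u2
            · rw [if_neg e1, if_pos e2] at huw
              by_cases f1 : w = u1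
              · rw [if_pos f1] at huw; exact absurd huw.symm hpq
              · rw [if_neg f1] at huw
                by_cases f2 : w = u2
                · rw [e2, f2]
                · rw [if_neg f2] at huw
                  exact absurd huw.symm (hψp w (by simp [Finset.mem_erase, f1, f2, hw])).2
            · rw [if_neg e1, if_neg e2] at huw
              by_cases f1 : w = u1
              · rw [if_pos f1] at huw
                exact absurd huw (hψp u (by simp [Finset.mem_erase, e1, e2, hu])).1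
              · rw [if_neg f1] at huw
                by_cases f2 : w = u2
                · rw [if_pos f2] at huw
                  exact absurd huw (hψp u (by simp [Finset.mem_erase, e1, e2, hu])).2
                · rw [if_neg f2] at huw
                  exact hψ2 (by simp [e1, e2, hu])
                    (by simp [f1, f2, hw]) huw
        · rw [← Finset.sum_erase_add _ _ hu1,
            ← Finset.sum_erase_add _ _ (show u2 ∈ U.erase u1 by
              rw [Finset.mem_erase]; exact ⟨hu21, hu2⟩)]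
          rw [if_pos rfl, if_neg hu21, if_pos rfl]
          have : ∑ x ∈ (U.erase u1).erase u2,
              d x * h (if x = u1 then p else if x = u2 then q else ψ x) =
              ∑ x ∈ (U.erase u1).erase u2, d x * h (ψ x) :=
            Finset.sum_congr rfl (fun x hx => by
              simp only [Finset.mem_erase] at hx
              rw [if_neg hx.2.1, if_neg hx.1])
          rw [this]; ring
      rcases cover (∑ u ∈ (U.erase u1).erase u2, d u * h (ψ u)) (d u1) (d u2) (h x1) (h y1)
        (h x2) (h y2) hd1 hd2 hxy1 hxy2 with hz | hz | hz | hz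
      · obtain ⟨g1, g2, g3⟩ := place x1 x2 (by simp) (by simp)
        exact ⟨_, g1, g2, by rw [g3]; exact hz⟩
      · obtain ⟨g1, g2, g3⟩ := place x1 y2 (by simp) (by simp)
        exact ⟨_, g1, g2, by rw [g3]; exact hz⟩
      · obtain ⟨g1, g2, g3⟩ := place y1 x2 (by simp) (by simp)
        exact ⟨_, g1, g2, by rw [g3]; exact hz⟩
      · obtain ⟨g1, g2, g3⟩ := place y1 y2 (by simp) (by simp)
        exact ⟨_, g1, g2, by rw [g3]; exact hz⟩
    · push Not at hx'
      exact hconst _ ((Finset.erase_subset _ _).trans (Finset.erase_subset _ _)) (by omega) hx'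
  · push Not at hx
    exact hconst W (Finset.Subset.refl _) (by omega) hx

variable [Fintype V] [Fintype X]

theorem T_additive {a : V → V → ZMod 3} {F : X → X → ZMod 3} (ha : ∀ u v, a u v = a v u)
    (ha0 : ∀ u, a u u = 0) {W : Finset X} {h : X → ZMod 3}
    (hh : ∀ x ∈ W, ∀ u ∈ W, x ≠ u → F x u = h x + h u) {φ : V → X}
    (hφW : ∀ u, φ u ∈ W) (hφ : Function.Injective φ) :
    T a F φ = 2 * ∑ u, (∑ v, a u v) * h (φ u) := by
  have h1 : T a F φ = ∑ u, ∑ v, (a u v * h (φ u) + a u v * h (φ v)) := by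
    unfold T
    refine Finset.sum_congr rfl (fun u _ => Finset.sum_congr rfl (fun v _ => ?_))
    by_cases huv : u = v
    · subst huv; rw [ha0]; ring
    · rw [hh _ (hφW u) _ (hφW v) (fun he => huv (hφ he))]; ring
  rw [h1]
  simp only [Finset.sum_add_distrib]
  rw [Finset.sum_comm (f := fun u v => a u v * h (φ v))]
  have h2 : ∑ y, ∑ x, a x y * h (φ y) = ∑ u, (∑ v, a u v) * h (φ u) := by
    refine Finset.sum_congr rfl (fun u _ => ?_)
    rw [Finset.sum_mul]
    exact Finset.sum_congr rfl (fun v _ => by rw [ha v u])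
  have h3 : ∑ x, ∑ y, a x y * h (φ x) = ∑ u, (∑ v, a u v) * h (φ u) := by
    refine Finset.sum_congr rfl (fun u _ => ?_)
    rw [Finset.sum_mul]
  rw [h2, h3]; ring

/-- zero-sum placement from an additive piece -/
theorem zero_of_additive {a : V → V → ZMod 3} {F : X → X → ZMod 3} (ha : ∀ u v, a u v = a v u)
    (ha0 : ∀ u, a u u = 0) (hdeg : ∑ u, ∑ v, a u v = 0) {W : Finset X}
    (hW : Fintype.card V + 2 ≤ W.card) {h : X → ZMod 3}
    (hh : ∀ x ∈ W, ∀ u ∈ W, x ≠ u → F x u = h x + h u) :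
    ∃ φ : V → X, Function.Injective φ ∧ T a F φ = 0 := by
  obtain ⟨φ, h1, h2, h3⟩ := lemmaA (Finset.univ : Finset V) W (fun u => ∑ v, a u v) h hdeg
    (by rw [Finset.card_univ]; exact hW)
  have hinj : Function.Injective φ := fun x y hxy => h2 (by simp) (by simp) hxy
  refine ⟨φ, hinj, ?_⟩
  rw [T_additive ha ha0 hh (fun u => h1 u (by simp)) hinj]
  rw [h3, mul_zero]

/-- Case A: some pair of disjoint edges does not span a complete graph. -/
theorem caseA {a : V → V → ZMod 3} {F : X → X → ZMod 3} (ha : ∀ u v, a u v = a v u)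
    (ha0 : ∀ u, a u u = 0) (hF : ∀ x y, F x y = F y x)
    (hdeg : ∑ u, ∑ v, a u v = 0)
    (hcard : Fintype.card V + 6 ≤ Fintype.card X)
    {v1 v2 v3 v4 : V} (h : [v1, v2, v3, v4].Nodup)
    (h1 : a v1 v2 * a v3 v4 = 1) (h2 : a v1 v3 * a v2 v4 = 0 ∨ a v1 v3 * a v2 v4 = 1)
    (h3 : a v1 v4 * a v2 v3 = 0 ∨ a v1 v4 * a v2 v3 = 1)
    (h23 : a v1 v3 * a v2 v4 = 0 ∨ a v1 v4 * a v2 v3 = 0) :
    ∃ φ : V → X, Function.Injective φ ∧ T a F φ = 0 := by
  by_contra hcon
  push Not at hcon
  have rel := fun {w1 w2 w3 w4 : V} (hw : [w1, w2, w3, w4].Nodup) {x1 y1 x2 y2 x3 y3 x4 y4 : X}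
    (hx : [x1, y1, x2, y2, x3, y3, x4, y4].Nodup) =>
    relation ha ha0 hF hcon (by omega) hw hx
  have hprod : ∀ {x1 y1 x2 y2 x3 y3 x4 y4 : X}, [x1, y1, x2, y2, x3, y3, x4, y4].Nodup →
      Dl F x1 y1 x2 y2 * Dl F x3 y3 x4 y4 = 0 := by
    intro x1 y1 x2 y2 x3 y3 x4 y4 hx
    have hv := h
    simp only [List.nodup_cons, List.mem_cons, List.not_mem_nil, or_false, not_or,
      not_false_eq_true, List.nodup_nil, and_true] at hv
    have r1 := rel (w1 := v1) (w2 := v2) (w3 := v3) (w4 := v4) h hx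
    have r2 := rel (w1 := v1) (w2 := v2) (w3 := v4) (w4 := v3) (by
      simp only [List.nodup_cons, List.mem_cons, List.not_mem_nil, or_false, not_or,
        not_false_eq_true, List.nodup_nil, and_true]
      exact ⟨⟨hv.1.1, hv.1.2.2, hv.1.2.1⟩, ⟨hv.2.1.2, hv.2.1.1⟩, Ne.symm hv.2.2⟩) hx
    have r3 := rel (w1 := v1) (w2 := v4) (w3 := v3) (w4 := v2) (by
      simp only [List.nodup_cons, List.mem_cons, List.not_mem_nil, or_false, not_or,
        not_false_eq_true, List.nodup_nil, and_true]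
      exact ⟨⟨hv.1.2.2, hv.1.2.1, hv.1.1⟩, ⟨Ne.symm hv.2.2, Ne.symm hv.2.1.2⟩,
        Ne.symm hv.2.1.1⟩) hx
    have r4 := rel (w1 := v1) (w2 := v3) (w3 := v4) (w4 := v2) (by
      simp only [List.nodup_cons, List.mem_cons, List.not_mem_nil, or_false, not_or,
        not_false_eq_true, List.nodup_nil, and_true]
      exact ⟨⟨hv.1.2.1, hv.1.2.2, hv.1.1⟩, ⟨hv.2.2, Ne.symm hv.2.1.1⟩, Ne.symm hv.2.1.2⟩) hx
    have t3 : (3 : ZMod 3) = 0 := by decide
    rw [ha v4 v3] at r2
    rw [ha v3 v2, ha v4 v3, ha v4 v2] at r3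
    rw [ha v4 v2, ha v3 v2] at r4
    rcases h2 with h2 | h2 <;> rcases h3 with h3 | h3
    · rw [h1, h2, h3] at r1
      linear_combination r1
    · rw [h1, h2, h3] at r1 r2
      rw [h1, h2, h3] at r4
      linear_combination 2 * (r1 + r2 - r4) - (Dl F x1 y1 x2 y2 * Dl F x3 y3 x4 y4) * t3
    · rw [h1, h2, h3] at r1 r2
      rw [h1, h2, h3] at r3
      linear_combination 2 * (r1 + r2 - r3) - (Dl F x1 y1 x2 y2 * Dl F x3 y3 x4 y4) * t3
    · exfalso
      rcases h23 with h | h
      · rw [h2] at h; exact one_ne_zero h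
      · rw [h3] at h; exact one_ne_zero h
  have hW : ∃ W : Finset X, Fintype.card V + 2 ≤ W.card ∧
      ∀ x y u w, [x, y, u, w].Nodup → (∀ z ∈ [x, y, u, w], z ∈ W) → Dl F x y u w = 0 := by
    by_cases hdef : ∃ x y u w, [x, y, u, w].Nodup ∧ Dl F x y u w ≠ 0
    · obtain ⟨x, y, u, w, hnd, hne⟩ := hdef
      refine ⟨Finset.univ \ [x, y, u, w].toFinset, ?_, ?_⟩
      · rw [Finset.card_sdiff_of_subset (Finset.subset_univ _), List.toFinset_card_of_nodup hnd,
          Finset.card_univ]
        simp only [List.length_cons, List.length_nil]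
        omega
      · intro x' y' u' w' hnd' hmem
        have hnd8 : ([x, y, u, w] ++ [x', y', u', w']).Nodup := by
          rw [List.nodup_append]
          refine ⟨hnd, hnd', ?_⟩
          intro z hz z' hz' he
          have := hmem z' hz'
          rw [Finset.mem_sdiff, List.mem_toFinset, ← he] at this
          exact this.2 hz
        have := hprod (x1 := x) (y1 := y) (x2 := u) (y2 := w) (x3 := x') (y3 := y') (x4 := u')
          (y4 := w') hnd8
        have hf : Fact (Nat.Prime 3) := ⟨Nat.prime_three⟩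
        exact (mul_eq_zero.1 this).resolve_left hne
    · push Not at hdef
      refine ⟨Finset.univ, by rw [Finset.card_univ]; omega, ?_⟩
      intro x y u w hnd _
      exact hdef x y u w hnd
  obtain ⟨W, hWc, hWD⟩ := hW
  have hV : 1 ≤ Fintype.card V := Fintype.card_pos_iff.2 ⟨v1⟩
  obtain ⟨g, hg⟩ := additive hF (by omega) hWD
  obtain ⟨φ, h4, h5⟩ := zero_of_additive ha ha0 hdeg hWc hg
  exact hcon φ h4 h5

end Pool.Agent.K1H46.ZSR
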