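import Pool.Agent.K1H46.Viol

/-! Kernel check for ten points. -/

namespace Pool.Agent.K1H46.ZSR

theorem check10 : search closed10 9 10 0 [] = true := by decide +kernel

end Pool.Agent.K1H46.ZSR
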