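import Pool.Agent.K1H46.Search

/-!
Kernel-evaluated searches for point configurations over the field with three elements.
-/

namespace Pool.Agent.K1H46.ZSR

/-- weights for points of `F_3^2` (code `3 g + κ`) -/
def w2 (c : ℕ) : ℕ := Nat.add (Nat.mul 64 (Nat.div c 3)) (Nat.mod c 3)

/-- test `K + G^2 = 0` -/
def test2 (s : ℕ) : Bool :=
  Nat.beq (Nat.mod (Nat.add (Nat.mod s 64) (Nat.mul (Nat.div s 64) (Nat.div s 64))) 3) 0

/-- closing condition of the rank-one search -/
def closed5 (l : List ℕ) : Bool := lenGe 6 l && exHead test2 w2 5 l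

theorem check5 : search closed5 9 9 0 [] = true := by decide +kernel

/-- test `A * B = K` -/
def test3 (s : ℕ) : Bool :=
  Nat.beq (Nat.mod (Nat.mul (Nat.div s 4096) (Nat.mod (Nat.div s 64) 64)) 3)
    (Nat.mod (Nat.mod s 64) 3)

/-- weights for `F_3^2` with third coordinate the product -/
def w1 (c : ℕ) : ℕ :=
  Nat.add (Nat.mul 4096 (Nat.div c 3))
    (Nat.add (Nat.mul 64 (Nat.mod c 3)) (Nat.mul (Nat.div c 3) (Nat.mod c 3)))

/-- closing condition for four out of seven points -/
def closed1 (l : List ℕ) : Bool := lenGe 4 l && exHead test3 w1 3 l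

theorem check1 : search closed1 9 7 0 [] = true := by decide +kernel

/-- test for sum zero in `F_3^2` -/
def test0 (s : ℕ) : Bool :=
  Nat.beq (Nat.mod (Nat.div s 64) 3) 0 && Nat.beq (Nat.mod (Nat.mod s 64) 3) 0

/-- closing condition for zero-sum triples -/
def closed2 (l : List ℕ) : Bool := lenGe 3 l && exHead test0 w2 2 l

theorem check2 : search closed2 9 9 0 [] = true := by decide +kernel

/-- weights for points of `F_3^3`, code `9 a + 3 b + κ` -/
def w3 (c : ℕ) : ℕ :=
  Nat.add (Nat.mul 4096 (Nat.div c 9)) (Nat.add (Nat.mul 64 (Nat.mod (Nat.div c 3) 3)) (Nat.mod c 3))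

/-- test for the vanishing of the quartic relation of four vectors `(a_i, b_i)` -/
def t4 (a1 b1 a2 b2 a3 b3 a4 b4 : ℕ) : Bool :=
  Nat.beq (Nat.mod (Nat.add (Nat.add
    (Nat.mul (Nat.add (Nat.mul a1 b2) (Nat.mul a2 b1)) (Nat.add (Nat.mul a3 b4) (Nat.mul a4 b3)))
    (Nat.mul (Nat.add (Nat.mul a1 b3) (Nat.mul a3 b1)) (Nat.add (Nat.mul a2 b4) (Nat.mul a4 b2))))
    (Nat.mul (Nat.add (Nat.mul a1 b4) (Nat.mul a4 b1)) (Nat.add (Nat.mul a2 b3) (Nat.mul a3 b2))))
    3) 0

/-- the relation fails for four vectors given by codes -/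
def t4tail (z1 z2 z3 z4 : ℕ) : Bool :=
  !(t4 (Nat.div z1 9) (Nat.mod (Nat.div z1 3) 3) (Nat.div z2 9) (Nat.mod (Nat.div z2 3) 3)
      (Nat.div z3 9) (Nat.mod (Nat.div z3 3) 3) (Nat.div z4 9) (Nat.mod (Nat.div z4 3) 3))

/-- one of the five smallest entries is at least 3 -/
def vac4 : List ℕ → Bool
  | [] => false
  | x :: l => Nat.ble 3 x && !(lenGe 5 l)

/-- a full list of nine entries violating the relation -/
def viol4 : List ℕ → Bool
  | [z1, z2, z3, z4, _, _, _, _, _] => t4tail z1 z2 z3 z4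
  | _ => false

/-- closing condition for nine points, five of them at the origin -/
def closed4 (l : List ℕ) : Bool := vac4 l || (lenGe 6 l && exHead test3 w3 5 l) || viol4 l

theorem check4 : search closed4 27 9 0 [] = true := by decide +kernel

end Pool.Agent.K1H46.ZSR
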