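import Pool.Agent.K1H46.Config2

/-!
Point configurations over the field with three elements, main theorem.
-/

namespace Pool.Agent.K1H46.ZSR

variable {X : Type*} [DecidableEq X]

theorem three_eq_zero : (3 : ZMod 3) = 0 := by decide

omit [DecidableEq X] in
theorem T4Good.mono {α β : X → ZMod 3} {W W' : Finset X} (hT : T4Good α β W) (h : W' ⊆ W) :
    T4Good α β W' :=
  fun x1 y1 x2 y2 x3 y3 x4 y4 h1 h2 =>
    hT x1 y1 x2 y2 x3 y3 x4 y4 h1 (fun z hz => h (h2 z hz))

omit [DecidableEq X] in
theorem sum_eq_card_mul {g : X → ZMod 3} {S : Finset X} {a : ZMod 3} (h : ∀ x ∈ S, g x = a) :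
    ∑ x ∈ S, g x = S.card * a := by
  rw [Finset.sum_congr rfl h, Finset.sum_const, nsmul_eq_mul]

theorem TR (α β κ : X → ZMod 3) {W : Finset X} (hW : 10 ≤ W.card) (hT : T4Good α β W) :
    ∃ R ⊆ W, R.card = 3 ∧ ∑ x ∈ R, α x = 0 ∧ ∑ x ∈ R, β x = 0 ∧ ∑ x ∈ R, κ x = 0 := by
  obtain ⟨W', hW', hc'⟩ := Finset.exists_subset_card_eq hW
  rcases S10 hc' (hT.mono hW') with ⟨Q, hQ, hQc, a, b, hab⟩ | ⟨Q, hQ, hQc, p, q, c, hpq, hl⟩
  · obtain ⟨R, hR, hRc, hRs⟩ := ZMod.erdos_ginzburg_ziv (n := 3) (s := Q) κ (by omega)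
    refine ⟨R, hR.trans (hQ.trans hW'), hRc, ?_, ?_, hRs⟩
    · rw [sum_eq_card_mul (fun x hx => (hab x (hR hx)).1), hRc]
      push_cast; rw [three_eq_zero, zero_mul]
    · rw [sum_eq_card_mul (fun x hx => (hab x (hR hx)).2), hRc]
      push_cast; rw [three_eq_zero, zero_mul]
  · have hp1 : p = 1 ∨ (p = 0 ∧ q = 1) := by
      rcases hpq with h | h | h | h
      · exact Or.inl h.1
      · exact Or.inr h
      · exact Or.inl h.1
      · exact Or.inl h.1
    rcases hp1 with hp1 | ⟨hp0, hq1⟩
    · obtain ⟨R, hR, hRc, hR1, hR2⟩ := Z9 β κ hQc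
      refine ⟨R, hR.trans (hQ.trans hW'), hRc, ?_, hR1, hR2⟩
      have h1 : ∑ x ∈ R, (α x + q * β x) = R.card * c := by
        apply sum_eq_card_mul
        intro x hx
        rw [← hl x (hR hx), hp1, one_mul]
      rw [Finset.sum_add_distrib, ← Finset.mul_sum, hR1, hRc] at h1
      push_cast at h1
      rw [three_eq_zero] at h1
      simpa using h1
    · obtain ⟨R, hR, hRc, hR1, hR2⟩ := Z9 α κ hQc
      refine ⟨R, hR.trans (hQ.trans hW'), hRc, hR1, ?_, hR2⟩
      have h1 : ∑ x ∈ R, β x = R.card * c := by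
        apply sum_eq_card_mul
        intro x hx
        rw [← hl x (hR hx), hp0, hq1]; ring
      rw [hRc] at h1
      push_cast at h1
      rw [three_eq_zero] at h1
      simpa using h1

/-- six out of eight elements with sum zero -/
theorem E6 (κ : X → ZMod 3) {Q : Finset X} (hQ : 8 ≤ Q.card) :
    ∃ S ⊆ Q, S.card = 6 ∧ ∑ x ∈ S, κ x = 0 := by
  obtain ⟨R, hR, hRc, hRs⟩ := ZMod.erdos_ginzburg_ziv (n := 3) (s := Q) κ (by omega)
  have hc : 5 ≤ (Q \ R).card := by
    rw [Finset.card_sdiff_of_subset hR, hRc]; omega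
  obtain ⟨R', hR', hRc', hRs'⟩ := ZMod.erdos_ginzburg_ziv (n := 3) (s := Q \ R) κ (by omega)
  have hd : Disjoint R R' :=
    Finset.disjoint_of_subset_right hR' Finset.disjoint_sdiff
  refine ⟨R ∪ R', Finset.union_subset hR (hR'.trans Finset.sdiff_subset), ?_, ?_⟩
  · rw [Finset.card_union_of_disjoint hd, hRc, hRc']
  · rw [Finset.sum_union hd, hRs, hRs', add_zero]

/-- rank-one identity on a set with at most one element off the line -/
theorem rank_one {α β g e : X → ZMod 3} {s : ZMod 3} {W Q : Finset X} (hQW : Q ⊆ W)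
    (hc : W.card ≤ Q.card + 1)
    (hpair : ∀ x ∈ W, ∀ y ∈ Q, α x * β y + α y * β x = 2 * s * (g x * g y))
    (he : ∀ x ∈ W, e x = α x * β x - s * g x ^ 2)
    {S : Finset X} (hS : S ⊆ W) :
    (∑ x ∈ S, α x) * (∑ x ∈ S, β x) = s * (∑ x ∈ S, g x) ^ 2 + ∑ x ∈ S, e x := by
  have hall : ∀ x ∈ W, ∀ y ∈ W, x ≠ y → α x * β y + α y * β x = 2 * s * (g x * g y) := by
    intro x hx y hy hxy
    by_cases hyQ : y ∈ Q
    · exact hpair x hx y hyQ
    · have hxQ : x ∈ Q := by
        by_contra hxQ
        have h1 : insert x (insert y Q) ⊆ W := by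
          intro z hz
          rcases Finset.mem_insert.1 hz with rfl | hz
          · exact hx
          · rcases Finset.mem_insert.1 hz with rfl | hz
            · exact hy
            · exact hQW hz
        have h2 := Finset.card_le_card h1
        rw [Finset.card_insert_of_notMem, Finset.card_insert_of_notMem hyQ] at h2
        · omega
        · intro h
          rcases Finset.mem_insert.1 h with h | h
          · exact hxy h
          · exact hxQ h
      have := hpair y hy x hxQ
      rw [mul_comm (g x)]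
      linear_combination this
  induction S using Finset.induction_on with
  | empty => simp
  | insert x S hxS ih =>
    have hxW : x ∈ W := hS (Finset.mem_insert_self x S)
    have hSW : S ⊆ W := fun y hy => hS (Finset.mem_insert_of_mem hy)
    have ih' := ih hSW
    have hsum : α x * (∑ y ∈ S, β y) + (∑ y ∈ S, α y) * β x =
        2 * s * (g x * ∑ y ∈ S, g y) := by
      rw [Finset.mul_sum, Finset.sum_mul, Finset.mul_sum, Finset.mul_sum,
        ← Finset.sum_add_distrib]
      refine Finset.sum_congr rfl (fun y hy => ?_)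
      exact hall x hxW y (hSW hy) (fun h => hxS (h ▸ hy))
    rw [Finset.sum_insert hxS, Finset.sum_insert hxS, Finset.sum_insert hxS,
      Finset.sum_insert hxS, he x hxW]
    linear_combination ih' + hsum

/-- six out of nine points -/
theorem B6 (α β κ : X → ZMod 3) {W : Finset X} (hW : W.card = 9) (hT : T4Good α β W) :
    ∃ S ⊆ W, S.card = 6 ∧ (∑ x ∈ S, α x) * (∑ x ∈ S, β x) = ∑ x ∈ S, κ x := by
  have h6 : (6 : ZMod 3) = 0 := by decide
  have htr : ∀ (S : Finset X) (g : X → ZMod 3) (a : ZMod 3), S.card = 6 →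
      ∑ x ∈ S, (g x - a) = ∑ x ∈ S, g x := by
    intro S g a hS
    rw [Finset.sum_sub_distrib, Finset.sum_const, hS, nsmul_eq_mul]
    push_cast
    rw [h6, zero_mul, sub_zero]
  rcases S9 hW hT with ⟨Q, hQ, hQc, a, b, hab⟩ | ⟨Q, hQ, hQc, p, q, c, hpq, hl⟩
  · obtain ⟨S, hS, hSc, h⟩ := B6_five (fun x => α x - a) (fun x => β x - b) κ hW
      (T4Good_translate hT a b) hQ hQc
      (fun x hx => ⟨by rw [(hab x hx).1, sub_self], by rw [(hab x hx).2, sub_self]⟩)
    refine ⟨S, hS, hSc, ?_⟩
    rw [htr S α a hSc, htr S β b hSc] at h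
    exact h
  · rcases hpq with ⟨hp, hq⟩ | ⟨hp, hq⟩ | ⟨hp, hq⟩ | ⟨hp, hq⟩
    · obtain ⟨S, hS, hSc, hs⟩ := E6 κ (Q := Q) (by omega)
      refine ⟨S, hS.trans hQ, hSc, ?_⟩
      have h1 : ∑ x ∈ S, α x = S.card * c := by
        apply sum_eq_card_mul
        intro x hx
        rw [← hl x (hS hx), hp, hq]; ring
      rw [h1, hs, hSc]
      push_cast
      rw [h6]; ring
    · obtain ⟨S, hS, hSc, hs⟩ := E6 κ (Q := Q) (by omega)
      refine ⟨S, hS.trans hQ, hSc, ?_⟩
      have h1 : ∑ x ∈ S, β x = S.card * c := by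
        apply sum_eq_card_mul
        intro x hx
        rw [← hl x (hS hx), hp, hq]; ring
      rw [h1, hs, hSc]
      push_cast
      rw [h6]; ring
    · -- `α + β = c` on `Q`; put `α' = α - c`, `g = α' - β`, `s = -1`
      obtain ⟨S, hS, hSc, hs⟩ := R1 (fun x => α x - c - β x)
        (fun x => κ x - ((α x - c) * β x + (α x - c - β x) ^ 2)) hW
      refine ⟨S, hS, hSc, ?_⟩
      have h1 := rank_one (α := fun x => α x - c) (β := β) (g := fun x => α x - c - β x)
        (e := fun x => (α x - c) * β x + (α x - c - β x) ^ 2) (s := -1) hQ (by omega)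
        (by
          intro x hx y hy
          have h2 := hl y hy
          rw [hp, hq] at h2
          have h3 : α y = c - β y := by linear_combination h2
          simp only [h3]
          linear_combination (-(α x - c - β x) * β y) * three_eq_zero)
        (by intro x hx; ring) hS
      rw [htr S α c hSc] at h1
      rw [h1]
      rw [Finset.sum_sub_distrib] at hs
      linear_combination (-1 : ZMod 3) * hs
    · -- `α + 2 β = c` on `Q`; put `α' = α - c`, `g = α' + β`, `s = 1`
      obtain ⟨S, hS, hSc, hs⟩ := R1 (fun x => α x - c + β x)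
        (fun x => -(κ x - ((α x - c) * β x - (α x - c + β x) ^ 2))) hW
      refine ⟨S, hS, hSc, ?_⟩
      have h1 := rank_one (α := fun x => α x - c) (β := β) (g := fun x => α x - c + β x)
        (e := fun x => (α x - c) * β x - (α x - c + β x) ^ 2) (s := 1) hQ (by omega)
        (by
          intro x hx y hy
          have h2 := hl y hy
          rw [hp, hq] at h2
          have h3 : α y = c - 2 * β y := by linear_combination h2
          simp only [h3]
          linear_combination ((α x - c) * β y) * three_eq_zero)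
        (by intro x hx; ring) hS
      rw [htr S α c hSc] at h1
      rw [h1]
      rw [Finset.sum_neg_distrib, Finset.sum_sub_distrib] at hs
      linear_combination (1 : ZMod 3) * hs

/-- Main theorem on point configurations. -/
theorem config (α β κ : X → ZMod 3) : ∀ (k : ℕ), 4 ≤ k →
    (k % 3 = 0 ∨ (k % 3 = 1 ∧ ∀ x, κ x = α x * β x)) →
    ∀ W : Finset X, W.card = k + 3 → T4Good α β W →
    ∃ S ⊆ W, S.card = k ∧ (∑ x ∈ S, α x) * (∑ x ∈ S, β x) = ∑ x ∈ S, κ x := by
  intro k
  induction k using Nat.strong_induction_on with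
  | _ k ih =>
    intro hk4 hk W hW hT
    rcases Nat.lt_or_ge k 7 with hk7 | hk7
    · have hk46 : k = 4 ∨ k = 5 ∨ k = 6 := by omega
      rcases hk46 with rfl | rfl | rfl
      · rcases hk with hk | ⟨-, hk⟩
        · omega
        · obtain ⟨S, hS, hSc, h⟩ := B4 α β hW
          refine ⟨S, hS, hSc, ?_⟩
          rw [h]
          exact Finset.sum_congr rfl (fun x _ => (hk x).symm)
      · omega
      · exact B6 α β κ hW hT
    · obtain ⟨R, hR, hRc, hRα, hRβ, hRκ⟩ := TR α β κ (W := W) (by omega) hT
      obtain ⟨S, hS, hSc, h⟩ := ih (k - 3) (by omega) (by omega)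
        (by
          rcases hk with hk | hk
          · left; omega
          · right; exact ⟨by omega, hk.2⟩)
        (W \ R) (by rw [Finset.card_sdiff_of_subset hR, hRc]; omega)
        (hT.mono Finset.sdiff_subset)
      have hd : Disjoint S R :=
        Finset.disjoint_of_subset_left hS Finset.sdiff_disjoint
      refine ⟨S ∪ R, Finset.union_subset (hS.trans Finset.sdiff_subset) hR, ?_, ?_⟩
      · rw [Finset.card_union_of_disjoint hd, hSc, hRc]; omega
      · rw [Finset.sum_union hd, Finset.sum_union hd, Finset.sum_union hd, hRα, hRβ, hRκ,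
          add_zero, add_zero, add_zero, h]

end Pool.Agent.K1H46.ZSR
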