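import Pool.Agent.K1H46.Additive
import Pool.Agent.K1H46.Config3

/-!
Complete graphs with at least four vertices.
-/

namespace Pool.Agent.K1H46.ZSR

variable {X : Type*} [DecidableEq X]

/-- ordered edge sum of the complete graph on `S` -/
def FS (F : X → X → ZMod 3) (S : Finset X) : ZMod 3 :=
  ∑ x ∈ S, ∑ y ∈ S, if x = y then 0 else F x y

/-- adjacency of the complete graph -/
def ak (k : ℕ) (u v : Fin k) : ZMod 3 := if u = v then 0 else 1

theorem T_ak {k : ℕ} {F : X → X → ZMod 3} {φ : Fin k → X} (hφ : Function.Injective φ) :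
    T (ak k) F φ = FS F (Finset.univ.image φ) := by
  unfold T FS
  rw [Finset.sum_image (fun x _ y _ h => hφ h)]
  refine Finset.sum_congr rfl (fun u _ => ?_)
  rw [Finset.sum_image (fun x _ y _ h => hφ h)]
  refine Finset.sum_congr rfl (fun v _ => ?_)
  unfold ak
  by_cases h : u = v
  · rw [if_pos h, if_pos (by rw [h]), zero_mul]
  · rw [if_neg h, if_neg (fun he => h (hφ he)), one_mul]

theorem FS_rank2 {F : X → X → ZMod 3} {S : Finset X} {h α β : X → ZMod 3}
    (hF : ∀ x ∈ S, ∀ u ∈ S, x ≠ u → F x u = h x + h u + (α x * β u + α u * β x)) :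
    FS F S = 2 * ((∑ x ∈ S, α x) * (∑ x ∈ S, β x) -
      ∑ x ∈ S, (α x * β x - (S.card - 1) * h x)) := by
  have h1 : FS F S = ∑ x ∈ S, (∑ y ∈ S, (h x + h y + (α x * β y + α y * β x)) -
      2 * (h x + α x * β x)) := by
    unfold FS
    refine Finset.sum_congr rfl (fun x hx => ?_)
    rw [← Finset.sum_erase_add _ _ hx, ← Finset.sum_erase_add _ _ hx, if_pos rfl]
    have : ∑ y ∈ S.erase x, (if x = y then 0 else F x y) =
        ∑ y ∈ S.erase x, (h x + h y + (α x * β y + α y * β x)) := by
      refine Finset.sum_congr rfl (fun y hy => ?_)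
      rw [Finset.mem_erase] at hy
      rw [if_neg (Ne.symm hy.1), hF x hx y hy.2 (Ne.symm hy.1)]
    rw [this]; ring
  rw [h1]
  simp only [Finset.sum_sub_distrib, Finset.sum_add_distrib, Finset.sum_const, nsmul_eq_mul,
    ← Finset.mul_sum, ← Finset.sum_mul]
  ring

variable [Fintype X]

theorem cliqueFour (F : X → X → ZMod 3) (hF : ∀ x y, F x y = F y x) (k : ℕ) (hk : 4 ≤ k)
    (hk3 : k % 3 = 0 ∨ k % 3 = 1) (hX : k + 7 ≤ Fintype.card X) :
    ∃ S : Finset X, S.card = k ∧ FS F S = 0 := by
  by_contra hcon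
  push Not at hcon
  have t3 : (3 : ZMod 3) = 0 := by decide
  have ha : ∀ u v : Fin k, ak k u v = ak k v u := by
    intro u v; unfold ak; simp [eq_comm]
  have ha0 : ∀ u : Fin k, ak k u u = 0 := by intro u; simp [ak]
  have hno : ∀ φ : Fin k → X, Function.Injective φ → T (ak k) F φ ≠ 0 := by
    intro φ hφ
    rw [T_ak hφ]
    apply hcon
    rw [Finset.card_image_of_injective _ hφ, Finset.card_univ, Fintype.card_fin]
  have hdeg : ∑ u, ∑ v, ak k u v = 0 := by
    have h1 : ∀ u : Fin k, ∑ v, ak k u v = (k : ZMod 3) - 1 := by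
      intro u
      unfold ak
      rw [← Finset.sum_erase_add _ _ (Finset.mem_univ u), if_pos rfl, add_zero,
        Finset.sum_congr rfl (g := fun _ => (1 : ZMod 3)) (fun x hx => by
          rw [Finset.mem_erase] at hx; rw [if_neg (Ne.symm hx.1)]), Finset.sum_const,
        Finset.card_erase_of_mem (Finset.mem_univ u), Finset.card_univ, Fintype.card_fin,
        nsmul_eq_mul, Nat.cast_sub (by omega)]
      simp
    rw [Finset.sum_congr rfl (fun u _ => h1 u), Finset.sum_const, Finset.card_univ,
      Fintype.card_fin, nsmul_eq_mul]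
    rcases hk3 with h | h
    · have : ((k : ℕ) : ZMod 3) = 0 := (ZMod.natCast_eq_zero_iff k 3).2 (Nat.dvd_of_mod_eq_zero h)
      rw [this, zero_mul]
    · have : ((k : ℕ) : ZMod 3) = 1 := by
        rw [← ZMod.natCast_mod, h]; simp
      rw [this]; ring
  have rel : ∀ {x1 y1 x2 y2 x3 y3 x4 y4 : X}, [x1, y1, x2, y2, x3, y3, x4, y4].Nodup →
      Dl F x1 y1 x2 y2 * Dl F x3 y3 x4 y4 + Dl F x1 y1 x3 y3 * Dl F x2 y2 x4 y4
        + Dl F x1 y1 x4 y4 * Dl F x2 y2 x3 y3 = 0 := by
    intro x1 y1 x2 y2 x3 y3 x4 y4 hx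
    have h1 := relation (a := ak k) ha ha0 hF hno (by rw [Fintype.card_fin]; omega)
      (v1 := ⟨0, by omega⟩) (v2 := ⟨1, by omega⟩) (v3 := ⟨2, by omega⟩) (v4 := ⟨3, by omega⟩)
      (by simp) hx
    simpa [ak] using h1
  by_cases hdef : ∃ x y u w, [x, y, u, w].Nodup ∧ Dl F x y u w ≠ 0
  · obtain ⟨a1, a2, b1, b2, hnd, hne⟩ := hdef
    obtain ⟨W, hW, hWc⟩ := Finset.exists_subset_card_eq
      (s := Finset.univ \ [a1, a2, b1, b2].toFinset) (n := k + 3) (by
        rw [Finset.card_sdiff_of_subset (Finset.subset_univ _), List.toFinset_card_of_nodup hnd,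
          Finset.card_univ]
        simp only [List.length_cons, List.length_nil]
        omega)
    set δ := Dl F a1 a2 b1 b2 with hδ
    have hδ2 : δ * δ = 1 := by rw [← pow_two]; exact sq_eq_one hne
    set α : X → ZMod 3 := fun x => -δ * (F a1 x - F a2 x) with hα
    set β : X → ZMod 3 := fun x => F b1 x - F b2 x with hβ
    have hDl : ∀ x y u w, [x, y, u, w].Nodup → (∀ z ∈ [x, y, u, w], z ∈ W) →
        Dl F x y u w = D α β x y u w := by
      intro x y u w hxy hmem
      have hnd8 : ([a1, a2, b1, b2] ++ [x, y, u, w]).Nodup := by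
        rw [List.nodup_append]
        refine ⟨hnd, hxy, ?_⟩
        intro z hz z' hz' he
        have := hW (hmem z' hz')
        rw [Finset.mem_sdiff, List.mem_toFinset, ← he] at this
        exact this.2 hz
      have h1 := rel (x1 := a1) (y1 := a2) (x2 := b1) (y2 := b2) (x3 := x) (y3 := y) (x4 := u)
        (y4 := w) hnd8
      rw [← hδ] at h1
      have e1 : Dl F a1 a2 x y = (F a1 x - F a2 x) - (F a1 y - F a2 y) := by unfold Dl; ring
      have e2 : Dl F a1 a2 u w = (F a1 u - F a2 u) - (F a1 w - F a2 w) := by unfold Dl; ring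
      have e3 : Dl F b1 b2 x y = β x - β y := by simp only [hβ]; unfold Dl; ring
      have e4 : Dl F b1 b2 u w = β u - β w := by simp only [hβ]; unfold Dl; ring
      rw [e1, e2, e3, e4] at h1
      unfold D
      simp only [hα]
      linear_combination δ * h1 - Dl F x y u w * hδ2
    have hT : T4Good α β W := by
      intro x1 y1 x2 y2 x3 y3 x4 y4 hx hmem
      have h1 := rel hx
      have hsub : ∀ {p q r s : X}, [p, q, r, s].Sublist [x1, y1, x2, y2, x3, y3, x4, y4] →
          Dl F p q r s = D α β p q r s := by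
        intro p q r s hs
        exact hDl p q r s (hx.sublist hs) (fun z hz => hmem z (hs.subset hz))
      rw [hsub (p := x1) (q := y1) (r := x2) (s := y2)
          (.cons_cons _ (.cons_cons _ (.cons_cons _ (.cons_cons _ (List.nil_sublist _))))),
        hsub (p := x3) (q := y3) (r := x4) (s := y4)
          (.cons _ (.cons _ (.cons _ (.cons _ (List.Sublist.refl _))))),
        hsub (p := x1) (q := y1) (r := x3) (s := y3)
          (.cons_cons _ (.cons_cons _ (.cons _ (.cons _ (.cons_cons _ (.cons_cons _ (List.nil_sublist _))))))),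
        hsub (p := x2) (q := y2) (r := x4) (s := y4)
          (.cons _ (.cons _ (.cons_cons _ (.cons_cons _ (.cons _ (.cons _ (List.Sublist.refl _))))))),
        hsub (p := x1) (q := y1) (r := x4) (s := y4)
          (.cons_cons _ (.cons_cons _ (.cons _ (.cons _ (.cons _ (.cons _ (List.Sublist.refl _))))))),
        hsub (p := x2) (q := y2) (r := x3) (s := y3)
          (.cons _ (.cons _ (.cons_cons _ (.cons_cons _ (.cons_cons _ (.cons_cons _ (List.nil_sublist _)))))))] at h1
      exact h1
    obtain ⟨h, hh⟩ := additive (F := fun x u => F x u - (α x * β u + α u * β x))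
      (by intro x y; simp only [hF x y]; ring) (W := W) (by omega) (by
        intro x y u w hxy hmem
        have h1 := hDl x y u w hxy hmem
        unfold Dl at h1 ⊢
        unfold D at h1
        linear_combination h1)
    obtain ⟨S, hS, hSc, hSs⟩ := config α β (fun x => α x * β x - ((k : ZMod 3) - 1) * h x) k hk
      (by
        rcases hk3 with h | h
        · left; exact h
        · right
          refine ⟨h, fun x => ?_⟩
          have : ((k : ℕ) : ZMod 3) = 1 := by
            rw [← ZMod.natCast_mod, h]; simp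
          rw [this]; ring) W hWc hT
    refine hcon S hSc ?_
    rw [FS_rank2 (h := h) (α := α) (β := β) (by
      intro x hx u hu hxu
      have := hh x (hS hx) u (hS hu) hxu
      linear_combination this), hSc, hSs]
    ring
  · push Not at hdef
    obtain ⟨g, hg⟩ := additive hF (W := Finset.univ) (by rw [Finset.card_univ]; omega)
      (fun x y u w h1 _ => hdef x y u w h1)
    obtain ⟨φ, h4, h5⟩ := zero_of_additive (a := ak k) ha ha0 hdeg (W := Finset.univ)
      (by rw [Finset.card_univ, Fintype.card_fin]; omega) hg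
    exact hno φ h4 h5

end Pool.Agent.K1H46.ZSR
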