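import Pool.Agent.K1H46.Check9
import Pool.Agent.K1H46.Check10

/-!
Point configurations over the field with three elements.
-/

namespace Pool.Agent.K1H46.ZSR

variable {X : Type*} [DecidableEq X]

/-- mixed difference of the rank-two form -/
def D (α β : X → ZMod 3) (x y u w : X) : ZMod 3 :=
  (α x - α y) * (β u - β w) + (α u - α w) * (β x - β y)

/-- the quartic relation for all eight distinct elements of `W` -/
def T4Good (α β : X → ZMod 3) (W : Finset X) : Prop :=
  ∀ x1 y1 x2 y2 x3 y3 x4 y4 : X, [x1, y1, x2, y2, x3, y3, x4, y4].Nodup →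
    (∀ z ∈ [x1, y1, x2, y2, x3, y3, x4, y4], z ∈ W) →
    D α β x1 y1 x2 y2 * D α β x3 y3 x4 y4 + D α β x1 y1 x3 y3 * D α β x2 y2 x4 y4
      + D α β x1 y1 x4 y4 * D α β x2 y2 x3 y3 = 0

/-- code of a point of the plane -/
def c2 (α β : X → ZMod 3) (x : X) : ℕ := 3 * (α x).val + (β x).val

/-- code of a point of the space -/
def c3 (α β κ : X → ZMod 3) (x : X) : ℕ := 9 * (α x).val + 3 * (β x).val + (κ x).val

omit [DecidableEq X] in
theorem c2_lt (α β : X → ZMod 3) (x : X) : c2 α β x < 9 := by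
  have h1 := (α x).val_lt
  have h2 := (β x).val_lt
  unfold c2; omega

omit [DecidableEq X] in
theorem c2_div (α β : X → ZMod 3) (x : X) : c2 α β x / 3 = (α x).val := by
  have h1 := (α x).val_lt
  have h2 := (β x).val_lt
  unfold c2; omega

omit [DecidableEq X] in
theorem c2_mod (α β : X → ZMod 3) (x : X) : c2 α β x % 3 = (β x).val := by
  have h1 := (α x).val_lt
  have h2 := (β x).val_lt
  unfold c2; omega

omit [DecidableEq X] in
theorem c3_lt (α β κ : X → ZMod 3) (x : X) : c3 α β κ x < 27 := by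
  have h1 := (α x).val_lt
  have h2 := (β x).val_lt
  have h3 := (κ x).val_lt
  unfold c3; omega

omit [DecidableEq X] in
theorem c3_div9 (α β κ : X → ZMod 3) (x : X) : c3 α β κ x / 9 = (α x).val := by
  have h1 := (α x).val_lt
  have h2 := (β x).val_lt
  have h3 := (κ x).val_lt
  unfold c3; omega

omit [DecidableEq X] in
theorem c3_div3 (α β κ : X → ZMod 3) (x : X) : c3 α β κ x / 3 % 3 = (β x).val := by
  have h1 := (α x).val_lt
  have h2 := (β x).val_lt
  have h3 := (κ x).val_lt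
  unfold c3; omega

omit [DecidableEq X] in
theorem c3_mod (α β κ : X → ZMod 3) (x : X) : c3 α β κ x % 3 = (κ x).val := by
  have h1 := (α x).val_lt
  have h2 := (β x).val_lt
  have h3 := (κ x).val_lt
  unfold c3; omega

omit [DecidableEq X] in
theorem ad_cast (α β : X → ZMod 3) (x y : X) :
    ((ad (c2 α β x) (c2 α β y) : ℕ) : ZMod 3) = α x - α y := by
  have h : ad (c2 α β x) (c2 α β y) = c2 α β x / 3 + 2 * (c2 α β y / 3) := rfl
  rw [h, c2_div, c2_div]
  push_cast
  rw [ZMod.natCast_zmod_val, ZMod.natCast_zmod_val]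
  have h3 : (3 : ZMod 3) = 0 := by decide
  linear_combination (α y) * h3

omit [DecidableEq X] in
theorem bd_cast (α β : X → ZMod 3) (x y : X) :
    ((bd (c2 α β x) (c2 α β y) : ℕ) : ZMod 3) = β x - β y := by
  have h : bd (c2 α β x) (c2 α β y) = c2 α β x % 3 + 2 * (c2 α β y % 3) := rfl
  rw [h, c2_mod, c2_mod]
  push_cast
  rw [ZMod.natCast_zmod_val, ZMod.natCast_zmod_val]
  have h3 : (3 : ZMod 3) = 0 := by decide
  linear_combination (β y) * h3

omit [DecidableEq X] in
theorem t4_spec (a1 b1 a2 b2 a3 b3 a4 b4 : ℕ) : t4 a1 b1 a2 b2 a3 b3 a4 b4 = true ↔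
    (((a1 : ZMod 3) * b2 + a2 * b1) * (a3 * b4 + a4 * b3) +
      (a1 * b3 + a3 * b1) * (a2 * b4 + a4 * b2) +
      (a1 * b4 + a4 * b1) * (a2 * b3 + a3 * b2) = 0) := by
  unfold t4
  rw [Nat.beq_eq]
  change ((a1 * b2 + a2 * b1) * (a3 * b4 + a4 * b3) +
      (a1 * b3 + a3 * b1) * (a2 * b4 + a4 * b2) +
      (a1 * b4 + a4 * b1) * (a2 * b3 + a3 * b2)) % 3 = 0 ↔ _
  rw [← Nat.dvd_iff_mod_eq_zero, ← ZMod.natCast_eq_zero_iff]
  push_cast
  rfl

omit [DecidableEq X] in
theorem v0_sound {code : X → ℕ} {a1 b1 a2 b2 a3 b3 : ℕ} {l : List X}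
    (h : v0 a1 b1 a2 b2 a3 b3 (l.map code) = true) :
    ∃ x y, l = [x, y] ∧
      t4 a1 b1 a2 b2 a3 b3 (ad (code x) (code y)) (bd (code x) (code y)) = false := by
  match l with
  | [] => simp [v0] at h
  | [x] => simp [v0] at h
  | [x, y] => exact ⟨x, y, rfl, by simpa [v0] using h⟩
  | x :: y :: z :: l => simp [v0] at h

omit [DecidableEq X] in
theorem v1_sound {code : X → ℕ} {a1 b1 a2 b2 : ℕ} {l : List X}
    (h : v1 a1 b1 a2 b2 (l.map code) = true) :
    ∃ x3 y3 x4 y4, [x3, y3, x4, y4].Perm l ∧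
      t4 a1 b1 a2 b2 (ad (code x3) (code y3)) (bd (code x3) (code y3))
        (ad (code x4) (code y4)) (bd (code x4) (code y4)) = false := by
  match l with
  | [] => simp [v1] at h
  | x :: l =>
    simp only [List.map_cons, v1] at h
    obtain ⟨y, r, hp, hf⟩ := anyPick_sound l [] (by simpa using h)
    rw [Bool.and_eq_true] at hf
    obtain ⟨x4, y4, hr, ht⟩ := v0_sound hf.2
    subst hr
    exact ⟨x, y, x4, y4, List.Perm.cons _ (by simpa using hp), ht⟩

omit [DecidableEq X] in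
theorem v2_sound {code : X → ℕ} {a1 b1 : ℕ} {l : List X}
    (h : v2 a1 b1 (l.map code) = true) :
    ∃ x2 y2 x3 y3 x4 y4, [x2, y2, x3, y3, x4, y4].Perm l ∧
      t4 a1 b1 (ad (code x2) (code y2)) (bd (code x2) (code y2))
        (ad (code x3) (code y3)) (bd (code x3) (code y3))
        (ad (code x4) (code y4)) (bd (code x4) (code y4)) = false := by
  match l with
  | [] => simp [v2] at h
  | x :: l =>
    simp only [List.map_cons, v2] at h
    obtain ⟨y, r, hp, hf⟩ := anyPick_sound l [] (by simpa using h)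
    rw [Bool.and_eq_true] at hf
    obtain ⟨x3, y3, x4, y4, hr, ht⟩ := v1_sound hf.2
    exact ⟨x, y, x3, y3, x4, y4,
      List.Perm.cons _ ((List.Perm.cons _ hr).trans (by simpa using hp)), ht⟩

omit [DecidableEq X] in
theorem v3_sound {code : X → ℕ} {l : List X}
    (h : v3 (l.map code) = true) :
    ∃ x1 y1 x2 y2 x3 y3 x4 y4, [x1, y1, x2, y2, x3, y3, x4, y4].Perm l ∧
      t4 (ad (code x1) (code y1)) (bd (code x1) (code y1))
        (ad (code x2) (code y2)) (bd (code x2) (code y2))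
        (ad (code x3) (code y3)) (bd (code x3) (code y3))
        (ad (code x4) (code y4)) (bd (code x4) (code y4)) = false := by
  match l with
  | [] => simp [v3] at h
  | x :: l =>
    simp only [List.map_cons, v3] at h
    obtain ⟨y, r, hp, hf⟩ := anyPick_sound l [] (by simpa using h)
    rw [Bool.and_eq_true] at hf
    obtain ⟨x2, y2, x3, y3, x4, y4, hr, ht⟩ := v2_sound hf.2
    exact ⟨x, y, x2, y2, x3, y3, x4, y4,
      List.Perm.cons _ ((List.Perm.cons _ hr).trans (by simpa using hp)), ht⟩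

omit [DecidableEq X] in
theorem v3_false {α β : X → ZMod 3} {W : Finset X} (hT : T4Good α β W) {l : List X}
    (hnd : l.Nodup) (hl : ∀ x ∈ l, x ∈ W) : v3 (l.map (c2 α β)) = false := by
  by_contra hne
  rw [Bool.not_eq_false] at hne
  obtain ⟨x1, y1, x2, y2, x3, y3, x4, y4, hp, ht⟩ := v3_sound hne
  have h0 := hT x1 y1 x2 y2 x3 y3 x4 y4 (hp.nodup_iff.2 hnd) (fun z hz => hl z (hp.mem_iff.1 hz))
  have h1 := (t4_spec (ad (c2 α β x1) (c2 α β y1)) (bd (c2 α β x1) (c2 α β y1))
        (ad (c2 α β x2) (c2 α β y2)) (bd (c2 α β x2) (c2 α β y2))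
        (ad (c2 α β x3) (c2 α β y3)) (bd (c2 α β x3) (c2 α β y3))
        (ad (c2 α β x4) (c2 α β y4)) (bd (c2 α β x4) (c2 α β y4))).2 (by
    simp only [ad_cast, bd_cast]
    exact h0)
  rw [ht] at h1
  exact Bool.false_ne_true h1

omit [DecidableEq X] in
theorem pick1_false {α β : X → ZMod 3} {W : Finset X} (hT : T4Good α β W) {l : List X}
    (hnd : l.Nodup) (hl : ∀ x ∈ l, x ∈ W) :
    anyPick (fun _ r => v3 r) [] (l.map (c2 α β)) = false := by
  by_contra hne
  rw [Bool.not_eq_false] at hne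
  obtain ⟨y, r, hp, hf⟩ := anyPick_sound (code := c2 α β) l [] (by simpa using hne)
  rw [List.nil_append] at hp
  have hnd' := hp.nodup_iff.2 hnd
  rw [List.nodup_cons] at hnd'
  rw [v3_false hT hnd'.2 (fun x hx => hl x (hp.mem_iff.1 (List.mem_cons_of_mem _ hx)))] at hf
  exact Bool.false_ne_true hf

omit [DecidableEq X] in
theorem pick2_false {α β : X → ZMod 3} {W : Finset X} (hT : T4Good α β W) {l : List X}
    (hnd : l.Nodup) (hl : ∀ x ∈ l, x ∈ W) :
    anyPick (fun _ r => anyPick (fun _ r' => v3 r') [] r) [] (l.map (c2 α β)) = false := by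
  by_contra hne
  rw [Bool.not_eq_false] at hne
  obtain ⟨y, r, hp, hf⟩ := anyPick_sound (code := c2 α β) l [] (by simpa using hne)
  rw [List.nil_append] at hp
  have hnd' := hp.nodup_iff.2 hnd
  rw [List.nodup_cons] at hnd'
  rw [pick1_false hT hnd'.2 (fun x hx => hl x (hp.mem_iff.1 (List.mem_cons_of_mem _ hx)))] at hf
  exact Bool.false_ne_true hf

/-- many points on a line -/
def OnLine (α β : X → ZMod 3) (W : Finset X) (k : ℕ) : Prop :=
  ∃ Q ⊆ W, Q.card = k ∧ ∃ p q c : ZMod 3,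
    ((p = 1 ∧ q = 0) ∨ (p = 0 ∧ q = 1) ∨ (p = 1 ∧ q = 1) ∨ (p = 1 ∧ q = 2)) ∧
    ∀ x ∈ Q, p * α x + q * β x = c

/-- five points at the same place -/
def Five (α β : X → ZMod 3) (W : Finset X) : Prop :=
  ∃ Q ⊆ W, Q.card = 5 ∧ ∃ a b : ZMod 3, ∀ x ∈ Q, α x = a ∧ β x = b

theorem lineC_sound {α β : X → ZMod 3} {W : Finset X} {l : List X}
    (hnd : l.Nodup) (hl : ∀ x ∈ l, x ∈ W) {k p q c : ℕ}
    (h : lineC k p q (l.map (c2 α β)) c = true)
    (hpq : (((p : ZMod 3) = 1 ∧ (q : ZMod 3) = 0) ∨ ((p : ZMod 3) = 0 ∧ (q : ZMod 3) = 1) ∨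
      ((p : ZMod 3) = 1 ∧ (q : ZMod 3) = 1) ∨ ((p : ZMod 3) = 1 ∧ (q : ZMod 3) = 2))) :
    OnLine α β W k := by
  obtain ⟨S, hS1, hS2, hS3⟩ := countGe_sound k l hnd h
  refine ⟨S, fun x hx => hl x (hS1 x hx), hS2, p, q, c, hpq, ?_⟩
  intro x hx
  have h1 := hS3 x hx
  rw [Nat.beq_eq] at h1
  change (p * (c2 α β x / 3) + q * (c2 α β x % 3)) % 3 = c at h1
  rw [c2_div, c2_mod] at h1
  rw [← h1, ZMod.natCast_mod]
  push_cast
  rw [ZMod.natCast_zmod_val, ZMod.natCast_zmod_val]

theorem lineGe_sound {α β : X → ZMod 3} {W : Finset X} {l : List X}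
    (hnd : l.Nodup) (hl : ∀ x ∈ l, x ∈ W) {k : ℕ}
    (h : lineGe k (l.map (c2 α β)) = true) : OnLine α β W k := by
  simp only [lineGe, Bool.or_eq_true] at h
  rcases h with ((((((((((h | h) | h) | h) | h) | h) | h) | h) | h) | h) | h) | h <;>
    exact lineC_sound hnd hl h (by decide)

theorem five_sound {α β : X → ZMod 3} {W : Finset X} {l : List X}
    (hnd : l.Nodup) (hl : ∀ x ∈ l, x ∈ W)
    (h : five (l.map (c2 α β)) = true) : Five α β W := by
  cases l with
  | nil => simp [five] at h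
  | cons x l =>
    simp only [List.map_cons, five] at h
    rw [← List.map_cons] at h
    obtain ⟨S, hS1, hS2, hS3⟩ := countGe_sound 5 (x :: l) hnd h
    refine ⟨S, fun x hx => hl x (hS1 x hx), hS2, α x, β x, ?_⟩
    intro y hy
    have h1 := hS3 y hy
    rw [Nat.beq_eq] at h1
    have h2 : (α y).val = (α x).val := by rw [← c2_div α β y, ← c2_div α β x, h1]
    have h3 : (β y).val = (β x).val := by rw [← c2_mod α β y, ← c2_mod α β x, h1]
    exact ⟨ZMod.val_injective 3 h2, ZMod.val_injective 3 h3⟩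

theorem vac0_false {α β : X → ZMod 3} {W : Finset X} {l : List X} {p : X} (hp : p ∈ W)
    (h0 : c2 α β p = 0)
    (hord : ∀ y ∈ W, y ∉ l → ∀ x ∈ l, c2 α β x ≤ c2 α β y) :
    vac0 (l.map (c2 α β)) = false := by
  match l with
  | [] => rfl
  | [x] =>
    simp only [List.map_cons, List.map_nil, vac0]
    by_cases hx : p ∈ [x]
    · rw [List.mem_singleton] at hx
      rw [← hx, h0]; rfl
    · have := hord p hp hx x (by simp)
      rw [h0] at this
      have hx0 : c2 α β x = 0 := by omega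
      rw [hx0]; rfl
  | x :: y :: l => rfl

theorem S9_aux {α β : X → ZMod 3} {W : Finset X} (hW : W.card = 9) (hT : T4Good α β W)
    {p : X} (hp : p ∈ W) (h0 : c2 α β p = 0) : Five α β W ∨ OnLine α β W 8 := by
  obtain ⟨l, hnd, hl, hord, hc⟩ := search_finset check9 W hW (c2 α β) (fun x _ => c2_lt α β x)
  unfold closed9 at hc
  rw [vac0_false hp h0 hord, v3_false hT hnd hl, pick1_false hT hnd hl] at hc
  simp only [Bool.false_or, Bool.and_false, Bool.or_false, Bool.or_eq_true,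
    Bool.and_eq_true] at hc
  rcases hc with hc | hc
  · exact Or.inl (five_sound hnd hl hc)
  · exact Or.inr (lineGe_sound hnd hl hc.2)

theorem S10_aux {α β : X → ZMod 3} {W : Finset X} (hW : W.card = 10) (hT : T4Good α β W)
    {p : X} (hp : p ∈ W) (h0 : c2 α β p = 0) : Five α β W ∨ OnLine α β W 9 := by
  obtain ⟨l, hnd, hl, hord, hc⟩ := search_finset check10 W hW (c2 α β) (fun x _ => c2_lt α β x)
  unfold closed10 at hc
  rw [vac0_false hp h0 hord, v3_false hT hnd hl, pick1_false hT hnd hl,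
    pick2_false hT hnd hl] at hc
  simp only [Bool.false_or, Bool.and_false, Bool.or_false, Bool.or_eq_true,
    Bool.and_eq_true] at hc
  rcases hc with hc | hc
  · exact Or.inl (five_sound hnd hl hc)
  · exact Or.inr (lineGe_sound hnd hl hc.2)

theorem T4Good_translate {α β : X → ZMod 3} {W : Finset X} (hT : T4Good α β W) (a b : ZMod 3) :
    T4Good (fun x => α x - a) (fun x => β x - b) W := by
  intro x1 y1 x2 y2 x3 y3 x4 y4 h1 h2
  have := hT x1 y1 x2 y2 x3 y3 x4 y4 h1 h2
  simp only [D, sub_sub_sub_cancel_right] at this ⊢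
  exact this

theorem Five_translate {α β : X → ZMod 3} {W : Finset X} (a b : ZMod 3)
    (h : Five (fun x => α x - a) (fun x => β x - b) W) : Five α β W := by
  obtain ⟨Q, hQ, hc, a', b', h⟩ := h
  refine ⟨Q, hQ, hc, a' + a, b' + b, fun x hx => ⟨?_, ?_⟩⟩
  · rw [← (h x hx).1]; ring
  · rw [← (h x hx).2]; ring

theorem OnLine_translate {α β : X → ZMod 3} {W : Finset X} (a b : ZMod 3) {k : ℕ}
    (h : OnLine (fun x => α x - a) (fun x => β x - b) W k) : OnLine α β W k := by
  obtain ⟨Q, hQ, hc, p, q, c, hpq, h⟩ := h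
  refine ⟨Q, hQ, hc, p, q, c + p * a + q * b, hpq, fun x hx => ?_⟩
  rw [← h x hx]; ring

theorem S9 {α β : X → ZMod 3} {W : Finset X} (hW : W.card = 9) (hT : T4Good α β W) :
    Five α β W ∨ OnLine α β W 8 := by
  obtain ⟨p, hp⟩ : W.Nonempty := Finset.card_pos.1 (by omega)
  rcases S9_aux hW (T4Good_translate hT (α p) (β p)) hp (by simp [c2]) with h | h
  · exact Or.inl (Five_translate _ _ h)
  · exact Or.inr (OnLine_translate _ _ h)

theorem S10 {α β : X → ZMod 3} {W : Finset X} (hW : W.card = 10) (hT : T4Good α β W) :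
    Five α β W ∨ OnLine α β W 9 := by
  obtain ⟨p, hp⟩ : W.Nonempty := Finset.card_pos.1 (by omega)
  rcases S10_aux hW (T4Good_translate hT (α p) (β p)) hp (by simp [c2]) with h | h
  · exact Or.inl (Five_translate _ _ h)
  · exact Or.inr (OnLine_translate _ _ h)

end Pool.Agent.K1H46.ZSR
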