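import Pool.Agent.K1H46.Config

/-!
Point configurations over the field with three elements, second part.
-/

namespace Pool.Agent.K1H46.ZSR

variable {X : Type*} [DecidableEq X]

omit [DecidableEq X] in
theorem sum_val_le (g : X → ZMod 3) (S : Finset X) : ∑ x ∈ S, (g x).val ≤ 2 * S.card := by
  have : ∑ x ∈ S, (g x).val ≤ ∑ _x ∈ S, 2 :=
    Finset.sum_le_sum (fun x _ => by have := (g x).val_lt; omega)
  simpa [mul_comm] using this

omit [DecidableEq X] in
theorem cast_sum_val (g : X → ZMod 3) (S : Finset X) :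
    ((∑ x ∈ S, (g x).val : ℕ) : ZMod 3) = ∑ x ∈ S, g x := by
  push_cast
  exact Finset.sum_congr rfl (fun x _ => ZMod.natCast_zmod_val _)

omit [DecidableEq X] in
theorem sum_w2 (g h : X → ZMod 3) (S : Finset X) :
    ∑ x ∈ S, w2 (c2 g h x) = 64 * ∑ x ∈ S, (g x).val + ∑ x ∈ S, (h x).val := by
  rw [Finset.mul_sum, ← Finset.sum_add_distrib]
  refine Finset.sum_congr rfl (fun x _ => ?_)
  change 64 * (c2 g h x / 3) + c2 g h x % 3 = _
  rw [c2_div, c2_mod]

/-- among nine points of the plane there is a zero-sum triple -/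
theorem Z9 (g h : X → ZMod 3) {W : Finset X} (hW : W.card = 9) :
    ∃ R ⊆ W, R.card = 3 ∧ ∑ x ∈ R, g x = 0 ∧ ∑ x ∈ R, h x = 0 := by
  obtain ⟨l, hnd, hl, -, hc⟩ := search_finset check2 W hW (c2 g h) (fun x _ => c2_lt g h x)
  unfold closed2 at hc
  rw [Bool.and_eq_true] at hc
  obtain ⟨S, hS1, hS2, hS3⟩ := exHead_sound 2 l hnd hc.2
  refine ⟨S, fun x hx => hl x (hS1 x hx), hS2, ?_⟩
  unfold test0 at hS3
  rw [Bool.and_eq_true, Nat.beq_eq, Nat.beq_eq] at hS3
  have h1 : (∑ x ∈ S, w2 (c2 g h x)) / 64 % 3 = 0 := hS3.1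
  have h2 : (∑ x ∈ S, w2 (c2 g h x)) % 64 % 3 = 0 := hS3.2
  rw [sum_w2] at h1 h2
  have hle := sum_val_le h S
  have e1 : (64 * ∑ x ∈ S, (g x).val + ∑ x ∈ S, (h x).val) / 64 = ∑ x ∈ S, (g x).val := by omega
  have e2 : (64 * ∑ x ∈ S, (g x).val + ∑ x ∈ S, (h x).val) % 64 = ∑ x ∈ S, (h x).val := by omega
  rw [e1] at h1
  rw [e2] at h2
  rw [← cast_sum_val g, ← cast_sum_val h, ZMod.natCast_eq_zero_iff, ZMod.natCast_eq_zero_iff]
  exact ⟨Nat.dvd_of_mod_eq_zero h1, Nat.dvd_of_mod_eq_zero h2⟩

/-- rank-one lemma for nine points -/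
theorem R1 (g κ : X → ZMod 3) {W : Finset X} (hW : W.card = 9) :
    ∃ S ⊆ W, S.card = 6 ∧ ∑ x ∈ S, κ x + (∑ x ∈ S, g x) ^ 2 = 0 := by
  obtain ⟨l, hnd, hl, -, hc⟩ := search_finset check5 W hW (c2 g κ) (fun x _ => c2_lt g κ x)
  unfold closed5 at hc
  rw [Bool.and_eq_true] at hc
  obtain ⟨S, hS1, hS2, hS3⟩ := exHead_sound 5 l hnd hc.2
  refine ⟨S, fun x hx => hl x (hS1 x hx), hS2, ?_⟩
  unfold test2 at hS3
  rw [Nat.beq_eq] at hS3
  have h1 : ((∑ x ∈ S, w2 (c2 g κ x)) % 64 + (∑ x ∈ S, w2 (c2 g κ x)) / 64 *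
    ((∑ x ∈ S, w2 (c2 g κ x)) / 64)) % 3 = 0 := hS3
  rw [sum_w2] at h1
  have hle := sum_val_le κ S
  have e1 : (64 * ∑ x ∈ S, (g x).val + ∑ x ∈ S, (κ x).val) / 64 = ∑ x ∈ S, (g x).val := by omega
  have e2 : (64 * ∑ x ∈ S, (g x).val + ∑ x ∈ S, (κ x).val) % 64 = ∑ x ∈ S, (κ x).val := by omega
  rw [e1, e2, ← Nat.dvd_iff_mod_eq_zero, ← ZMod.natCast_eq_zero_iff] at h1
  rw [Nat.cast_add, Nat.cast_mul, cast_sum_val, cast_sum_val] at h1
  rw [pow_two]; exact h1

omit [DecidableEq X] in
theorem test3_spec {A B K : ℕ} (hB : B < 64) (hK : K < 64)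
    (h : test3 (4096 * A + 64 * B + K) = true) : (A : ZMod 3) * B = K := by
  unfold test3 at h
  rw [Nat.beq_eq] at h
  change ((4096 * A + 64 * B + K) / 4096 * ((4096 * A + 64 * B + K) / 64 % 64)) % 3 =
    (4096 * A + 64 * B + K) % 64 % 3 at h
  have e1 : (4096 * A + 64 * B + K) / 4096 = A := by omega
  have e2 : (4096 * A + 64 * B + K) / 64 % 64 = B := by omega
  have e3 : (4096 * A + 64 * B + K) % 64 = K := by omega
  rw [e1, e2, e3] at h
  have := (ZMod.natCast_eq_natCast_iff' (A * B) K 3).2 h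
  push_cast at this
  exact this

/-- four out of seven points -/
theorem B4 (α β : X → ZMod 3) {W : Finset X} (hW : W.card = 7) :
    ∃ S ⊆ W, S.card = 4 ∧ (∑ x ∈ S, α x) * (∑ x ∈ S, β x) = ∑ x ∈ S, α x * β x := by
  obtain ⟨l, hnd, hl, -, hc⟩ := search_finset check1 W hW (c2 α β) (fun x _ => c2_lt α β x)
  unfold closed1 at hc
  rw [Bool.and_eq_true] at hc
  obtain ⟨S, hS1, hS2, hS3⟩ := exHead_sound 3 l hnd hc.2
  refine ⟨S, fun x hx => hl x (hS1 x hx), hS2, ?_⟩
  have hs : ∑ x ∈ S, w1 (c2 α β x) = 4096 * ∑ x ∈ S, (α x).val + 64 * ∑ x ∈ S, (β x).val +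
      ∑ x ∈ S, (α x).val * (β x).val := by
    rw [Finset.mul_sum, Finset.mul_sum, ← Finset.sum_add_distrib, ← Finset.sum_add_distrib]
    refine Finset.sum_congr rfl (fun x _ => ?_)
    change 4096 * (c2 α β x / 3) + (64 * (c2 α β x % 3) + (c2 α β x / 3) * (c2 α β x % 3)) = _
    rw [c2_div, c2_mod]; ring
  rw [hs] at hS3
  have hB := sum_val_le β S
  have hK : ∑ x ∈ S, (α x).val * (β x).val ≤ ∑ _x ∈ S, 4 :=
    Finset.sum_le_sum (fun x _ => by
      have h1 := (α x).val_lt
      have h2 := (β x).val_lt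
      calc (α x).val * (β x).val ≤ 2 * 2 := Nat.mul_le_mul (by omega) (by omega)
        _ = 4 := rfl)
  rw [Finset.sum_const, smul_eq_mul] at hK
  have := test3_spec (by omega) (by omega) hS3
  rw [cast_sum_val, cast_sum_val] at this
  rw [this]
  push_cast
  exact Finset.sum_congr rfl (fun x _ => by
    rw [ZMod.natCast_zmod_val, ZMod.natCast_zmod_val])

/-- nine points, five of them at the origin -/
theorem B6_five (α β κ : X → ZMod 3) {W : Finset X} (hW : W.card = 9) (hT : T4Good α β W)
    {Q : Finset X} (hQ : Q ⊆ W) (hQc : Q.card = 5) (h0 : ∀ x ∈ Q, α x = 0 ∧ β x = 0) :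
    ∃ S ⊆ W, S.card = 6 ∧ (∑ x ∈ S, α x) * (∑ x ∈ S, β x) = ∑ x ∈ S, κ x := by
  obtain ⟨l, hnd, hl, hord, hsort, hc⟩ :=
    search_finset' check4 W hW (c3 α β κ) (fun x _ => c3_lt α β κ x)
  have hQcode : ∀ x ∈ Q, c3 α β κ x < 3 := by
    intro x hx
    have h3 := (κ x).val_lt
    simp only [c3, (h0 x hx).1, (h0 x hx).2, ZMod.val_zero]
    omega
  unfold closed4 at hc
  have hvac : vac4 (l.map (c3 α β κ)) = false := by
    match l with
    | [] => rfl
    | x :: l =>
      simp only [List.map_cons, vac4]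
      by_contra hne
      rw [Bool.not_eq_false, Bool.and_eq_true] at hne
      have h1 : 3 ≤ c3 α β κ x := Nat.le_of_ble_eq_true hne.1
      have h2 : ¬ (5 ≤ (l.map (c3 α β κ)).length) := by
        intro h5
        have := (lenGe_iff 5 _).2 h5
        rw [this] at hne
        simp at hne
      rw [List.length_map] at h2
      apply h2
      have hsub : Q ⊆ l.toFinset := by
        intro y hy
        by_cases hyl : y ∈ x :: l
        · rcases List.mem_cons.1 hyl with h | h
          · exfalso
            have := hQcode y hy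
            rw [h] at this
            omega
          · exact List.mem_toFinset.2 h
        · exfalso
          have := hord y (hQ hy) hyl x (by simp)
          have := hQcode y hy
          omega
      calc 5 = Q.card := hQc.symm
        _ ≤ l.toFinset.card := Finset.card_le_card hsub
        _ ≤ l.length := List.toFinset_card_le l
  have hviol : viol4 (l.map (c3 α β κ)) = false := by
    by_contra hne
    rw [Bool.not_eq_false] at hne
    match l, hne with
    | [z1, z2, z3, z4, p1, p2, p3, p4, p5], hne =>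
      simp only [List.map_cons, List.map_nil, viol4, t4tail] at hne
      rw [Bool.not_eq_true'] at hne
      -- all the `p`'s lie in `Q`-like positions: their codes are less than three
      have hcard : [z1, z2, z3, z4, p1, p2, p3, p4, p5].toFinset = W := by
        apply Finset.eq_of_subset_of_card_le
        · intro x hx
          exact hl x (List.mem_toFinset.1 hx)
        · rw [List.toFinset_card_of_nodup hnd, hW]; rfl
      have hp1 : c3 α β κ p1 < 3 := by
        by_contra h3
        rw [not_lt] at h3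
        have hsub : Q ⊆ {p2, p3, p4, p5} := by
          intro y hy
          have hyW := hQ hy
          have hyc := hQcode y hy
          rw [← hcard] at hyW
          simp only [List.map_cons, List.map_nil, List.pairwise_cons, List.mem_cons,
            List.not_mem_nil, or_false, forall_eq_or_imp, forall_eq] at hsort
          simp only [List.mem_toFinset, List.mem_cons, List.not_mem_nil, or_false] at hyW
          simp only [Finset.mem_insert, Finset.mem_singleton]
          rcases hyW with rfl | rfl | rfl | rfl | rfl | h | h | h | h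
          · omega
          · omega
          · omega
          · omega
          · omega
          · exact Or.inl h
          · exact Or.inr (Or.inl h)
          · exact Or.inr (Or.inr (Or.inl h))
          · exact Or.inr (Or.inr (Or.inr h))
        have := Finset.card_le_card hsub
        have := Finset.card_le_four (a := p2) (b := p3) (c := p4) (d := p5)
        omega
      have hpz : ∀ x, c3 α β κ x < 3 → α x = 0 ∧ β x = 0 := by
        intro x hx
        unfold c3 at hx
        constructor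
        · exact (ZMod.val_eq_zero _).1 (by omega)
        · exact (ZMod.val_eq_zero _).1 (by omega)
      simp only [List.map_cons, List.map_nil, List.pairwise_cons, List.mem_cons,
            List.not_mem_nil, or_false, forall_eq_or_imp, forall_eq] at hsort
      have q1 := hpz p1 hp1
      have q2 := hpz p2 (by omega)
      have q3 := hpz p3 (by omega)
      have q4 := hpz p4 (by omega)
      have hperm : [z1, p1, z2, p2, z3, p3, z4, p4, p5].Perm [z1, z2, z3, z4, p1, p2, p3, p4, p5] := by
        refine List.Perm.cons _ ?_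
        refine (List.Perm.trans ?_ (List.perm_middle (l₁ := [z2, z3, z4]) (a := p1)
          (l₂ := [p2, p3, p4, p5])).symm)
        refine List.Perm.cons _ ?_
        refine List.Perm.cons _ ?_
        refine (List.Perm.trans ?_ (List.perm_middle (l₁ := [z3, z4]) (a := p2)
          (l₂ := [p3, p4, p5])).symm)
        refine List.Perm.cons _ ?_
        refine List.Perm.cons _ ?_
        refine (List.Perm.trans ?_ (List.perm_middle (l₁ := [z4]) (a := p3)
          (l₂ := [p4, p5])).symm)
        exact List.Perm.refl _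
      have hnd9 := hperm.nodup_iff.2 hnd
      have hnd8 : [z1, p1, z2, p2, z3, p3, z4, p4].Nodup :=
        (List.nodup_append.1 (show ([z1, p1, z2, p2, z3, p3, z4, p4] ++ [p5]).Nodup from hnd9)).1
      have hT' := hT z1 p1 z2 p2 z3 p3 z4 p4 hnd8 (by
        intro z hz
        apply hl
        apply hperm.mem_iff.1
        exact List.mem_append_left [p5] hz)
      unfold D at hT'
      rw [q1.1, q1.2, q2.1, q2.2, q3.1, q3.2, q4.1, q4.2] at hT'
      have h1 := (t4_spec (c3 α β κ z1 / 9) (c3 α β κ z1 / 3 % 3) (c3 α β κ z2 / 9)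
        (c3 α β κ z2 / 3 % 3) (c3 α β κ z3 / 9) (c3 α β κ z3 / 3 % 3) (c3 α β κ z4 / 9)
        (c3 α β κ z4 / 3 % 3)).2 (by
          rw [c3_div9, c3_div9, c3_div9, c3_div9, c3_div3, c3_div3, c3_div3, c3_div3]
          simp only [ZMod.natCast_zmod_val]
          rw [← hT']; ring)
      have h2 := hne
      change t4 (c3 α β κ z1 / 9) (c3 α β κ z1 / 3 % 3) (c3 α β κ z2 / 9)
        (c3 α β κ z2 / 3 % 3) (c3 α β κ z3 / 9) (c3 α β κ z3 / 3 % 3) (c3 α β κ z4 / 9)
        (c3 α β κ z4 / 3 % 3) = false at h2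
      rw [h1] at h2
      exact Bool.false_ne_true h2.symm
  rw [hvac, hviol] at hc
  simp only [Bool.false_or, Bool.or_false, Bool.and_eq_true] at hc
  obtain ⟨S, hS1, hS2, hS3⟩ := exHead_sound 5 l hnd hc.2
  refine ⟨S, fun x hx => hl x (hS1 x hx), hS2, ?_⟩
  have hs : ∑ x ∈ S, w3 (c3 α β κ x) = 4096 * ∑ x ∈ S, (α x).val + 64 * ∑ x ∈ S, (β x).val +
      ∑ x ∈ S, (κ x).val := by
    rw [Finset.mul_sum, Finset.mul_sum, ← Finset.sum_add_distrib, ← Finset.sum_add_distrib]
    refine Finset.sum_congr rfl (fun x _ => ?_)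
    change 4096 * (c3 α β κ x / 9) + (64 * (c3 α β κ x / 3 % 3) + c3 α β κ x % 3) = _
    rw [c3_div9, c3_div3, c3_mod]; ring
  rw [hs] at hS3
  have hB := sum_val_le β S
  have hK := sum_val_le κ S
  have := test3_spec (by omega) (by omega) hS3
  rw [cast_sum_val, cast_sum_val, cast_sum_val] at this
  exact this

end Pool.Agent.K1H46.ZSR
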