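import Mathlib

/-!
The quartic switching relation and Lemma A.
-/

namespace Pool.Agent.K1H46.ZSR

variable {V X : Type*} [Fintype V] [DecidableEq V] [DecidableEq X]

/-- ordered edge sum of the placement `φ` -/
def T (a : V → V → ZMod 3) (F : X → X → ZMod 3) (φ : V → X) : ZMod 3 :=
  ∑ u, ∑ v, a u v * F (φ u) (φ v)

/-- mixed difference of the colouring -/
def Dl (F : X → X → ZMod 3) (x y u w : X) : ZMod 3 := F x u - F x w - F y u + F y w

/-- all vertices but four -/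
def rest (v1 v2 v3 v4 : V) : Finset V := (((Finset.univ.erase v1).erase v2).erase v3).erase v4

theorem mem_rest {v1 v2 v3 v4 u : V} :
    u ∈ rest v1 v2 v3 v4 ↔ u ≠ v4 ∧ u ≠ v3 ∧ u ≠ v2 ∧ u ≠ v1 := by
  simp [rest, Finset.mem_erase]

theorem sum_split4 {v1 v2 v3 v4 : V} (h : [v1, v2, v3, v4].Nodup) (g : V → ZMod 3) :
    ∑ u, g u = ∑ u ∈ rest v1 v2 v3 v4, g u + (g v1 + g v2 + g v3 + g v4) := by
  simp only [List.nodup_cons, List.mem_cons, List.not_mem_nil, or_false, not_or,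
    not_false_eq_true, List.nodup_nil, and_true] at h
  obtain ⟨⟨h12, h13, h14⟩, ⟨h23, h24⟩, h34⟩ := h
  unfold rest
  rw [← Finset.sum_erase_add _ g (Finset.mem_univ v1),
    ← Finset.sum_erase_add _ g (show v2 ∈ Finset.univ.erase v1 by
      simp [Finset.mem_erase, Ne.symm h12]),
    ← Finset.sum_erase_add _ g (show v3 ∈ (Finset.univ.erase v1).erase v2 by
      simp [Finset.mem_erase, Ne.symm h13, Ne.symm h23]),
    ← Finset.sum_erase_add _ g (show v4 ∈ ((Finset.univ.erase v1).erase v2).erase v3 by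
      simp [Finset.mem_erase, Ne.symm h14, Ne.symm h24, Ne.symm h34])]
  ring

theorem T_formula {a : V → V → ZMod 3} {F : X → X → ZMod 3} (ha : ∀ u v, a u v = a v u)
    (ha0 : ∀ u, a u u = 0) (hF : ∀ x y, F x y = F y x)
    {v1 v2 v3 v4 : V} (h : [v1, v2, v3, v4].Nodup) {φ ψ : V → X}
    (hφ : ∀ u ∈ rest v1 v2 v3 v4, φ u = ψ u) {p1 p2 p3 p4 : X}
    (h1 : φ v1 = p1) (h2 : φ v2 = p2) (h3 : φ v3 = p3) (h4 : φ v4 = p4) :
    T a F φ = (∑ u ∈ rest v1 v2 v3 v4, ∑ v ∈ rest v1 v2 v3 v4, a u v * F (ψ u) (ψ v))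
      + 2 * (∑ u ∈ rest v1 v2 v3 v4, a u v1 * F (ψ u) p1)
      + 2 * (∑ u ∈ rest v1 v2 v3 v4, a u v2 * F (ψ u) p2)
      + 2 * (∑ u ∈ rest v1 v2 v3 v4, a u v3 * F (ψ u) p3)
      + 2 * (∑ u ∈ rest v1 v2 v3 v4, a u v4 * F (ψ u) p4)
      + 2 * (a v1 v2 * F p1 p2 + a v1 v3 * F p1 p3 + a v1 v4 * F p1 p4
        + a v2 v3 * F p2 p3 + a v2 v4 * F p2 p4 + a v3 v4 * F p3 p4) := by
  have hin : ∀ u, ∑ v, a u v * F (φ u) (φ v) =
      ∑ v ∈ rest v1 v2 v3 v4, a u v * F (φ u) (ψ v) +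
        (a u v1 * F (φ u) p1 + a u v2 * F (φ u) p2 + a u v3 * F (φ u) p3
          + a u v4 * F (φ u) p4) := by
    intro u
    rw [sum_split4 h, h1, h2, h3, h4]
    congr 1
    exact Finset.sum_congr rfl (fun v hv => by rw [hφ v hv])
  have hsw : ∀ (w : V) (p : X), ∑ v ∈ rest v1 v2 v3 v4, a w v * F p (ψ v) =
      ∑ u ∈ rest v1 v2 v3 v4, a u w * F (ψ u) p := by
    intro w p
    exact Finset.sum_congr rfl (fun v _ => by rw [ha w v, hF p (ψ v)])
  have hrest : ∑ u ∈ rest v1 v2 v3 v4, ∑ v, a u v * F (φ u) (φ v) =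
      (∑ u ∈ rest v1 v2 v3 v4, ∑ v ∈ rest v1 v2 v3 v4, a u v * F (ψ u) (ψ v))
      + (∑ u ∈ rest v1 v2 v3 v4, a u v1 * F (ψ u) p1)
      + (∑ u ∈ rest v1 v2 v3 v4, a u v2 * F (ψ u) p2)
      + (∑ u ∈ rest v1 v2 v3 v4, a u v3 * F (ψ u) p3)
      + (∑ u ∈ rest v1 v2 v3 v4, a u v4 * F (ψ u) p4) := by
    rw [← Finset.sum_add_distrib, ← Finset.sum_add_distrib, ← Finset.sum_add_distrib,
      ← Finset.sum_add_distrib]
    refine Finset.sum_congr rfl (fun u hu => ?_)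
    rw [hin u, hφ u hu]; ring
  unfold T
  rw [sum_split4 h, hrest, hin v1, hin v2, hin v3, hin v4, h1, h2, h3, h4, hsw, hsw, hsw, hsw,
    ha0 v1, ha0 v2, ha0 v3, ha0 v4, ha v2 v1, ha v3 v1, ha v4 v1, ha v3 v2, ha v4 v2, ha v4 v3,
    hF p2 p1, hF p3 p1, hF p4 p1, hF p3 p2, hF p4 p2, hF p4 p3]
  ring

theorem sq_eq_one {t : ZMod 3} (h : t ≠ 0) : t ^ 2 = 1 := by
  revert t; decide

/-- alternating sum of the squares of a quadratic polynomial on the 4-cube -/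
theorem alt_poly (c l1 l2 l3 l4 q12 q13 q14 q23 q24 q34 : ZMod 3)
    (h0000 : c ≠ 0)
    (h1000 : c + l1 ≠ 0) (h0100 : c + l2 ≠ 0) (h0010 : c + l3 ≠ 0) (h0001 : c + l4 ≠ 0)
    (h1100 : c + l1 + l2 + q12 ≠ 0) (h1010 : c + l1 + l3 + q13 ≠ 0)
    (h1001 : c + l1 + l4 + q14 ≠ 0) (h0110 : c + l2 + l3 + q23 ≠ 0)
    (h0101 : c + l2 + l4 + q24 ≠ 0) (h0011 : c + l3 + l4 + q34 ≠ 0)
    (h1110 : c + l1 + l2 + l3 + q12 + q13 + q23 ≠ 0)
    (h1101 : c + l1 + l2 + l4 + q12 + q14 + q24 ≠ 0)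
    (h1011 : c + l1 + l3 + l4 + q13 + q14 + q34 ≠ 0)
    (h0111 : c + l2 + l3 + l4 + q23 + q24 + q34 ≠ 0)
    (h1111 : c + l1 + l2 + l3 + l4 + q12 + q13 + q14 + q23 + q24 + q34 ≠ 0) :
    q12 * q34 + q13 * q24 + q14 * q23 = 0 := by
  have h3 : (3 : ZMod 3) = 0 := by decide
  have e0000 := sq_eq_one h0000
  have e1000 := sq_eq_one h1000
  have e0100 := sq_eq_one h0100
  have e0010 := sq_eq_one h0010
  have e0001 := sq_eq_one h0001
  have e1100 := sq_eq_one h1100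
  have e1010 := sq_eq_one h1010
  have e1001 := sq_eq_one h1001
  have e0110 := sq_eq_one h0110
  have e0101 := sq_eq_one h0101
  have e0011 := sq_eq_one h0011
  have e1110 := sq_eq_one h1110
  have e1101 := sq_eq_one h1101
  have e1011 := sq_eq_one h1011
  have e0111 := sq_eq_one h0111
  have e1111 := sq_eq_one h1111
  linear_combination 2 * (e0000 - e1000 - e0100 - e0010 - e0001 + e1100 + e1010 + e1001 + e0110
    + e0101 + e0011 - e1110 - e1101 - e1011 - e0111 + e1111)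
    - (q12 * q34 + q13 * q24 + q14 * q23) * h3

omit [Fintype V] [DecidableEq V] [DecidableEq X] in
theorem exists_inj (U : Finset V) (W : Finset X) (h : U.card ≤ W.card) [Nonempty X] :
    ∃ ψ : V → X, (∀ u ∈ U, ψ u ∈ W) ∧ Set.InjOn ψ U := by
  obtain ⟨f, hf1, hf2⟩ := (U.finite_toSet).exists_injOn_of_encard_le (t := (W : Set X))
    (by rw [Set.encard_coe_eq_coe_finsetCard, Set.encard_coe_eq_coe_finsetCard]; exact_mod_cast h)
  exact ⟨f, fun u hu => hf1 hu, hf2⟩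

/-- placement of four vertices -/
def place (v1 v2 v3 v4 : V) (ψ : V → X) (p1 p2 p3 p4 : X) (u : V) : X :=
  if u = v1 then p1 else if u = v2 then p2 else if u = v3 then p3 else if u = v4 then p4 else ψ u

omit [DecidableEq X] in
theorem place_injective {v1 v2 v3 v4 : V} {ψ : V → X}
    (hψ : Set.InjOn ψ (rest v1 v2 v3 v4)) {p1 p2 p3 p4 : X} (hp : [p1, p2, p3, p4].Nodup)
    (hne : ∀ u ∈ rest v1 v2 v3 v4, ψ u ≠ p1 ∧ ψ u ≠ p2 ∧ ψ u ≠ p3 ∧ ψ u ≠ p4) :
    Function.Injective (place v1 v2 v3 v4 ψ p1 p2 p3 p4) := by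
  simp only [List.nodup_cons, List.mem_cons, List.not_mem_nil, or_false, not_or,
    not_false_eq_true, List.nodup_nil, and_true] at hp
  obtain ⟨⟨h12, h13, h14⟩, ⟨h23, h24⟩, h34⟩ := hp
  intro u w huw
  unfold place at huw
  by_cases hu : u ∈ rest v1 v2 v3 v4
  · have hu' := mem_rest.1 hu
    have hn := hne u hu
    rw [if_neg hu'.2.2.2, if_neg hu'.2.2.1, if_neg hu'.2.1, if_neg hu'.1] at huw
    by_cases hw : w ∈ rest v1 v2 v3 v4
    · have hw' := mem_rest.1 hw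
      rw [if_neg hw'.2.2.2, if_neg hw'.2.2.1, if_neg hw'.2.1, if_neg hw'.1] at huw
      exact hψ hu hw huw
    · exfalso
      split_ifs at huw with e1 e2 e3 e4
      · exact hn.1 huw
      · exact hn.2.1 huw
      · exact hn.2.2.1 huw
      · exact hn.2.2.2 huw
      · exact hw (mem_rest.2 ⟨e4, e3, e2, e1⟩)
  · by_cases hw : w ∈ rest v1 v2 v3 v4
    · exfalso
      have hw' := mem_rest.1 hw
      have hn := hne w hw
      rw [if_neg hw'.2.2.2, if_neg hw'.2.2.1, if_neg hw'.2.1, if_neg hw'.1] at huw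
      split_ifs at huw with e1 e2 e3 e4
      · exact hn.1 huw.symm
      · exact hn.2.1 huw.symm
      · exact hn.2.2.1 huw.symm
      · exact hn.2.2.2 huw.symm
      · exact hu (mem_rest.2 ⟨e4, e3, e2, e1⟩)
    · rw [mem_rest] at hu hw
      split_ifs at huw with e1 e2 e3 e4 e5 e6 e7 e8 <;> first
        | (subst_vars; rfl)
        | (exfalso; tauto)

omit [DecidableEq X] in
theorem sub_pick {p x y : X} {L1 L2 : List X} (h : p = x ∨ p = y) (hs : L1.Sublist L2) :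
    (p :: L1).Sublist (x :: y :: L2) := by
  rcases h with rfl | rfl
  · exact (hs.cons _).cons_cons _
  · exact (hs.cons_cons _).cons _

variable [Fintype X]

/-- The switching relation. -/
theorem relation {a : V → V → ZMod 3} {F : X → X → ZMod 3} (ha : ∀ u v, a u v = a v u)
    (ha0 : ∀ u, a u u = 0) (hF : ∀ x y, F x y = F y x)
    (hno : ∀ φ : V → X, Function.Injective φ → T a F φ ≠ 0)
    (hcard : Fintype.card V + 4 ≤ Fintype.card X)
    {v1 v2 v3 v4 : V} (h : [v1, v2, v3, v4].Nodup) {x1 y1 x2 y2 x3 y3 x4 y4 : X}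
    (hx : [x1, y1, x2, y2, x3, y3, x4, y4].Nodup) :
    a v1 v2 * a v3 v4 * (Dl F x1 y1 x2 y2 * Dl F x3 y3 x4 y4)
      + a v1 v3 * a v2 v4 * (Dl F x1 y1 x3 y3 * Dl F x2 y2 x4 y4)
      + a v1 v4 * a v2 v3 * (Dl F x1 y1 x4 y4 * Dl F x2 y2 x3 y3) = 0 := by
  have : Nonempty X := ⟨x1⟩
  have hrc : (rest v1 v2 v3 v4).card + 4 = Fintype.card V := by
    have h1 := h
    simp only [List.nodup_cons, List.mem_cons, List.not_mem_nil, or_false, not_or,
      not_false_eq_true, List.nodup_nil, and_true] at h1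
    obtain ⟨⟨h12, h13, h14⟩, ⟨h23, h24⟩, h34⟩ := h1
    unfold rest
    have e1 := Finset.card_erase_add_one (Finset.mem_univ v1)
    have e2 := Finset.card_erase_add_one (show v2 ∈ Finset.univ.erase v1 by
      simp [Finset.mem_erase, Ne.symm h12])
    have e3 := Finset.card_erase_add_one (show v3 ∈ (Finset.univ.erase v1).erase v2 by
      simp [Finset.mem_erase, Ne.symm h13, Ne.symm h23])
    have e4 := Finset.card_erase_add_one (show v4 ∈ ((Finset.univ.erase v1).erase v2).erase v3 by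
      simp [Finset.mem_erase, Ne.symm h14, Ne.symm h24, Ne.symm h34])
    rw [Finset.card_univ] at e1
    omega
  obtain ⟨ψ, hψ1, hψ2⟩ := exists_inj (rest v1 v2 v3 v4)
    (Finset.univ \ [x1, y1, x2, y2, x3, y3, x4, y4].toFinset) (by
      rw [Finset.card_sdiff_of_subset (Finset.subset_univ _), List.toFinset_card_of_nodup hx,
        Finset.card_univ]
      simp only [List.length_cons, List.length_nil]
      omega)
  have hψ3 : ∀ u ∈ rest v1 v2 v3 v4, ∀ z ∈ [x1, y1, x2, y2, x3, y3, x4, y4], ψ u ≠ z := by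
    intro u hu z hz hne
    have := hψ1 u hu
    rw [Finset.mem_sdiff, List.mem_toFinset, hne] at this
    exact this.2 hz
  obtain ⟨c0, L1, L2, L3, L4, hE⟩ : ∃ c0 : ZMod 3, ∃ L1 L2 L3 L4 : X → ZMod 3,
      ∀ p1 p2 p3 p4, [p1, p2, p3, p4].Nodup →
      (∀ z ∈ [p1, p2, p3, p4], z ∈ [x1, y1, x2, y2, x3, y3, x4, y4]) →
      c0 + 2 * L1 p1 + 2 * L2 p2 + 2 * L3 p3 + 2 * L4 p4
      + 2 * (a v1 v2 * F p1 p2 + a v1 v3 * F p1 p3 + a v1 v4 * F p1 p4
        + a v2 v3 * F p2 p3 + a v2 v4 * F p2 p4 + a v3 v4 * F p3 p4) ≠ 0 := by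
    refine ⟨∑ u ∈ rest v1 v2 v3 v4, ∑ v ∈ rest v1 v2 v3 v4, a u v * F (ψ u) (ψ v),
      fun p => ∑ u ∈ rest v1 v2 v3 v4, a u v1 * F (ψ u) p,
      fun p => ∑ u ∈ rest v1 v2 v3 v4, a u v2 * F (ψ u) p,
      fun p => ∑ u ∈ rest v1 v2 v3 v4, a u v3 * F (ψ u) p,
      fun p => ∑ u ∈ rest v1 v2 v3 v4, a u v4 * F (ψ u) p, fun p1 p2 p3 p4 hp hz => ?_⟩
    have hinj := place_injective hψ2 hp (fun u hu =>
      ⟨hψ3 u hu p1 (hz p1 (by simp)), hψ3 u hu p2 (hz p2 (by simp)),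
        hψ3 u hu p3 (hz p3 (by simp)), hψ3 u hu p4 (hz p4 (by simp))⟩)
    have h0 := hno _ hinj
    have h1 := h
    simp only [List.nodup_cons, List.mem_cons, List.not_mem_nil, or_false, not_or,
      not_false_eq_true, List.nodup_nil, and_true] at h1
    obtain ⟨⟨h12, h13, h14⟩, ⟨h23, h24⟩, h34⟩ := h1
    rw [T_formula ha ha0 hF h (ψ := ψ) (p1 := p1) (p2 := p2) (p3 := p3) (p4 := p4)
      (by
        intro u hu
        have hu' := mem_rest.1 hu
        unfold place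
        rw [if_neg hu'.2.2.2, if_neg hu'.2.2.1, if_neg hu'.2.1, if_neg hu'.1])
      (by unfold place; rw [if_pos rfl])
      (by unfold place; rw [if_neg (Ne.symm h12), if_pos rfl])
      (by unfold place; rw [if_neg (Ne.symm h13), if_neg (Ne.symm h23), if_pos rfl])
      (by unfold place; rw [if_neg (Ne.symm h14), if_neg (Ne.symm h24), if_neg (Ne.symm h34),
            if_pos rfl])] at h0
    exact h0
  clear hψ3 hψ1 hψ2 hrc
  have hE' : ∀ p1 p2 p3 p4, (p1 = x1 ∨ p1 = y1) → (p2 = x2 ∨ p2 = y2) → (p3 = x3 ∨ p3 = y3) →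
      (p4 = x4 ∨ p4 = y4) → 
      c0 + 2 * L1 p1 + 2 * L2 p2 + 2 * L3 p3 + 2 * L4 p4
      + 2 * (a v1 v2 * F p1 p2 + a v1 v3 * F p1 p3 + a v1 v4 * F p1 p4
        + a v2 v3 * F p2 p3 + a v2 v4 * F p2 p4 + a v3 v4 * F p3 p4) ≠ 0 := by
    intro p1 p2 p3 p4 h1 h2 h3 h4
    have hsub : [p1, p2, p3, p4].Sublist [x1, y1, x2, y2, x3, y3, x4, y4] :=
      sub_pick h1 (sub_pick h2 (sub_pick h3 (sub_pick h4 (List.Sublist.refl _))))
    exact hE p1 p2 p3 p4 (hx.sublist hsub) (fun z hz => hsub.subset hz)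
  have hpoly := alt_poly
    (c0 + 2 * L1 x1 + 2 * L2 x2 + 2 * L3 x3 + 2 * L4 x4
      + 2 * (a v1 v2 * F x1 x2 + a v1 v3 * F x1 x3 + a v1 v4 * F x1 x4
        + a v2 v3 * F x2 x3 + a v2 v4 * F x2 x4 + a v3 v4 * F x3 x4))
    (2 * (L1 y1 - L1 x1 + a v1 v2 * (F y1 x2 - F x1 x2) + a v1 v3 * (F y1 x3 - F x1 x3)
      + a v1 v4 * (F y1 x4 - F x1 x4)))
    (2 * (L2 y2 - L2 x2 + a v1 v2 * (F x1 y2 - F x1 x2) + a v2 v3 * (F y2 x3 - F x2 x3)
      + a v2 v4 * (F y2 x4 - F x2 x4)))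
    (2 * (L3 y3 - L3 x3 + a v1 v3 * (F x1 y3 - F x1 x3) + a v2 v3 * (F x2 y3 - F x2 x3)
      + a v3 v4 * (F y3 x4 - F x3 x4)))
    (2 * (L4 y4 - L4 x4 + a v1 v4 * (F x1 y4 - F x1 x4) + a v2 v4 * (F x2 y4 - F x2 x4)
      + a v3 v4 * (F x3 y4 - F x3 x4)))
    (2 * a v1 v2 * Dl F x1 y1 x2 y2) (2 * a v1 v3 * Dl F x1 y1 x3 y3)
    (2 * a v1 v4 * Dl F x1 y1 x4 y4) (2 * a v2 v3 * Dl F x2 y2 x3 y3)
    (2 * a v2 v4 * Dl F x2 y2 x4 y4) (2 * a v3 v4 * Dl F x3 y3 x4 y4)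
    (by intro h0; apply hE' x1 x2 x3 x4 (by simp) (by simp) (by simp) (by simp); rw [← h0])
    (by intro h0; apply hE' y1 x2 x3 x4 (by simp) (by simp) (by simp) (by simp); rw [← h0]; ring)
    (by intro h0; apply hE' x1 y2 x3 x4 (by simp) (by simp) (by simp) (by simp); rw [← h0]; ring)
    (by intro h0; apply hE' x1 x2 y3 x4 (by simp) (by simp) (by simp) (by simp); rw [← h0]; ring)
    (by intro h0; apply hE' x1 x2 x3 y4 (by simp) (by simp) (by simp) (by simp); rw [← h0]; ring)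
    (by intro h0; apply hE' y1 y2 x3 x4 (by simp) (by simp) (by simp) (by simp)
        rw [← h0]; unfold Dl; ring)
    (by intro h0; apply hE' y1 x2 y3 x4 (by simp) (by simp) (by simp) (by simp)
        rw [← h0]; unfold Dl; ring)
    (by intro h0; apply hE' y1 x2 x3 y4 (by simp) (by simp) (by simp) (by simp)
        rw [← h0]; unfold Dl; ring)
    (by intro h0; apply hE' x1 y2 y3 x4 (by simp) (by simp) (by simp) (by simp)
        rw [← h0]; unfold Dl; ring)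
    (by intro h0; apply hE' x1 y2 x3 y4 (by simp) (by simp) (by simp) (by simp)
        rw [← h0]; unfold Dl; ring)
    (by intro h0; apply hE' x1 x2 y3 y4 (by simp) (by simp) (by simp) (by simp)
        rw [← h0]; unfold Dl; ring)
    (by intro h0; apply hE' y1 y2 y3 x4 (by simp) (by simp) (by simp) (by simp)
        rw [← h0]; unfold Dl; ring)
    (by intro h0; apply hE' y1 y2 x3 y4 (by simp) (by simp) (by simp) (by simp)
        rw [← h0]; unfold Dl; ring)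
    (by intro h0; apply hE' y1 x2 y3 y4 (by simp) (by simp) (by simp) (by simp)
        rw [← h0]; unfold Dl; ring)
    (by intro h0; apply hE' x1 y2 y3 y4 (by simp) (by simp) (by simp) (by simp)
        rw [← h0]; unfold Dl; ring)
    (by intro h0; apply hE' y1 y2 y3 y4 (by simp) (by simp) (by simp) (by simp)
        rw [← h0]; unfold Dl; ring)
  have h3 : (3 : ZMod 3) = 0 := by decide
  linear_combination hpoly - (a v1 v2 * a v3 v4 * (Dl F x1 y1 x2 y2 * Dl F x3 y3 x4 y4)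
      + a v1 v3 * a v2 v4 * (Dl F x1 y1 x3 y3 * Dl F x2 y2 x4 y4)
      + a v1 v4 * a v2 v3 * (Dl F x1 y1 x4 y4 * Dl F x2 y2 x3 y3)) * h3

end Pool.Agent.K1H46.ZSR
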