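import Mathlib

/-!
Sorted depth-first search over short lists of small natural numbers, evaluated by the kernel,
with its soundness theorem.
-/

namespace Pool.Agent.K1H46.ZSR

/-- all `x` in `[lo, lo + c)` satisfy `f` -/
def allFrom (f : ℕ → Bool) : ℕ → ℕ → Bool
  | 0, _ => true
  | c + 1, x => f x && allFrom f c (Nat.succ x)

/-- depth-first search through the lists obtained by putting `n` further entries, each at least
the previous one and less than `r`, in front of `l`; true if all of them get `closed` -/
def search (closed : List ℕ → Bool) (r : ℕ) : ℕ → ℕ → List ℕ → Bool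
  | 0, _, l => closed l
  | n + 1, lo, l => closed l || allFrom (fun x => search closed r n x (x :: l)) (Nat.sub r lo) lo

/-- some sublist of length `k` of `l` has `test (acc + its sum of weights)` -/
def exSub (test : ℕ → Bool) (w : ℕ → ℕ) : ℕ → ℕ → List ℕ → Bool
  | 0, acc, _ => test acc
  | _ + 1, _, [] => false
  | k + 1, acc, x :: l => exSub test w k (Nat.add acc (w x)) l || exSub test w (k + 1) acc l

/-- the same with the head of the list forced -/
def exHead (test : ℕ → Bool) (w : ℕ → ℕ) (k : ℕ) : List ℕ → Bool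
  | [] => false
  | x :: l => exSub test w k (w x) l

/-- list length at least `k` -/
def lenGe : ℕ → List ℕ → Bool
  | 0, _ => true
  | _ + 1, [] => false
  | k + 1, _ :: l => lenGe k l

/-- at least `k` entries with property `p` -/
def countGe (p : ℕ → Bool) : ℕ → List ℕ → Bool
  | 0, _ => true
  | _ + 1, [] => false
  | k + 1, x :: l => bif p x then countGe p k l else countGe p (k + 1) l

/-- some entry `y` of the second list has `f y (rest)` -/
def anyPick (f : ℕ → List ℕ → Bool) : List ℕ → List ℕ → Bool
  | _, [] => false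
  | pre, y :: ys => f y (List.append pre ys) || anyPick f (y :: pre) ys

theorem allFrom_spec {f : ℕ → Bool} :
    ∀ {c x : ℕ}, allFrom f c x = true → ∀ y, x ≤ y → y < x + c → f y = true
  | 0, x, _, y, h1, h2 => by omega
  | c + 1, x, h, y, h1, h2 => by
    simp only [allFrom, Bool.and_eq_true] at h
    rcases Nat.eq_or_lt_of_le h1 with h3 | h3
    · rw [← h3]; exact h.1
    · exact allFrom_spec h.2 y h3 (by omega)

theorem search_sound {closed : List ℕ → Bool} {r : ℕ} :
    ∀ (n lo : ℕ) (l : List ℕ), search closed r n lo l = true →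
    ∀ M : List ℕ, M.length = n → M.Pairwise (· ≥ ·) → (∀ x ∈ M, lo ≤ x) → (∀ x ∈ M, x < r) →
    ∃ M', M' <:+ M ∧ closed (M' ++ l) = true
  | 0, lo, l, h, M, hM, _, _, _ => by
    refine ⟨[], List.nil_suffix, ?_⟩
    simpa [search] using h
  | n + 1, lo, l, h, M, hM, hp, hlo, hr => by
    simp only [search, Bool.or_eq_true] at h
    rcases h with h | h
    · exact ⟨[], List.nil_suffix, by simpa using h⟩
    · rcases List.eq_nil_or_concat M with hnil | ⟨M1, x, rfl⟩
      · subst hnil; simp at hM
      · have hx1 : lo ≤ x := hlo x (by simp)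
        have hx2 : x < r := hr x (by simp)
        have hlen : M1.length = n := by simpa using hM
        have h1 := allFrom_spec h x hx1 (by show x < lo + (r - lo); omega)
        rw [List.concat_eq_append] at hp hlo hr ⊢
        rw [List.pairwise_append] at hp
        obtain ⟨M2, hM2, hc⟩ := search_sound n x (x :: l) h1 M1 hlen hp.1
          (fun y hy => hp.2.2 y hy x (by simp)) (fun y hy => hr y (by simp [hy]))
        refine ⟨M2 ++ [x], ?_, by simpa using hc⟩
        obtain ⟨t, rfl⟩ := hM2
        exact ⟨t, by simp⟩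

variable {X : Type*} [DecidableEq X]

theorem exists_sorted_list (W : Finset X) (code : X → ℕ) :
    ∃ l : List X, l.Nodup ∧ (∀ x, x ∈ l ↔ x ∈ W) ∧ l.length = W.card ∧
      (l.map code).Pairwise (· ≥ ·) := by
  let r : X → X → Prop := fun x y => code x ≥ code y
  have : DecidableRel r := fun x y => inferInstanceAs (Decidable (code x ≥ code y))
  have : Std.Total r := ⟨fun x y => (le_total (code y) (code x))⟩
  have : IsTrans X r := ⟨fun x y z h1 h2 => le_trans h2 h1⟩
  refine ⟨W.toList.insertionSort r, ?_, ?_, ?_, ?_⟩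
  · exact (List.perm_insertionSort r W.toList).nodup_iff.2 W.nodup_toList
  · intro x
    rw [(List.perm_insertionSort r W.toList).mem_iff, Finset.mem_toList]
  · rw [(List.perm_insertionSort r W.toList).length_eq, Finset.length_toList]
  · rw [List.pairwise_map]
    exact List.pairwise_insertionSort r W.toList

/-- Soundness of the search for finite sets of coded objects. -/
theorem search_finset' {closed : List ℕ → Bool} {r n : ℕ} (h : search closed r n 0 [] = true)
    (W : Finset X) (hW : W.card = n) (code : X → ℕ) (hr : ∀ x ∈ W, code x < r) :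
    ∃ l : List X, l.Nodup ∧ (∀ x ∈ l, x ∈ W) ∧
      (∀ y ∈ W, y ∉ l → ∀ x ∈ l, code x ≤ code y) ∧ (l.map code).Pairwise (· ≥ ·) ∧
      closed (l.map code) = true := by
  obtain ⟨L, hnd, hmem, hlen, hpw⟩ := exists_sorted_list W code
  obtain ⟨M, ⟨t, hM⟩, hc⟩ := search_sound n 0 [] h (L.map code) (by simp [hlen, hW]) hpw
    (by simp) (by
      intro x hx
      obtain ⟨y, hy, rfl⟩ := List.mem_map.1 hx
      exact hr y ((hmem y).1 hy))
  rw [List.append_nil] at hc
  obtain ⟨l1, l2, hL, h1, h2⟩ := List.append_eq_map_iff.1 hM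
  subst hL
  rw [List.map_append, List.pairwise_append] at hpw
  refine ⟨l2, ?_, ?_, ?_, ?_, ?_⟩
  · exact (List.nodup_append.1 hnd).2.1
  · intro x hx; exact (hmem x).1 (by simp [hx])
  · intro y hy hyl x hx
    have hy' := (hmem y).2 hy
    rw [List.mem_append] at hy'
    have hy1 : y ∈ l1 := hy'.resolve_right hyl
    exact hpw.2.2 (code y) (List.mem_map_of_mem hy1) (code x) (List.mem_map_of_mem hx)
  · exact hpw.2.1
  · rw [h2]; exact hc

/-- Soundness of the search for finite sets of coded objects. -/
theorem search_finset {closed : List ℕ → Bool} {r n : ℕ} (h : search closed r n 0 [] = true)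
    (W : Finset X) (hW : W.card = n) (code : X → ℕ) (hr : ∀ x ∈ W, code x < r) :
    ∃ l : List X, l.Nodup ∧ (∀ x ∈ l, x ∈ W) ∧
      (∀ y ∈ W, y ∉ l → ∀ x ∈ l, code x ≤ code y) ∧ closed (l.map code) = true := by
  obtain ⟨l, h1, h2, h3, -, h5⟩ := search_finset' h W hW code hr
  exact ⟨l, h1, h2, h3, h5⟩

theorem exSub_sound {test : ℕ → Bool} {w : ℕ → ℕ} {code : X → ℕ} :
    ∀ (k acc : ℕ) (l : List X), l.Nodup → exSub test w k acc (l.map code) = true →
    ∃ S : Finset X, (∀ x ∈ S, x ∈ l) ∧ S.card = k ∧
      test (acc + ∑ x ∈ S, w (code x)) = true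
  | 0, acc, l, _, h => by
    refine ⟨∅, by simp, by simp, ?_⟩
    simpa [exSub] using h
  | k + 1, acc, [], _, h => by simp [exSub] at h
  | k + 1, acc, x :: l, hnd, h => by
    rw [List.nodup_cons] at hnd
    simp only [List.map_cons, exSub, Bool.or_eq_true] at h
    rcases h with h | h
    · obtain ⟨S, hS1, hS2, hS3⟩ := exSub_sound k _ l hnd.2 h
      have hxS : x ∉ S := fun hx => hnd.1 (hS1 x hx)
      refine ⟨insert x S, ?_, ?_, ?_⟩
      · intro y hy
        rcases Finset.mem_insert.1 hy with rfl | hy
        · simp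
        · exact List.mem_cons_of_mem _ (hS1 y hy)
      · rw [Finset.card_insert_of_notMem hxS, hS2]
      · rw [Finset.sum_insert hxS, ← add_assoc]
        exact hS3
    · obtain ⟨S, hS1, hS2, hS3⟩ := exSub_sound (k + 1) acc l hnd.2 h
      exact ⟨S, fun y hy => List.mem_cons_of_mem _ (hS1 y hy), hS2, hS3⟩

theorem exHead_sound {test : ℕ → Bool} {w : ℕ → ℕ} {code : X → ℕ} (k : ℕ) (l : List X)
    (hnd : l.Nodup) (h : exHead test w k (l.map code) = true) :
    ∃ S : Finset X, (∀ x ∈ S, x ∈ l) ∧ S.card = k + 1 ∧
      test (∑ x ∈ S, w (code x)) = true := by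
  cases l with
  | nil => simp [exHead] at h
  | cons x l =>
    rw [List.nodup_cons] at hnd
    simp only [List.map_cons, exHead] at h
    obtain ⟨S, hS1, hS2, hS3⟩ := exSub_sound k _ l hnd.2 h
    have hxS : x ∉ S := fun hx => hnd.1 (hS1 x hx)
    refine ⟨insert x S, ?_, ?_, ?_⟩
    · intro y hy
      rcases Finset.mem_insert.1 hy with rfl | hy
      · simp
      · exact List.mem_cons_of_mem _ (hS1 y hy)
    · rw [Finset.card_insert_of_notMem hxS, hS2]
    · rw [Finset.sum_insert hxS]
      exact hS3

theorem countGe_sound {p : ℕ → Bool} {code : X → ℕ} :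
    ∀ (k : ℕ) (l : List X), l.Nodup → countGe p k (l.map code) = true →
    ∃ S : Finset X, (∀ x ∈ S, x ∈ l) ∧ S.card = k ∧ ∀ x ∈ S, p (code x) = true
  | 0, l, _, _ => ⟨∅, by simp, by simp, by simp⟩
  | k + 1, [], _, h => by simp [countGe] at h
  | k + 1, x :: l, hnd, h => by
    rw [List.nodup_cons] at hnd
    simp only [List.map_cons, countGe] at h
    cases hp : p (code x) with
    | true =>
      rw [hp, cond_true] at h
      obtain ⟨S, hS1, hS2, hS3⟩ := countGe_sound k l hnd.2 h
      have hxS : x ∉ S := fun hx => hnd.1 (hS1 x hx)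
      refine ⟨insert x S, ?_, ?_, ?_⟩
      · intro y hy
        rcases Finset.mem_insert.1 hy with rfl | hy
        · simp
        · exact List.mem_cons_of_mem _ (hS1 y hy)
      · rw [Finset.card_insert_of_notMem hxS, hS2]
      · intro y hy
        rcases Finset.mem_insert.1 hy with rfl | hy
        · exact hp
        · exact hS3 y hy
    | false =>
      rw [hp, cond_false] at h
      obtain ⟨S, hS1, hS2, hS3⟩ := countGe_sound (k + 1) l hnd.2 h
      exact ⟨S, fun y hy => List.mem_cons_of_mem _ (hS1 y hy), hS2, hS3⟩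

omit [DecidableEq X] in
theorem lenGe_iff : ∀ (k : ℕ) (l : List ℕ), lenGe k l = true ↔ k ≤ l.length
  | 0, l => by simp [lenGe]
  | k + 1, [] => by simp [lenGe]
  | k + 1, x :: l => by simp [lenGe, lenGe_iff k l]

omit [DecidableEq X] in
theorem anyPick_sound {f : ℕ → List ℕ → Bool} {code : X → ℕ} :
    ∀ (l p : List X), anyPick f (p.map code) (l.map code) = true →
    ∃ (y : X) (r : List X), (y :: r).Perm (p ++ l) ∧ f (code y) (r.map code) = true
  | [], p, h => by simp [anyPick] at h
  | y :: ys, p, h => by
    simp only [List.map_cons, anyPick, Bool.or_eq_true] at h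
    rcases h with h | h
    · refine ⟨y, p ++ ys, List.perm_middle.symm, ?_⟩
      rw [List.map_append]; exact h
    · obtain ⟨z, r, h1, h2⟩ := anyPick_sound ys (y :: p) (by simpa using h)
      exact ⟨z, r, h1.trans List.perm_middle.symm, h2⟩

end Pool.Agent.K1H46.ZSR
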