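import Mathlib

/-!
Zero-sum triangles: every colouring of the edges of a complete graph on eleven vertices by the
integers modulo three has a zero-sum triangle, and ten vertices are not enough.
-/

namespace Pool.Agent.K1H46.ZSR

theorem z1 : ∀ c : ZMod 3, c + c + c = 0 := by decide
theorem z2 : ∀ c e t : ZMod 3, e ≠ c → e + e + t ≠ 0 → t ≠ c → t = -c - e := by decide
theorem z3 : ∀ c : ZMod 3, c + 2 ≠ c := by decide
theorem z4 : ∀ c : ZMod 3, c + 1 ≠ c := by decide
theorem z5 : ∀ c t : ZMod 3, t ≠ c → ¬ t = c + 1 → t = c + 2 := by decide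
theorem z6 : ∀ a t : ZMod 3, a + a + t ≠ 0 → t ≠ a := by decide
theorem z7 : ∀ t : ZMod 3, t ≠ 0 → t ≠ 1 → t = 2 := by decide
theorem z8 : ∀ t : ZMod 3, t ≠ 0 → t ≠ 2 → t = 1 := by decide
/-- possible colours seen from a vertex joined to the centre by colour `c` -/
theorem z9 : ∀ c t : ZMod 3, c ≠ 0 → 0 + c + t ≠ 0 → t = 0 ∨ t = c := by decide
theorem z10 : ∀ c s t e : ZMod 3, s = 0 → t = c → c ≠ 0 → e ≠ 0 → s + t + e ≠ 0 → e = c := by decide
theorem z11 : ∀ c e : ZMod 3, c ≠ 0 → e ≠ 0 → c + c + e ≠ 0 → e = -c := by decide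

section upper

variable {X : Type*} [DecidableEq X]

/-- no zero-sum triangle -/
def NoTri (F : X → X → ZMod 3) : Prop :=
  ∀ x y z, x ≠ y → x ≠ z → y ≠ z → F x y + F x z + F y z ≠ 0

omit [DecidableEq X] in
/-- a set all of whose edges have the same colour has at most two elements -/
theorem card_le_two_of_mono {F : X → X → ZMod 3} (hno : NoTri F) (S : Finset X) (c : ZMod 3)
    (h : ∀ x ∈ S, ∀ y ∈ S, x ≠ y → F x y = c) : S.card ≤ 2 := by
  by_contra hS
  obtain ⟨x, y, z, hx, hy, hz, hxy, hxz, hyz⟩ := Finset.two_lt_card_iff.1 (not_le.1 hS)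
  apply hno x y z hxy hxz hyz
  rw [h x hx y hy hxy, h x hx z hz hxz, h y hy z hz hyz]
  exact z1 c

/-- a set avoiding one colour has at most five elements -/
theorem card_le_five {F : X → X → ZMod 3} (hno : NoTri F)
    (S : Finset X) (c : ZMod 3)
    (h : ∀ x ∈ S, ∀ y ∈ S, x ≠ y → F x y ≠ c) : S.card ≤ 5 := by
  by_contra hS
  rw [not_le] at hS
  obtain ⟨x, hx⟩ : S.Nonempty := Finset.card_pos.1 (by omega)
  have hsplit : (S.erase x).card = ((S.erase x).filter (fun y => F x y = c + 1)).card +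
      ((S.erase x).filter (fun y => ¬ F x y = c + 1)).card :=
    (Finset.card_filter_add_card_filter_not _).symm
  rw [Finset.card_erase_of_mem hx] at hsplit
  have hcase : ∀ e : ZMod 3, e ≠ c → 3 ≤ ((S.erase x).filter (fun y => F x y = e)).card →
      False := by
    intro e hec h3
    have h2 := card_le_two_of_mono hno ((S.erase x).filter (fun y => F x y = e)) (-c - e) (by
      intro y hy z hz hyz
      rw [Finset.mem_filter, Finset.mem_erase] at hy hz
      have h1 := hno x y z (Ne.symm hy.1.1) (Ne.symm hz.1.1) hyz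
      have h2 := h y hy.1.2 z hz.1.2 hyz
      rw [hy.2, hz.2] at h1
      exact z2 c e _ hec h1 h2)
    omega
  rcases Nat.lt_or_ge ((S.erase x).filter (fun y => F x y = c + 1)).card 3 with h3 | h3
  · apply hcase (c + 2) (z3 c)
    have : (S.erase x).filter (fun y => ¬ F x y = c + 1) ⊆
        (S.erase x).filter (fun y => F x y = c + 2) := by
      intro y hy
      rw [Finset.mem_filter, Finset.mem_erase] at hy ⊢
      exact ⟨hy.1, z5 c _ (h x hx y hy.1.2 (Ne.symm hy.1.1)) hy.2⟩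
    have := Finset.card_le_card this
    omega
  · exact hcase (c + 1) (z4 c) h3

variable [Fintype X]

/-- the case of a vertex `v` with at least four neighbours in colour `0`, and a vertex `w0` with
`F v w0 = 1` not joined to all of them by colour `0` -/
theorem tri_core {F : X → X → ZMod 3} (hF : ∀ x y, F x y = F y x) (hno : NoTri F) (v : X)
    (N : Finset X) (hN : ∀ x, x ∈ N ↔ x ≠ v ∧ F v x = 0)
    (h4 : 4 ≤ N.card) (w0 x1 : X) (hw0 : F v w0 = 1) (hw0v : w0 ≠ v) (hx1 : x1 ∈ N)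
    (hwx : F w0 x1 ≠ 0) :
    Fintype.card X ≤ 10 := by
  have hv2 : ∀ x ∈ N, ∀ y ∈ N, x ≠ y → F x y ≠ 0 := by
    intro x hx y hy hxy he
    have hx' := (hN x).1 hx
    have hy' := (hN y).1 hy
    apply hno v x y (Ne.symm hx'.1) (Ne.symm hy'.1) hxy
    rw [hx'.2, hy'.2, he]; rfl
  -- colours seen from an outer vertex
  have hout : ∀ w, w ≠ v → w ∉ N → ∀ x ∈ N, F w x = 0 ∨ F w x = F v w := by
    intro w hwv hwN x hx
    have hx' := (hN x).1 hx
    have hc : F v w ≠ 0 := fun h => hwN ((hN w).2 ⟨hwv, h⟩)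
    have hxw : x ≠ w := fun h => hwN (h ▸ hx)
    have h1 := hno v x w (Ne.symm hx'.1) (Ne.symm hwv) hxw
    rw [hx'.2, hF x w] at h1
    exact z9 _ _ hc h1
  have hmix : ∀ w, w ≠ v → w ∉ N → ∀ x ∈ N, ∀ y ∈ N, x ≠ y → F w x = 0 → F w y = F v w →
      F x y = F v w := by
    intro w hwv hwN x hx y hy hxy h1 h2
    have hc : F v w ≠ 0 := fun h => hwN ((hN w).2 ⟨hwv, h⟩)
    have hxw : x ≠ w := fun h => hwN (h ▸ hx)
    have hyw : y ≠ w := fun h => hwN (h ▸ hy)
    have h3 := hno w x y (Ne.symm hxw) (Ne.symm hyw) hxy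
    exact z10 _ _ _ _ h1 h2 hc (hv2 x hx y hy hxy) h3
  have hboth : ∀ w, w ≠ v → w ∉ N → ∀ x ∈ N, ∀ y ∈ N, x ≠ y → F w x = F v w →
      F w y = F v w → F x y = -F v w := by
    intro w hwv hwN x hx y hy hxy h1 h2
    have hc : F v w ≠ 0 := fun h => hwN ((hN w).2 ⟨hwv, h⟩)
    have hxw : x ≠ w := fun h => hwN (h ▸ hx)
    have hyw : y ≠ w := fun h => hwN (h ▸ hy)
    have h3 := hno w x y (Ne.symm hxw) (Ne.symm hyw) hxy
    rw [h1, h2] at h3
    exact z11 _ _ hc (hv2 x hx y hy hxy) h3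
  have hw0N : w0 ∉ N := by
    intro h
    have := ((hN w0).1 h).2
    rw [hw0] at this
    exact one_ne_zero this
  -- partition of N seen from w0
  have hZ : ∀ x ∈ N, F w0 x = 0 ∨ F w0 x = 1 := by
    intro x hx
    have := hout w0 hw0v hw0N x hx
    rwa [hw0] at this
  have hZ1 : F w0 x1 = 1 := (hZ x1 hx1).resolve_left hwx
  set Z1 := N.filter (fun x => F w0 x = 1) with hZ1def
  set Z0 := N.filter (fun x => ¬ F w0 x = 1) with hZ0def
  have hZsum : Z1.card + Z0.card = N.card := Finset.card_filter_add_card_filter_not _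
  have hZ0mem : ∀ x ∈ Z0, x ∈ N ∧ F w0 x = 0 := by
    intro x hx
    rw [hZ0def, Finset.mem_filter] at hx
    exact ⟨hx.1, (hZ x hx.1).resolve_right hx.2⟩
  have hZ1mem : ∀ x ∈ Z1, x ∈ N ∧ F w0 x = 1 := by
    intro x hx
    rw [hZ1def, Finset.mem_filter] at hx
    exact hx
  have hc01 : ∀ x ∈ Z0, ∀ y ∈ Z1, F x y = 1 := by
    intro x hx y hy
    have hx' := hZ0mem x hx
    have hy' := hZ1mem y hy
    have hxy : x ≠ y := by
      intro h; rw [h, hy'.2] at hx'; exact one_ne_zero hx'.2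
    have := hmix w0 hw0v hw0N x hx'.1 y hy'.1 hxy hx'.2 (by rw [hy'.2, hw0])
    rw [this, hw0]
  have hc11 : ∀ x ∈ Z1, ∀ y ∈ Z1, x ≠ y → F x y = 2 := by
    intro x hx y hy hxy
    have hx' := hZ1mem x hx
    have hy' := hZ1mem y hy
    have := hboth w0 hw0v hw0N x hx'.1 y hy'.1 hxy (by rw [hx'.2, hw0]) (by rw [hy'.2, hw0])
    rw [this, hw0]; decide
  have hx1Z : x1 ∈ Z1 := by rw [hZ1def, Finset.mem_filter]; exact ⟨hx1, hZ1⟩
  have hc00 : ∀ x ∈ Z0, ∀ y ∈ Z0, x ≠ y → F x y = 2 := by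
    intro x hx y hy hxy
    have hx' := hZ0mem x hx
    have hy' := hZ0mem y hy
    have e1 := hc01 x hx x1 hx1Z
    have e2 := hc01 y hy x1 hx1Z
    have hxx : x ≠ x1 := by
      intro h; rw [h, hZ1] at hx'; exact one_ne_zero hx'.2
    have hyx : y ≠ x1 := by
      intro h; rw [h, hZ1] at hy'; exact one_ne_zero hy'.2
    have h3 := hno x1 x y (Ne.symm hxx) (Ne.symm hyx) hxy
    rw [hF x1 x, hF x1 y, e1, e2] at h3
    exact z7 _ (hv2 x hx'.1 y hy'.1 hxy) (z6 _ _ h3)
  have hZ1c := card_le_two_of_mono hno Z1 2 hc11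
  have hZ0c := card_le_two_of_mono hno Z0 2 hc00
  obtain ⟨a1, a3, ha13, hZ1eq⟩ := Finset.card_eq_two.1 (show Z1.card = 2 by omega)
  obtain ⟨a2, a4, ha24, hZ0eq⟩ := Finset.card_eq_two.1 (show Z0.card = 2 by omega)
  have m1 : a1 ∈ Z1 := by rw [hZ1eq]; simp
  have m3 : a3 ∈ Z1 := by rw [hZ1eq]; simp
  have m2 : a2 ∈ Z0 := by rw [hZ0eq]; simp
  have m4 : a4 ∈ Z0 := by rw [hZ0eq]; simp
  have n1 := (hZ1mem a1 m1).1
  have n3 := (hZ1mem a3 m3).1
  have n2 := (hZ0mem a2 m2).1
  have n4 := (hZ0mem a4 m4).1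
  have e13 := hc11 a1 m1 a3 m3 ha13
  have e24 := hc00 a2 m2 a4 m4 ha24
  have e21 := hc01 a2 m2 a1 m1
  have e23 := hc01 a2 m2 a3 m3
  have e41 := hc01 a4 m4 a1 m1
  have e43 := hc01 a4 m4 a3 m3
  have d21 : a2 ≠ a1 := fun h => by
    have h1 := (hZ1mem a1 m1).2; rw [← h, (hZ0mem a2 m2).2] at h1; exact zero_ne_one h1
  have d23 : a2 ≠ a3 := fun h => by
    have h1 := (hZ1mem a3 m3).2; rw [← h, (hZ0mem a2 m2).2] at h1; exact zero_ne_one h1
  have d41 : a4 ≠ a1 := fun h => by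
    have h1 := (hZ1mem a1 m1).2; rw [← h, (hZ0mem a4 m4).2] at h1; exact zero_ne_one h1
  have d43 : a4 ≠ a3 := fun h => by
    have h1 := (hZ1mem a3 m3).2; rw [← h, (hZ0mem a4 m4).2] at h1; exact zero_ne_one h1
  -- the three remaining classes
  have hclass : ∀ w, w ∉ N → (F w a1 = 0 ∧ F w a2 = 0 ∧ F w a3 = 0 ∧ F w a4 = 0) ∨
      (F w a1 = 1 ∧ F w a2 = 0 ∧ F w a3 = 1 ∧ F w a4 = 0) ∨
      (F w a1 = 0 ∧ F w a2 = 1 ∧ F w a3 = 0 ∧ F w a4 = 1) := by
    intro w hwN
    by_cases hwv : w = v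
    · left
      subst hwv
      exact ⟨((hN a1).1 n1).2, ((hN a2).1 n2).2, ((hN a3).1 n3).2, ((hN a4).1 n4).2⟩
    · have hc : F v w ≠ 0 := fun h => hwN ((hN w).2 ⟨hwv, h⟩)
      have o1 := hout w hwv hwN a1 n1
      have o2 := hout w hwv hwN a2 n2
      have o3 := hout w hwv hwN a3 n3
      have o4 := hout w hwv hwN a4 n4
      have b21 := hboth w hwv hwN a2 n2 a1 n1 d21
      have b23 := hboth w hwv hwN a2 n2 a3 n3 d23
      have b41 := hboth w hwv hwN a4 n4 a1 n1 d41
      have b43 := hboth w hwv hwN a4 n4 a3 n3 d43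
      have b13 := hboth w hwv hwN a1 n1 a3 n3 ha13
      have b24 := hboth w hwv hwN a2 n2 a4 n4 ha24
      have p21 := hmix w hwv hwN a2 n2 a1 n1 d21
      have p23 := hmix w hwv hwN a2 n2 a3 n3 d23
      have p41 := hmix w hwv hwN a4 n4 a1 n1 d41
      have p43 := hmix w hwv hwN a4 n4 a3 n3 d43
      have p13 := hmix w hwv hwN a1 n1 a3 n3 ha13
      have p24 := hmix w hwv hwN a2 n2 a4 n4 ha24
      have q21 := hmix w hwv hwN a1 n1 a2 n2 (Ne.symm d21)
      have q23 := hmix w hwv hwN a3 n3 a2 n2 (Ne.symm d23)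
      have q41 := hmix w hwv hwN a1 n1 a4 n4 (Ne.symm d41)
      have q43 := hmix w hwv hwN a3 n3 a4 n4 (Ne.symm d43)
      have q13 := hmix w hwv hwN a3 n3 a1 n1 (Ne.symm ha13)
      have q24 := hmix w hwv hwN a4 n4 a2 n2 (Ne.symm ha24)
      rw [hF a1 a2] at q21
      rw [hF a3 a2] at q23
      rw [hF a1 a4] at q41
      rw [hF a3 a4] at q43
      rw [hF a3 a1] at q13
      rw [hF a4 a2] at q24
      rw [e21] at b21 p21 q21
      rw [e23] at b23 p23 q23
      rw [e41] at b41 p41 q41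
      rw [e43] at b43 p43 q43
      rw [e13] at b13 p13 q13
      rw [e24] at b24 p24 q24
      have k1 : (1 : ZMod 3) ≠ -1 := by decide
      have k2 : (2 : ZMod 3) ≠ -2 := by decide
      have k3 : (1 : ZMod 3) ≠ 2 := by decide
      have k4 : (2 : ZMod 3) ≠ 1 := by decide
      by_cases hcc : F v w = 1
      · rw [hcc] at o1 o2 o3 o4 b21 b41 q13 p13 q24 p24
        rcases o1 with r1 | r1
        · have r3 : F w a3 = 0 := o3.resolve_right (fun h => k4 (p13 r1 h))
          rcases o2 with r2 | r2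
          · have r4 : F w a4 = 0 := o4.resolve_right (fun h => k4 (p24 r2 h))
            exact Or.inl ⟨r1, r2, r3, r4⟩
          · have r4 : F w a4 = 1 := o4.resolve_left (fun h => k4 (q24 h r2))
            exact Or.inr (Or.inr ⟨r1, r2, r3, r4⟩)
        · have r2 : F w a2 = 0 := o2.resolve_right (fun h => k1 (b21 h r1))
          have r4 : F w a4 = 0 := o4.resolve_right (fun h => k1 (b41 h r1))
          have r3 : F w a3 = 1 := o3.resolve_left (fun h => k4 (q13 h r1))
          exact Or.inr (Or.inl ⟨r1, r2, r3, r4⟩)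
      · have hcc2 := z7 _ hc hcc
        rw [hcc2] at o1 o2 o3 o4 p21 p41 p23 p43 b24 q21 q41
        have r1 : F w a1 = 0 := o1.resolve_right (fun h => by
          have r2 : F w a2 = 2 := o2.resolve_left (fun h' => k3 (p21 h' h))
          have r4 : F w a4 = 2 := o4.resolve_left (fun h' => k3 (p41 h' h))
          exact k2 (b24 r2 r4))
        have r3 : F w a3 = 0 := o3.resolve_right (fun h => by
          have r2 : F w a2 = 2 := o2.resolve_left (fun h' => k3 (p23 h' h))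
          have r4 : F w a4 = 2 := o4.resolve_left (fun h' => k3 (p43 h' h))
          exact k2 (b24 r2 r4))
        have r2 : F w a2 = 0 := o2.resolve_right (fun h => k3 (q21 r1 h))
        have r4 : F w a4 = 0 := o4.resolve_right (fun h => k3 (q41 r1 h))
        exact Or.inl ⟨r1, r2, r3, r4⟩
  have hYcard : ∀ (S : Finset X) (x y : X), x ∈ N → y ∈ N →
      (∀ w ∈ S, w ∉ N ∧ F w x = 1 ∧ F w y = 0) → S.card ≤ 2 := by
    intro S x y hx hy hS
    apply card_le_two_of_mono hno S 2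
    intro s hs t ht hst
    obtain ⟨s1, s2, s3⟩ := hS s hs
    obtain ⟨t1, t2, t3⟩ := hS t ht
    have hsx : x ≠ s := fun h => s1 (h ▸ hx)
    have htx : x ≠ t := fun h => t1 (h ▸ hx)
    have hsy : y ≠ s := fun h => s1 (h ▸ hy)
    have hty : y ≠ t := fun h => t1 (h ▸ hy)
    have h1 := hno x s t hsx htx hst
    have h2 := hno y s t hsy hty hst
    rw [hF x s, hF x t, s2, t2] at h1
    rw [hF y s, hF y t, s3, t3] at h2
    exact z7 _ (z6 _ _ h2) (z6 _ _ h1)
  set U := Finset.univ.filter (fun w => w ∉ N ∧ F w a1 = 0 ∧ F w a2 = 0) with hU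
  set Y1 := Finset.univ.filter (fun w => w ∉ N ∧ F w a1 = 1 ∧ F w a2 = 0) with hY1
  set Y2 := Finset.univ.filter (fun w => w ∉ N ∧ F w a2 = 1 ∧ F w a1 = 0) with hY2
  have cY1 : Y1.card ≤ 2 := hYcard Y1 a1 a2 n1 n2 (fun w hw => by
    rw [hY1, Finset.mem_filter] at hw; exact hw.2)
  have cY2 : Y2.card ≤ 2 := hYcard Y2 a2 a1 n2 n1 (fun w hw => by
    rw [hY2, Finset.mem_filter] at hw; exact hw.2)
  have hw0U : ∀ u ∈ U, u ≠ w0 ∧ F w0 u = 1 := by
    intro u hu
    rw [hU, Finset.mem_filter] at hu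
    obtain ⟨-, u1, u2, u3⟩ := hu
    have huw : u ≠ w0 := by
      intro h; rw [h, (hZ1mem a1 m1).2] at u2; exact one_ne_zero u2
    refine ⟨huw, ?_⟩
    have g1 := hno a1 w0 u (fun h => hw0N (h ▸ n1)) (fun h => u1 (h ▸ n1)) (Ne.symm huw)
    have g2 := hno a2 w0 u (fun h => hw0N (h ▸ n2)) (fun h => u1 (h ▸ n2)) (Ne.symm huw)
    rw [hF a1 w0, hF a1 u, (hZ1mem a1 m1).2, u2] at g1
    rw [hF a2 w0, hF a2 u, (hZ0mem a2 m2).2, u3] at g2
    have g3 : F w0 u ≠ 2 := by
      intro h; rw [h] at g1; exact g1 (by decide)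
    exact z8 _ (z6 _ _ g2) g3
  have cU : U.card ≤ 2 := by
    apply card_le_two_of_mono hno U 2
    intro s hs t ht hst
    obtain ⟨s1, s2⟩ := hw0U s hs
    obtain ⟨t1, t2⟩ := hw0U t ht
    rw [hU, Finset.mem_filter] at hs ht
    have h1 := hno w0 s t (Ne.symm s1) (Ne.symm t1) hst
    have h2 := hno a1 s t (fun h => hs.2.1 (h ▸ n1)) (fun h => ht.2.1 (h ▸ n1)) hst
    rw [s2, t2] at h1
    rw [hF a1 s, hF a1 t, hs.2.2.1, ht.2.2.1] at h2
    exact z7 _ (z6 _ _ h2) (z6 _ _ h1)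
  have hcov : (Finset.univ : Finset X) ⊆ N ∪ (U ∪ (Y1 ∪ Y2)) := by
    intro w _
    by_cases hwN : w ∈ N
    · exact Finset.mem_union_left _ hwN
    · apply Finset.mem_union_right
      rcases hclass w hwN with h | h | h
      · apply Finset.mem_union_left
        rw [hU, Finset.mem_filter]
        exact ⟨Finset.mem_univ _, hwN, h.1, h.2.1⟩
      · apply Finset.mem_union_right
        apply Finset.mem_union_left
        rw [hY1, Finset.mem_filter]
        exact ⟨Finset.mem_univ _, hwN, h.1, h.2.1⟩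
      · apply Finset.mem_union_right
        apply Finset.mem_union_right
        rw [hY2, Finset.mem_filter]
        exact ⟨Finset.mem_univ _, hwN, h.2.1, h.1⟩
  have c1 := Finset.card_le_card hcov
  have c2 := Finset.card_union_le N (U ∪ (Y1 ∪ Y2))
  have c3 := Finset.card_union_le U (Y1 ∪ Y2)
  have c4 := Finset.card_union_le Y1 Y2
  rw [Finset.card_univ] at c1
  omega

theorem triangle11 {F : X → X → ZMod 3} (hF : ∀ x y, F x y = F y x)
    (hX : 11 ≤ Fintype.card X) :
    ∃ x y z, x ≠ y ∧ x ≠ z ∧ y ≠ z ∧ F x y + F x z + F y z = 0 := by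
  by_contra hcon
  push Not at hcon
  obtain ⟨v⟩ : Nonempty X := Fintype.card_pos_iff.1 (by omega)
  have t3 : (3 : ZMod 3) = 0 := by decide
  -- a popular colour at `v`
  obtain ⟨c, hc⟩ : ∃ c : ZMod 3, 4 ≤ ((Finset.univ.erase v).filter (fun x => F v x = c)).card := by
    by_contra h
    push Not at h
    have h1 : (Finset.univ.erase v).card =
        ∑ c : ZMod 3, ((Finset.univ.erase v).filter (fun x => F v x = c)).card :=
      Finset.card_eq_sum_card_fiberwise (fun x _ => Finset.mem_univ _)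
    have h2 : ∑ c : ZMod 3, ((Finset.univ.erase v).filter (fun x => F v x = c)).card ≤
        ∑ _c : ZMod 3, 3 := Finset.sum_le_sum (fun c _ => by have := h c; omega)
    rw [Finset.card_erase_of_mem (Finset.mem_univ v), Finset.card_univ] at h1
    simp only [Finset.sum_const, Finset.card_univ, ZMod.card, smul_eq_mul] at h2
    omega
  set F' : X → X → ZMod 3 := fun x y => F x y - c with hF'
  have hF's : ∀ x y, F' x y = F' y x := by intro x y; simp only [hF']; rw [hF]
  have hno' : NoTri F' := by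
    intro x y z hxy hxz hyz h
    apply hcon x y z hxy hxz hyz
    simp only [hF'] at h
    linear_combination h + c * t3
  set N := (Finset.univ.erase v).filter (fun x => F v x = c) with hNdef
  have hN : ∀ x, x ∈ N ↔ x ≠ v ∧ F' v x = 0 := by
    intro x
    simp only [hNdef, hF', Finset.mem_filter, Finset.mem_erase, Finset.mem_univ, and_true,
      sub_eq_zero]
  have hN0 : ∀ x ∈ N, ∀ y ∈ N, x ≠ y → F' x y ≠ 0 := by
    intro x hx y hy hxy he
    have hx' := (hN x).1 hx
    have hy' := (hN y).1 hy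
    apply hno' v x y (Ne.symm hx'.1) (Ne.symm hy'.1) hxy
    rw [hx'.2, hy'.2, he]; rfl
  by_cases hall : ∀ w, w ∉ N → ∀ x ∈ N, F' w x = 0
  · obtain ⟨x1, hx1⟩ : N.Nonempty := Finset.card_pos.1 (by omega)
    have h1 := card_le_five hno' N 0 hN0
    have h2 := card_le_five hno' (Finset.univ \ N) 0 (by
      intro x hx y hy hxy
      rw [Finset.mem_sdiff] at hx hy
      have h3 := hno' x1 x y (fun h => hx.2 (h ▸ hx1)) (fun h => hy.2 (h ▸ hx1)) hxy
      rw [hF's x1 x, hF's x1 y, hall x hx.2 x1 hx1, hall y hy.2 x1 hx1] at h3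
      exact z6 _ _ h3)
    rw [Finset.card_sdiff_of_subset (Finset.subset_univ _), Finset.card_univ] at h2
    omega
  · push Not at hall
    obtain ⟨w0, hw0, x1, hx1, hwx⟩ := hall
    have hw0v : w0 ≠ v := by
      intro h; rw [h] at hwx; exact hwx ((hN x1).1 hx1).2
    have hc0 : F' v w0 ≠ 0 := fun h => hw0 ((hN w0).2 ⟨hw0v, h⟩)
    have hsq : ∀ t : ZMod 3, t ≠ 0 → t * t = 1 := by decide
    have hf3 : Fact (Nat.Prime 3) := ⟨Nat.prime_three⟩
    have := tri_core (F := fun x y => F' v w0 * F' x y) (by intro x y; simp only [hF's x y])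
      (by
        intro x y z hxy hxz hyz h
        apply hno' x y z hxy hxz hyz
        have h1 : F' v w0 * (F' x y + F' x z + F' y z) = 0 := by rw [← h]; ring
        exact (mul_eq_zero.1 h1).resolve_left hc0) v N
      (by
        intro x
        rw [hN, mul_eq_zero]
        constructor
        · rintro ⟨h1, h2⟩; exact ⟨h1, Or.inr h2⟩
        · rintro ⟨h1, h2⟩; exact ⟨h1, h2.resolve_left hc0⟩)
      hc w0 x1 (hsq _ hc0) hw0v hx1 (mul_ne_zero hc0 hwx)
    omega

end upper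

/-- the colouring of ten vertices without a zero-sum triangle -/
def f10 (a b : Fin 10) : ZMod 3 :=
  let d := (a.val / 2 + 5 - b.val / 2) % 5
  if d = 0 then 0 else if d = 1 ∨ d = 4 then 1 else 2

theorem f10_symm : ∀ a b, f10 a b = f10 b a := by decide

theorem f10_noTri : ∀ a b c : Fin 10, a ≠ b → a ≠ c → b ≠ c →
    f10 a b + f10 a c + f10 b c ≠ 0 := by decide +kernel

end Pool.Agent.K1H46.ZSR
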