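import Pool.Agent.K1H46.Clique
import Pool.Agent.K1H46.Triangle

/-!
Stars, cliques and the general upper bound.
-/

namespace Pool.Agent.K1H46.ZSR

section structure_lemma

variable {V : Type*} [Fintype V] [DecidableEq V]

/-- If the four endpoints of any two disjoint edges span a complete graph, then the graph is a star
or a clique (plus isolated vertices). -/
theorem star_or_clique (G : SimpleGraph V)
    (hK : ∀ v1 v2 v3 v4, [v1, v2, v3, v4].Nodup → G.Adj v1 v2 → G.Adj v3 v4 →
      G.Adj v1 v3 ∧ G.Adj v2 v4 ∧ G.Adj v1 v4 ∧ G.Adj v2 v3) :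
    (∃ c, ∀ u v, G.Adj u v → u = c ∨ v = c) ∨
      (∃ C : Finset V, ∀ u v, G.Adj u v ↔ u ≠ v ∧ u ∈ C ∧ v ∈ C) := by
  classical
  have nd : ∀ {p q r s : V}, p ≠ q → p ≠ r → p ≠ s → q ≠ r → q ≠ s → r ≠ s →
      [p, q, r, s].Nodup := by
    intro p q r s h1 h2 h3 h4 h5 h6
    simp only [List.nodup_cons, List.mem_cons, List.not_mem_nil, or_false, not_or,
      not_false_eq_true, List.nodup_nil, and_true]
    exact ⟨⟨h1, h2, h3⟩, ⟨h4, h5⟩, h6⟩
  by_cases hdis : ∃ a b c d, [a, b, c, d].Nodup ∧ G.Adj a b ∧ G.Adj c d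
  · right
    obtain ⟨a, b, c, d, hnd, hab, hcd⟩ := hdis
    obtain ⟨hac, hbd, had, hbc⟩ := hK a b c d hnd hab hcd
    have h4 : ({a, b, c, d} : Finset V).card = 4 := by
      have : ({a, b, c, d} : Finset V) = [a, b, c, d].toFinset := by ext; simp
      rw [this, List.toFinset_card_of_nodup hnd]; rfl
    have hadj : ∀ p ∈ ({a, b, c, d} : Finset V), ∀ q ∈ ({a, b, c, d} : Finset V), p ≠ q →
        G.Adj p q := by
      intro p hp q hq hpq
      simp only [Finset.mem_insert, Finset.mem_singleton] at hp hq
      rcases hp with rfl | rfl | rfl | rfl <;> rcases hq with rfl | rfl | rfl | rfl <;>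
        first
          | exact absurd rfl hpq
          | assumption
          | (apply SimpleGraph.Adj.symm; assumption)
    have close : ∀ u z w, G.Adj u z → G.Adj w z → u ≠ w → G.Adj u w := by
      intro u z w huz hwz huw
      have hcard : 1 < (({a, b, c, d} : Finset V) \ {u, z}).card := by
        have h1 := Finset.le_card_sdiff ({u, z} : Finset V) ({a, b, c, d} : Finset V)
        have h2 : ({u, z} : Finset V).card ≤ 2 := Finset.card_le_two
        omega
      obtain ⟨p, q, hp, hq, hpq⟩ := Finset.one_lt_card_iff.1 hcard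
      rw [Finset.mem_sdiff] at hp hq
      have hpu : p ≠ u := fun h => hp.2 (by simp [h])
      have hpz : p ≠ z := fun h => hp.2 (by simp [h])
      have hqu : q ≠ u := fun h => hq.2 (by simp [h])
      have hqz : q ≠ z := fun h => hq.2 (by simp [h])
      have hadjpq := hadj p hp.1 q hq.1 hpq
      obtain ⟨k1, k2, k3, k4⟩ := hK u z p q
        (nd huz.ne (Ne.symm hpu) (Ne.symm hqu) (Ne.symm hpz) (Ne.symm hqz) hpq) huz hadjpq
      by_cases hwp : w = p
      · rw [hwp]; exact k1
      · exact (hK w z u p (nd hwz.ne (Ne.symm huw) hwp (Ne.symm huz.ne) (Ne.symm hpz)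
          (Ne.symm hpu)) hwz k1).1.symm
    refine ⟨Finset.univ.filter (fun u => ∃ w, G.Adj u w), fun u v => ⟨fun huv => ?_, ?_⟩⟩
    · refine ⟨huv.ne, ?_, ?_⟩
      · rw [Finset.mem_filter]; exact ⟨Finset.mem_univ _, v, huv⟩
      · rw [Finset.mem_filter]; exact ⟨Finset.mem_univ _, u, huv.symm⟩
    · rintro ⟨huv, hu, hv⟩
      rw [Finset.mem_filter] at hu hv
      obtain ⟨-, u', hu'⟩ := hu
      obtain ⟨-, v', hv'⟩ := hv
      by_cases h1 : u' = v
      · rw [← h1]; exact hu'
      by_cases h2 : v' = u
      · rw [← h2]; exact hv'.symm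
      by_cases h3 : u' = v'
      · rw [← h3] at hv'
        exact close u u' v hu' hv' huv
      · exact (hK u u' v v' (nd hu'.ne huv (Ne.symm h2) h1 h3 hv'.ne) hu' hv').1
  · have hdis' : ∀ a b c d, a ≠ c → a ≠ d → b ≠ c → b ≠ d → G.Adj a b → G.Adj c d → False := by
      intro a b c d h1 h2 h3 h4 h5 h6
      exact hdis ⟨a, b, c, d, nd h5.ne h1 h2 h3 h4 h6.ne, h5, h6⟩
    by_cases hE : ∃ a b, G.Adj a b
    · obtain ⟨a, b, hab⟩ := hE
      by_cases hA : ∀ u v, G.Adj u v → u = a ∨ v = a
      · left; exact ⟨a, hA⟩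
      push Not at hA
      obtain ⟨c, hbc, hca⟩ : ∃ c, G.Adj b c ∧ c ≠ a := by
        obtain ⟨x, y, hxy, hxa, hya⟩ := hA
        by_cases hxb : x = b
        · exact ⟨y, hxb ▸ hxy, hya⟩
        · by_cases hyb : y = b
          · exact ⟨x, hyb ▸ hxy.symm, hxa⟩
          · exact (hdis' a b x y (Ne.symm hxa) (Ne.symm hya) (Ne.symm hxb) (Ne.symm hyb)
              hab hxy).elim
      by_cases hB : ∀ u v, G.Adj u v → u = b ∨ v = b
      · left; exact ⟨b, hB⟩
      push Not at hB
      have hac : G.Adj a c := by
        obtain ⟨x, y, hxy, hxb, hyb⟩ := hB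
        by_cases hxa : x = a
        · by_cases hyc : y = c
          · rw [← hxa, ← hyc]; exact hxy
          · exfalso
            apply hdis' b c x y (Ne.symm hxb) (Ne.symm hyb) ?_ (Ne.symm hyc) hbc hxy
            rw [hxa]; exact hca
        · by_cases hya : y = a
          · by_cases hxc : x = c
            · rw [← hya, ← hxc]; exact hxy.symm
            · exfalso
              apply hdis' b c x y (Ne.symm hxb) (Ne.symm hyb) (Ne.symm hxc) ?_ hbc hxy
              rw [hya]; exact hca
          · exact (hdis' a b x y (Ne.symm hxa) (Ne.symm hya) (Ne.symm hxb) (Ne.symm hyb)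
              hab hxy).elim
      right
      refine ⟨{a, b, c}, fun u v => ⟨fun huv => ?_, ?_⟩⟩
      · have key : ∀ u v, G.Adj u v → u ∈ ({a, b, c} : Finset V) := by
          intro u v huv
          by_contra hu
          simp only [Finset.mem_insert, Finset.mem_singleton, not_or] at hu
          obtain ⟨h1, h2, h3⟩ := hu
          have k1 : v = a ∨ v = b := by
            by_contra hcon
            rw [not_or] at hcon
            exact hdis' u v a b h1 h2 hcon.1 hcon.2 huv hab
          have k2 : v = b ∨ v = c := by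
            by_contra hcon
            rw [not_or] at hcon
            exact hdis' u v b c h2 h3 hcon.1 hcon.2 huv hbc
          have k3 : v = a ∨ v = c := by
            by_contra hcon
            rw [not_or] at hcon
            exact hdis' u v a c h1 h3 hcon.1 hcon.2 huv hac
          rcases k1 with rfl | rfl
          · rcases k2 with h | h
            · exact hab.ne h
            · exact hac.ne h
          · rcases k3 with h | h
            · exact hab.ne h.symm
            · exact hbc.ne h
        exact ⟨huv.ne, key u v huv, key v u huv.symm⟩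
      · rintro ⟨huv, hu, hv⟩
        simp only [Finset.mem_insert, Finset.mem_singleton] at hu hv
        rcases hu with rfl | rfl | rfl <;> rcases hv with rfl | rfl | rfl <;>
          first
            | exact absurd rfl huv
            | assumption
            | (apply SimpleGraph.Adj.symm; assumption)
    · right
      refine ⟨∅, fun u v => ⟨fun huv => (hE ⟨u, v, huv⟩).elim, ?_⟩⟩
      rintro ⟨-, hu, -⟩
      exact absurd hu (Finset.notMem_empty _)

end structure_lemma

section main

variable {V X : Type*} [Fintype V] [DecidableEq V] [Fintype X] [DecidableEq X]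

open Classical in
/-- adjacency matrix -/
noncomputable def aG (G : SimpleGraph V) (u v : V) : ZMod 3 := if G.Adj u v then 1 else 0

omit [Fintype V] [DecidableEq V] in
theorem aG_symm (G : SimpleGraph V) (u v : V) : aG G u v = aG G v u := by
  unfold aG
  by_cases h : G.Adj u v
  · rw [if_pos h, if_pos h.symm]
  · rw [if_neg h, if_neg (fun h' => h h'.symm)]

omit [Fintype V] [DecidableEq V] in
theorem aG_self (G : SimpleGraph V) (u : V) : aG G u u = 0 := by
  unfold aG; simp

omit [Fintype V] [DecidableEq V] in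
theorem aG_of_adj {G : SimpleGraph V} {u v : V} (h : G.Adj u v) : aG G u v = 1 := by
  unfold aG; rw [if_pos h]

omit [Fintype V] [DecidableEq V] in
theorem aG_of_not {G : SimpleGraph V} {u v : V} (h : ¬ G.Adj u v) : aG G u v = 0 := by
  unfold aG; rw [if_neg h]

theorem star_case (G : SimpleGraph V) (F : X → X → ZMod 3) (hF : ∀ x y, F x y = F y x)
    (hdeg : ∑ u, ∑ v, aG G u v = 0) (hX : Fintype.card V + 2 ≤ Fintype.card X)
    {c : V} (hc : ∀ u v, G.Adj u v → u = c ∨ v = c) :
    ∃ φ : V → X, Function.Injective φ ∧ T (aG G) F φ = 0 := by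
  have hsplit : ∀ g : V → V → ZMod 3, (∀ u v, g u v = g v u) →
      ∑ u, ∑ v, aG G u v * g u v = 2 * ∑ v ∈ Finset.univ.erase c, aG G c v * g c v := by
    intro g hg
    rw [← Finset.sum_erase_add _ _ (Finset.mem_univ c)]
    have h1 : ∑ v, aG G c v * g c v = ∑ v ∈ Finset.univ.erase c, aG G c v * g c v := by
      rw [← Finset.sum_erase_add _ _ (Finset.mem_univ c), aG_self, zero_mul, add_zero]
    have h2 : ∑ u ∈ Finset.univ.erase c, ∑ v, aG G u v * g u v =
        ∑ v ∈ Finset.univ.erase c, aG G c v * g c v := by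
      refine Finset.sum_congr rfl (fun u hu => ?_)
      rw [Finset.mem_erase] at hu
      rw [Finset.sum_eq_single c]
      · rw [aG_symm, hg]
      · intro v _ hv
        rw [aG_of_not (fun h => (hc u v h).elim hu.1 hv), zero_mul]
      · intro h; exact absurd (Finset.mem_univ c) h
    rw [h1, h2]; ring
  have hd : ∑ v ∈ Finset.univ.erase c, aG G c v = 0 := by
    have h1 := hsplit (fun _ _ => 1) (fun _ _ => rfl)
    simp only [mul_one] at h1
    rw [hdeg] at h1
    have t3 : (3 : ZMod 3) = 0 := by decide
    linear_combination h1 * (-2) - (∑ v ∈ Finset.univ.erase c, aG G c v) * t3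
  obtain ⟨x0⟩ : Nonempty X := Fintype.card_pos_iff.1 (by omega)
  obtain ⟨φ, h1, h2, h3⟩ := lemmaA (Finset.univ.erase c) (Finset.univ.erase x0)
    (fun v => aG G c v) (fun x => F x0 x) hd (by
      rw [Finset.card_erase_of_mem (Finset.mem_univ _), Finset.card_erase_of_mem
        (Finset.mem_univ _), Finset.card_univ, Finset.card_univ]
      have : 1 ≤ Fintype.card V := Fintype.card_pos_iff.2 ⟨c⟩
      omega)
  refine ⟨Function.update φ c x0, ?_, ?_⟩
  · intro u v huv
    by_cases hu : u = c
    · by_cases hv : v = c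
      · rw [hu, hv]
      · rw [hu, Function.update_self, Function.update_of_ne hv] at huv
        have := h1 v (by simp [hv])
        rw [← huv, Finset.mem_erase] at this
        exact absurd rfl this.1
    · by_cases hv : v = c
      · rw [hv, Function.update_self, Function.update_of_ne hu] at huv
        have := h1 u (by simp [hu])
        rw [huv, Finset.mem_erase] at this
        exact absurd rfl this.1
      · rw [Function.update_of_ne hu, Function.update_of_ne hv] at huv
        exact h2 (by simp [hu]) (by simp [hv]) huv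
  · unfold T
    rw [hsplit (fun u v => F (Function.update φ c x0 u) (Function.update φ c x0 v))
      (fun u v => hF _ _), Function.update_self]
    have : ∑ v ∈ Finset.univ.erase c, aG G c v * F x0 (Function.update φ c x0 v) =
        ∑ v ∈ Finset.univ.erase c, aG G c v * F x0 (φ v) := by
      refine Finset.sum_congr rfl (fun v hv => ?_)
      rw [Finset.mem_erase] at hv
      rw [Function.update_of_ne hv.1]
    rw [this, h3, mul_zero]

theorem T_clique (G : SimpleGraph V) (F : X → X → ZMod 3) {C : Finset V}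
    (hC : ∀ u v, G.Adj u v ↔ u ≠ v ∧ u ∈ C ∧ v ∈ C) {φ : V → X} (hφ : Function.Injective φ) :
    T (aG G) F φ = FS F (C.image φ) := by
  unfold T FS
  rw [Finset.sum_image (fun x _ y _ h => hφ h)]
  rw [← Finset.sum_subset (Finset.subset_univ C) (by
    intro u _ hu
    apply Finset.sum_eq_zero
    intro v _
    rw [aG_of_not (fun h => hu ((hC u v).1 h).2.1), zero_mul])]
  refine Finset.sum_congr rfl (fun u hu => ?_)
  rw [Finset.sum_image (fun x _ y _ h => hφ h)]
  rw [← Finset.sum_subset (Finset.subset_univ C) (by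
    intro v _ hv
    rw [aG_of_not (fun h => hv ((hC u v).1 h).2.2), zero_mul])]
  refine Finset.sum_congr rfl (fun v hv => ?_)
  by_cases h : u = v
  · rw [h, if_pos rfl, aG_self, zero_mul]
  · rw [if_neg (fun he => h (hφ he)), aG_of_adj ((hC u v).2 ⟨h, hu, hv⟩), one_mul]

theorem sum_aG_clique (G : SimpleGraph V) {C : Finset V}
    (hC : ∀ u v, G.Adj u v ↔ u ≠ v ∧ u ∈ C ∧ v ∈ C) :
    ∑ u, ∑ v, aG G u v = (C.card : ZMod 3) * (C.card - 1) := by
  rw [← Finset.sum_subset (Finset.subset_univ C) (by
    intro u _ hu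
    apply Finset.sum_eq_zero
    intro v _
    rw [aG_of_not (fun h => hu ((hC u v).1 h).2.1)])]
  have : ∀ u ∈ C, ∑ v, aG G u v = (C.card : ZMod 3) - 1 := by
    intro u hu
    rw [← Finset.sum_subset (Finset.subset_univ C) (by
      intro v _ hv
      rw [aG_of_not (fun h => hv ((hC u v).1 h).2.2)])]
    rw [← Finset.sum_erase_add _ _ hu, aG_self, add_zero,
      Finset.sum_congr rfl (g := fun _ => (1 : ZMod 3)) (fun v hv => by
        rw [Finset.mem_erase] at hv
        exact aG_of_adj ((hC u v).2 ⟨Ne.symm hv.1, hu, hv.2⟩)), Finset.sum_const,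
      Finset.card_erase_of_mem hu, nsmul_eq_mul, Nat.cast_sub (Finset.card_pos.2 ⟨u, hu⟩)]
    simp
  rw [Finset.sum_congr rfl this, Finset.sum_const, nsmul_eq_mul]

/-- extension of a zero-sum set to a placement -/
theorem extend_placement {C : Finset V} {S : Finset X} (hCS : S.card = C.card)
    (hX : Fintype.card V ≤ Fintype.card X) [Nonempty X] :
    ∃ φ : V → X, Function.Injective φ ∧ C.image φ = S := by
  obtain ⟨ψ1, h1, h2⟩ := exists_inj C S (by omega)
  obtain ⟨ψ2, h3, h4⟩ := exists_inj (Finset.univ \ C) (Finset.univ \ S) (by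
    rw [Finset.card_sdiff_of_subset (Finset.subset_univ _),
      Finset.card_sdiff_of_subset (Finset.subset_univ _), Finset.card_univ, Finset.card_univ]
    omega)
  refine ⟨fun u => if u ∈ C then ψ1 u else ψ2 u, ?_, ?_⟩
  · intro u v huv
    dsimp only at huv
    by_cases hu : u ∈ C
    · by_cases hv : v ∈ C
      · rw [if_pos hu, if_pos hv] at huv
        exact h2 hu hv huv
      · rw [if_pos hu, if_neg hv] at huv
        have e1 := h1 u hu
        have e2 := h3 v (by simp [hv])
        rw [Finset.mem_sdiff, ← huv] at e2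
        exact absurd e1 e2.2
    · by_cases hv : v ∈ C
      · rw [if_neg hu, if_pos hv] at huv
        have e1 := h1 v hv
        have e2 := h3 u (by simp [hu])
        rw [Finset.mem_sdiff, huv] at e2
        exact absurd e1 e2.2
      · rw [if_neg hu, if_neg hv] at huv
        exact h4 (by simp [hu]) (by simp [hv]) huv
  · have : C.image (fun u => if u ∈ C then ψ1 u else ψ2 u) = C.image ψ1 := by
      apply Finset.image_congr
      intro u hu
      dsimp only
      rw [if_pos (by simpa using hu)]
    rw [this]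
    apply Finset.eq_of_subset_of_card_le
    · intro x hx
      obtain ⟨u, hu, rfl⟩ := Finset.mem_image.1 hx
      exact h1 u hu
    · rw [Finset.card_image_of_injOn h2]; omega

theorem clique_case (G : SimpleGraph V) (F : X → X → ZMod 3) (hF : ∀ x y, F x y = F y x)
    (hdeg : ∑ u, ∑ v, aG G u v = 0) (hX : Fintype.card V + 7 ≤ Fintype.card X)
    {C : Finset V} (hC : ∀ u v, G.Adj u v ↔ u ≠ v ∧ u ∈ C ∧ v ∈ C)
    (h11 : C.card = 3 → 11 ≤ Fintype.card X) :
    ∃ φ : V → X, Function.Injective φ ∧ T (aG G) F φ = 0 := by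
  have hne : Nonempty X := Fintype.card_pos_iff.1 (by omega)
  have hCV : C.card ≤ Fintype.card V := Finset.card_le_univ C
  have hk3 : C.card % 3 = 0 ∨ C.card % 3 = 1 := by
    rw [sum_aG_clique G hC] at hdeg
    have hf3 : Fact (Nat.Prime 3) := ⟨Nat.prime_three⟩
    rcases mul_eq_zero.1 hdeg with h | h
    · left
      exact Nat.mod_eq_zero_of_dvd ((ZMod.natCast_eq_zero_iff _ 3).1 h)
    · right
      have h2 : ((C.card : ℕ) : ZMod 3) = ((1 : ℕ) : ZMod 3) := by
        rw [sub_eq_zero] at h; rw [h]; simp
      exact (ZMod.natCast_eq_natCast_iff' _ _ 3).1 h2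
  obtain ⟨S, hSc, hS⟩ : ∃ S : Finset X, S.card = C.card ∧ FS F S = 0 := by
    rcases Nat.lt_or_ge C.card 4 with h4 | h4
    · rcases Nat.lt_or_ge C.card 2 with h2 | h2
      · obtain ⟨S, hS, hSc⟩ := Finset.exists_subset_card_eq
          (s := (Finset.univ : Finset X)) (n := C.card) (by rw [Finset.card_univ]; omega)
        refine ⟨S, hSc, ?_⟩
        unfold FS
        apply Finset.sum_eq_zero
        intro x hx
        apply Finset.sum_eq_zero
        intro y hy
        rw [if_pos (Finset.card_le_one.1 (by omega) x hx y hy)]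
      · have h3 : C.card = 3 := by omega
        obtain ⟨x, y, z, hxy, hxz, hyz, hs⟩ := triangle11 hF (h11 h3)
        refine ⟨{x, y, z}, ?_, ?_⟩
        · rw [h3, Finset.card_eq_three]
          exact ⟨x, y, z, hxy, hxz, hyz, rfl⟩
        · unfold FS
          have hs3 : ∀ g : X → ZMod 3, ∑ w ∈ ({x, y, z} : Finset X), g w = g x + g y + g z := by
            intro g
            rw [Finset.sum_insert (by simp [hxy, hxz]), Finset.sum_insert (by simp [hyz]),
              Finset.sum_singleton]
            ring
          rw [hs3, hs3, hs3, hs3]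
          rw [if_pos rfl, if_pos rfl, if_pos rfl, if_neg hxy, if_neg hxz, if_neg hyz,
            if_neg (Ne.symm hxy), if_neg (Ne.symm hxz), if_neg (Ne.symm hyz), hF y x, hF z x,
            hF z y]
          linear_combination 2 * hs
    · exact cliqueFour F hF C.card h4 hk3 (by omega)
  obtain ⟨φ, hφ, hφS⟩ := extend_placement (V := V) (C := C) (S := S) hSc (by omega)
  refine ⟨φ, hφ, ?_⟩
  rw [T_clique G F hC hφ, hφS, hS]

/-- The general existence theorem. -/
theorem main_exists (G : SimpleGraph V) (F : X → X → ZMod 3) (hF : ∀ x y, F x y = F y x)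
    (hdeg : ∑ u, ∑ v, aG G u v = 0) (hX : Fintype.card V + 7 ≤ Fintype.card X)
    (h11 : (∃ C : Finset V, C.card = 3 ∧ ∀ u v, G.Adj u v ↔ u ≠ v ∧ u ∈ C ∧ v ∈ C) →
      11 ≤ Fintype.card X) :
    ∃ φ : V → X, Function.Injective φ ∧ T (aG G) F φ = 0 := by
  by_cases hA : ∀ v1 v2 v3 v4, [v1, v2, v3, v4].Nodup → G.Adj v1 v2 → G.Adj v3 v4 →
      G.Adj v1 v3 ∧ G.Adj v2 v4 ∧ G.Adj v1 v4 ∧ G.Adj v2 v3
  · rcases star_or_clique G hA with ⟨c, hc⟩ | ⟨C, hC⟩
    · exact star_case G F hF hdeg (by omega) hc
    · exact clique_case G F hF hdeg hX hC (fun h => h11 ⟨C, h, hC⟩)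
  · push Not at hA
    obtain ⟨v1, v2, v3, v4, hnd, h12, h34, hnot⟩ := hA
    have h01 : ∀ p q r s, aG G p q * aG G r s = 0 ∨ aG G p q * aG G r s = 1 := by
      intro p q r s
      by_cases h1 : G.Adj p q
      · by_cases h2 : G.Adj r s
        · right; rw [aG_of_adj h1, aG_of_adj h2, one_mul]
        · left; rw [aG_of_not h2, mul_zero]
      · left; rw [aG_of_not h1, zero_mul]
    refine caseA (aG_symm G) (aG_self G) hF hdeg (by omega) hnd
      (by rw [aG_of_adj h12, aG_of_adj h34, one_mul]) (h01 _ _ _ _) (h01 _ _ _ _) ?_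
    by_cases h13 : G.Adj v1 v3
    · by_cases h24 : G.Adj v2 v4
      · by_cases h14 : G.Adj v1 v4
        · right
          rw [aG_of_not (hnot h13 h24 h14), mul_zero]
        · right
          rw [aG_of_not h14, zero_mul]
      · left; rw [aG_of_not h24, mul_zero]
    · left; rw [aG_of_not h13, zero_mul]

end main

end Pool.Agent.K1H46.ZSR
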