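import Mathlib

/-!
Graphs of path-width two are not nonrepetitively `c`-choosable for any constant `c`.

The graph: a row of vertices `p_0, …, p_n`; between `p_x` and `p_{x+1}` there are many vertices of
degree two adjacent to both. The lists of the `p_x` are pairwise disjoint, and in every gap each
`C`-subset of the union of these lists is the list of one vertex. In each gap all but at most
`C - 1` colours of the `p_y` are available, and a harmonic sum over the possible shifts gives a
repetition on a path alternating between the row and the gaps.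
-/

set_option autoImplicit false

namespace Pool.Agent.K1H46.Thue

open Finset

/-- a walk along a sequence of vertices -/
theorem exists_walk {V : Type} (G : SimpleGraph V) : ∀ (L : ℕ) (v : ℕ → V),
    (∀ i < L, G.Adj (v i) (v (i + 1))) →
    ∃ p : G.Walk (v 0) (v L), p.length = L ∧ (∀ i ≤ L, p.getVert i = v i) ∧
      p.support = (List.range (L + 1)).map v := by
  intro L
  induction L with
  | zero =>
    intro v _
    refine ⟨SimpleGraph.Walk.nil, rfl, ?_, ?_⟩
    · intro i hi
      have : i = 0 := by omega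
      subst this; rfl
    · simp
  | succ L ih =>
    intro v hv
    obtain ⟨p, h1, h2, h3⟩ := ih (fun i => v (i + 1)) (fun i hi => hv (i + 1) (by omega))
    refine ⟨SimpleGraph.Walk.cons (hv 0 (by omega)) p, ?_, ?_, ?_⟩
    · rw [SimpleGraph.Walk.length_cons, h1]
    · intro i hi
      cases i with
      | zero => rfl
      | succ i =>
        rw [SimpleGraph.Walk.getVert_cons_succ]
        exact h2 i (by omega)
    · rw [SimpleGraph.Walk.support_cons, h3, List.range_succ_eq_map (n := L + 1), List.map_cons,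
        List.map_map]
      rfl

/-- vertices: the row and the gap vertices -/
abbrev Vt (n M : ℕ) : Type := Fin (n + 1) ⊕ (Fin n × Fin M)

/-- the graph -/
def Gr (n M : ℕ) : SimpleGraph (Vt n M) where
  Adj a b := match a, b with
    | Sum.inl i, Sum.inr (j, _) => i.val = j.val ∨ i.val = j.val + 1
    | Sum.inr (j, _), Sum.inl i => i.val = j.val ∨ i.val = j.val + 1
    | _, _ => False
  symm := ⟨by
    intro a b h
    rcases a with i | ⟨j, m⟩ <;> rcases b with i' | ⟨j', m'⟩ <;> exact h⟩
  loopless := ⟨by
    intro a h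
    rcases a with i | ⟨j, m⟩ <;> exact h⟩

/-- the bags of the path decomposition -/
def bag (n M : ℕ) (t : ℕ) : Finset (Vt n M) :=
  if h : t < n * M then
    {Sum.inl ⟨t / M, by
        have : t / M < n := Nat.div_lt_of_lt_mul (by rwa [mul_comm] at h)
        omega⟩,
      Sum.inl ⟨t / M + 1, by
        have : t / M < n := Nat.div_lt_of_lt_mul (by rwa [mul_comm] at h)
        omega⟩,
      Sum.inr (⟨t / M, Nat.div_lt_of_lt_mul (by rwa [mul_comm] at h)⟩,
        ⟨t % M, Nat.mod_lt _ (by
          rcases Nat.eq_zero_or_pos M with h0 | h0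
          · subst h0; simp at h
          · exact h0)⟩)}
  else ∅

theorem mem_bag_inl {n M t : ℕ} {i : Fin (n + 1)} :
    (Sum.inl i : Vt n M) ∈ bag n M t ↔ t < n * M ∧ (i.val = t / M ∨ i.val = t / M + 1) := by
  unfold bag
  by_cases h : t < n * M
  · rw [dif_pos h]
    simp [h, Fin.ext_iff]
  · rw [dif_neg h]
    simp [h]

theorem mem_bag_inr {n M t : ℕ} {j : Fin n} {m : Fin M} :
    (Sum.inr (j, m) : Vt n M) ∈ bag n M t ↔ t < n * M ∧ j.val = t / M ∧ m.val = t % M := by
  unfold bag
  by_cases h : t < n * M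
  · rw [dif_pos h]
    simp [h, Fin.ext_iff]
  · rw [dif_neg h]
    simp [h]

theorem pathdecomp (n M : ℕ) (hn : 0 < n) (hM : 0 < M) :
    (∀ i, (bag n M i).card ≤ 3) ∧
    (∀ v : Vt n M, ∃ i, v ∈ bag n M i) ∧
    (∀ u v : Vt n M, (Gr n M).Adj u v → ∃ i, u ∈ bag n M i ∧ v ∈ bag n M i) ∧
    (∀ (v : Vt n M) (i j k : ℕ), i ≤ j → j ≤ k → v ∈ bag n M i → v ∈ bag n M k →
      v ∈ bag n M j) := by
  have hidx : ∀ (j : Fin n) (m : Fin M), j.val * M + m.val < n * M ∧
      (j.val * M + m.val) / M = j.val ∧ (j.val * M + m.val) % M = m.val := by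
    intro j m
    refine ⟨?_, ?_, ?_⟩
    · calc j.val * M + m.val < j.val * M + M := by have := m.2; omega
        _ = (j.val + 1) * M := by ring
        _ ≤ n * M := Nat.mul_le_mul_right _ j.2
    · rw [Nat.add_comm, Nat.add_mul_div_right _ _ hM, Nat.div_eq_of_lt m.2]; simp
    · rw [Nat.add_comm, Nat.add_mul_mod_self_right, Nat.mod_eq_of_lt m.2]
  have hadj : ∀ (i : Fin (n + 1)) (j : Fin n) (m : Fin M),
      (i.val = j.val ∨ i.val = j.val + 1) →
      ∃ t, (Sum.inl i : Vt n M) ∈ bag n M t ∧ (Sum.inr (j, m) : Vt n M) ∈ bag n M t := by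
    intro i j m h
    obtain ⟨h1, h2, h3⟩ := hidx j m
    refine ⟨j.val * M + m.val, ?_, ?_⟩
    · rw [mem_bag_inl, h2]; exact ⟨h1, h⟩
    · rw [mem_bag_inr, h2, h3]; exact ⟨h1, rfl, rfl⟩
  refine ⟨?_, ?_, ?_, ?_⟩
  · intro t
    unfold bag
    split_ifs
    · exact Finset.card_le_three
    · simp
  · intro v
    rcases v with i | ⟨j, m⟩
    · by_cases hi : i.val < n
      · obtain ⟨t, ht, -⟩ := hadj i ⟨i.val, hi⟩ ⟨0, hM⟩ (Or.inl rfl)
        exact ⟨t, ht⟩
      · have hi' : i.val = n := by have := i.2; omega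
        obtain ⟨t, ht, -⟩ := hadj i ⟨n - 1, by omega⟩ ⟨0, hM⟩ (Or.inr (by simp only; omega))
        exact ⟨t, ht⟩
    · obtain ⟨h1, h2, h3⟩ := hidx j m
      refine ⟨j.val * M + m.val, ?_⟩
      rw [mem_bag_inr, h2, h3]; exact ⟨h1, rfl, rfl⟩
  · intro u v h
    rcases u with i | ⟨j, m⟩ <;> rcases v with i' | ⟨j', m'⟩
    · exact h.elim
    · exact hadj i j' m' h
    · obtain ⟨t, h1, h2⟩ := hadj i' j m h
      exact ⟨t, h2, h1⟩
    · exact h.elim
  · intro v i j k hij hjk hi hk
    rcases v with a | ⟨a, m⟩
    · rw [mem_bag_inl] at hi hk ⊢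
      have h1 : i / M ≤ j / M := Nat.div_le_div_right hij
      have h2 : j / M ≤ k / M := Nat.div_le_div_right hjk
      refine ⟨by omega, ?_⟩
      omega
    · rw [mem_bag_inr] at hi hk ⊢
      have hik : i = k := by
        have e1 := Nat.div_add_mod i M
        have e2 := Nat.div_add_mod k M
        rw [← hi.2.1, ← hi.2.2] at e1
        rw [← hk.2.1, ← hk.2.2] at e2
        omega
      have hji : j = i := by omega
      rw [hji]; exact hi

/-- Every list colouring of the graph from the given lists has a repetition. -/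
theorem key {c : ℕ} {C n M S : ℕ} (hC : C = c + 1) (hn : 0 < n) (A : Fin M → Finset ℕ)
    (hA : ∀ X : Finset ℕ, X ⊆ range (C * (n + 1)) → X.card = C → ∃ m, A m = X)
    (hS : ∀ s < S, 2 * (s + 1) ∣ n)
    (hsum : (2 * C : ℝ) ≤ ∑ s ∈ range S, 1 / ((s : ℝ) + 1))
    (f : Vt n M → ℕ)
    (hfp : ∀ i : Fin (n + 1), f (Sum.inl i) ∈ Finset.Ico (C * i.val) (C * i.val + C))
    (hfl : ∀ (j : Fin n) (m : Fin M), f (Sum.inr (j, m)) ∈ A m)
    (hrep : ∀ (u w : Vt n M) (p : (Gr n M).Walk u w), p.IsPath →
            ∀ k : ℕ, 1 ≤ k → p.length + 1 = 2 * k →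
              ¬ (∀ i : ℕ, i < k → f (p.getVert i) = f (p.getVert (i + k)))) : False := by
  classical
  -- colour of the row vertex number `y`
  let g : ℕ → ℕ := fun y => if h : y < n + 1 then f (Sum.inl ⟨y, h⟩) else C * y
  have hg : ∀ y, C * y ≤ g y ∧ g y < C * y + C := by
    intro y
    simp only [g]
    split_ifs with h
    · have := hfp ⟨y, h⟩
      rw [Finset.mem_Ico] at this
      exact this
    · omega
  have hginj : Function.Injective g := by
    intro y z hyz
    have h1 := hg y
    have h2 := hg z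
    rw [hyz] at h1
    by_contra hne
    rcases Nat.lt_or_gt_of_ne hne with h | h
    · have : C * y + C ≤ C * z := by
        calc C * y + C = C * (y + 1) := by ring
          _ ≤ C * z := Nat.mul_le_mul_left _ h
      omega
    · have : C * z + C ≤ C * y := by
        calc C * z + C = C * (z + 1) := by ring
          _ ≤ C * y := Nat.mul_le_mul_left _ h
      omega
  -- `Bl x y`: the colour of `p_y` does not occur in gap `x`
  let Bl : ℕ → ℕ → Prop := fun x y => y ≤ n ∧ ∀ (h : x < n) (m : Fin M),
    f (Sum.inr (⟨x, h⟩, m)) ≠ g y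
  have hBlcard : ∀ x < n, ∀ Y : Finset ℕ, (∀ y ∈ Y, Bl x y) → Y.card ≤ C - 1 := by
    intro x hx Y hY
    by_contra hcon
    obtain ⟨Z, hZY, hZc⟩ := Finset.exists_subset_card_eq (s := Y) (n := C) (by omega)
    obtain ⟨m, hm⟩ := hA (Z.image g) (by
      intro t ht
      obtain ⟨y, hy, rfl⟩ := Finset.mem_image.1 ht
      have h1 := hg y
      have h2 := (hY y (hZY hy)).1
      rw [Finset.mem_range]
      calc g y < C * y + C := h1.2
        _ = C * (y + 1) := by ring
        _ ≤ C * (n + 1) := Nat.mul_le_mul_left _ (by omega))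
      (by rw [Finset.card_image_of_injective _ hginj, hZc])
    have h1 := hfl ⟨x, hx⟩ m
    rw [hm] at h1
    obtain ⟨y, hy, hgy⟩ := Finset.mem_image.1 h1
    exact (hY y (hZY hy)).2 hx m hgy.symm
  -- shifts
  let Hit : ℕ → ℕ → Prop := fun x s => (s ≤ x ∧ Bl x (x - s)) ∨ Bl x (x + s + 1)
  have hHitcard : ∀ x < n, ((range S).filter (fun s => Hit x s)).card ≤ C - 1 := by
    intro x hx
    let φ : ℕ → ℕ := fun s => if s ≤ x ∧ Bl x (x - s) then x - s else x + s + 1
    have hφ : Set.InjOn φ ((range S).filter (fun s => Hit x s)) := by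
      intro s _ s' _ h
      simp only [φ] at h
      split_ifs at h <;> omega
    rw [← Finset.card_image_of_injOn hφ]
    apply hBlcard x hx
    intro y hy
    obtain ⟨s, hs, rfl⟩ := Finset.mem_image.1 hy
    rw [Finset.mem_filter] at hs
    simp only [φ]
    split_ifs with h
    · exact h.2
    · exact hs.2.resolve_left h
  -- each window contains a hit
  have hwin : ∀ s a, a + 2 * s < n → ∃ x, a ≤ x ∧ x ≤ a + 2 * s ∧ Hit x s := by
    intro s a ha
    by_contra hcon
    push Not at hcon
    -- choose gap vertices with the right colours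
    have hch : ∀ x, ∃ m : Fin M, ∀ hx : x < n, a ≤ x → x ≤ a + 2 * s →
        f (Sum.inr (⟨x, hx⟩, m)) = if a + s ≤ x then g (x - s) else g (x + s + 1) := by
      intro x
      by_cases hx : x < n ∧ a ≤ x ∧ x ≤ a + 2 * s
      · have h1 := hcon x hx.2.1 hx.2.2
        simp only [Hit, not_or] at h1
        by_cases h2 : a + s ≤ x
        · have h3 : ¬ Bl x (x - s) := fun h => h1.1 ⟨by omega, h⟩
          simp only [Bl, not_and] at h3
          have h4 := h3 (by omega)
          push Not at h4
          obtain ⟨hx', m, hm⟩ := h4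
          refine ⟨m, fun _ _ _ => ?_⟩
          rw [if_pos h2]; exact hm
        · have h3 : ¬ Bl x (x + s + 1) := h1.2
          simp only [Bl, not_and] at h3
          have h4 := h3 (by omega)
          push Not at h4
          obtain ⟨hx', m, hm⟩ := h4
          refine ⟨m, fun _ _ _ => ?_⟩
          rw [if_neg h2]; exact hm
      · -- `M` is positive
        obtain ⟨m, -⟩ := hA (range C) (by
          intro t ht
          rw [Finset.mem_range] at ht ⊢
          calc t < C := ht
            _ = C * 1 := by ring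
            _ ≤ C * (n + 1) := Nat.mul_le_mul_left _ (by omega)) (by simp)
        exact ⟨m, fun h1 h2 h3 => absurd ⟨h1, h2, h3⟩ hx⟩
    choose μ hμ using hch
    -- the path
    let v : ℕ → Vt n M := fun i =>
      if i % 2 = 0 then Sum.inl ⟨(a + i / 2) % (n + 1), Nat.mod_lt _ (by omega)⟩
      else Sum.inr (⟨(a + i / 2) % n, Nat.mod_lt _ hn⟩, μ (a + i / 2))
    have hv0 : ∀ i, i % 2 = 0 → ∀ h : a + i / 2 < n + 1, v i = Sum.inl ⟨a + i / 2, h⟩ := by
      intro i hi h
      simp only [v]
      rw [if_pos hi]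
      congr 2
      exact Nat.mod_eq_of_lt h
    have hv1 : ∀ i, i % 2 = 1 → ∀ h : a + i / 2 < n,
        v i = Sum.inr (⟨a + i / 2, h⟩, μ (a + i / 2)) := by
      intro i hi h
      simp only [v]
      rw [if_neg (by omega)]
      congr 3
      exact Nat.mod_eq_of_lt h
    have hadj : ∀ i < 4 * s + 1, (Gr n M).Adj (v i) (v (i + 1)) := by
      intro i hi
      rcases Nat.mod_two_eq_zero_or_one i with h | h
      · rw [hv0 i h (by omega), hv1 (i + 1) (by omega) (by omega)]
        change (a + i / 2 = a + (i + 1) / 2 ∨ a + i / 2 = a + (i + 1) / 2 + 1)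
        omega
      · rw [hv1 i h (by omega), hv0 (i + 1) (by omega) (by omega)]
        change (a + (i + 1) / 2 = a + i / 2 ∨ a + (i + 1) / 2 = a + i / 2 + 1)
        omega
    obtain ⟨p, hp1, hp2, hp3⟩ := exists_walk (Gr n M) (4 * s + 1) v hadj
    have hpath : p.IsPath := by
      rw [SimpleGraph.Walk.isPath_def, hp3]
      apply List.Nodup.map_on _ List.nodup_range
      intro i hi j hj hij
      rw [List.mem_range] at hi hj
      rcases Nat.mod_two_eq_zero_or_one i with h | h <;>
        rcases Nat.mod_two_eq_zero_or_one j with h' | h'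
      · rw [hv0 i h (by omega), hv0 j h' (by omega)] at hij
        have := congrArg Fin.val (Sum.inl_injective hij)
        simp only at this
        omega
      · rw [hv0 i h (by omega), hv1 j h' (by omega)] at hij
        cases hij
      · rw [hv1 i h (by omega), hv0 j h' (by omega)] at hij
        cases hij
      · rw [hv1 i h (by omega), hv1 j h' (by omega)] at hij
        have := congrArg (fun q => (Prod.fst q).val) (Sum.inr_injective hij)
        simp only at this
        omega
    refine hrep _ _ p hpath (2 * s + 1) (by omega) (by rw [hp1]; ring) ?_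
    intro i hi
    rw [hp2 i (by omega), hp2 (i + (2 * s + 1)) (by omega)]
    have hgval : ∀ y (h : y < n + 1), f (Sum.inl ⟨y, h⟩) = g y := by
      intro y h
      simp only [g]
      rw [dif_pos h]
    rcases Nat.mod_two_eq_zero_or_one i with h | h
    · rw [hv0 i h (by omega), hv1 (i + (2 * s + 1)) (by omega) (by omega), hgval,
        hμ _ (by omega) (by omega) (by omega), if_pos (by omega)]
      congr 1
      omega
    · rw [hv1 i h (by omega), hv0 (i + (2 * s + 1)) (by omega) (by omega), hgval,
        hμ _ (by omega) (by omega) (by omega), if_neg (by omega)]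
      congr 1
      omega
  -- many hits for each shift
  have hcol : ∀ s < S, n / (2 * (s + 1)) ≤ ((range n).filter (fun x => Hit x s)).card := by
    intro s hs
    have hch : ∀ w, ∃ x, w < n / (2 * (s + 1)) →
        (w * (2 * (s + 1)) ≤ x ∧ x ≤ w * (2 * (s + 1)) + 2 * s ∧ Hit x s) := by
      intro w
      by_cases hw : w < n / (2 * (s + 1))
      · have h1 : (w + 1) * (2 * (s + 1)) ≤ n :=
          (Nat.le_div_iff_mul_le (by omega)).1 hw
        have h2 : (w + 1) * (2 * (s + 1)) = w * (2 * (s + 1)) + 2 * (s + 1) := by ring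
        obtain ⟨x, hx⟩ := hwin s (w * (2 * (s + 1))) (by omega)
        exact ⟨x, fun _ => hx⟩
      · exact ⟨0, fun h => absurd h hw⟩
    choose ξ hξ using hch
    have hinj : Set.InjOn ξ (range (n / (2 * (s + 1)))) := by
      intro w hw w' hw' h
      rw [Finset.coe_range, Set.mem_Iio] at hw hw'
      have h1 := hξ w hw
      have h2 := hξ w' hw'
      by_contra hne
      rcases Nat.lt_or_gt_of_ne hne with hlt | hlt
      · have : (w + 1) * (2 * (s + 1)) ≤ w' * (2 * (s + 1)) := Nat.mul_le_mul_right _ hlt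
        have h3 : (w + 1) * (2 * (s + 1)) = w * (2 * (s + 1)) + 2 * (s + 1) := by ring
        omega
      · have : (w' + 1) * (2 * (s + 1)) ≤ w * (2 * (s + 1)) := Nat.mul_le_mul_right _ hlt
        have h3 : (w' + 1) * (2 * (s + 1)) = w' * (2 * (s + 1)) + 2 * (s + 1) := by ring
        omega
    calc n / (2 * (s + 1)) = (range (n / (2 * (s + 1)))).card := by simp
      _ = ((range (n / (2 * (s + 1)))).image ξ).card := (Finset.card_image_of_injOn hinj).symm
      _ ≤ _ := by
        apply Finset.card_le_card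
        intro x hx
        obtain ⟨w, hw, rfl⟩ := Finset.mem_image.1 hx
        rw [Finset.mem_range] at hw
        have h1 := hξ w hw
        have h4 : (w + 1) * (2 * (s + 1)) ≤ n :=
          (Nat.le_div_iff_mul_le (by omega)).1 hw
        have h3 : (w + 1) * (2 * (s + 1)) = w * (2 * (s + 1)) + 2 * (s + 1) := by ring
        rw [Finset.mem_filter, Finset.mem_range]
        exact ⟨by omega, h1.2.2⟩
  -- double counting
  have hdc : ∑ s ∈ range S, ((range n).filter (fun x => Hit x s)).card =
      ∑ x ∈ range n, ((range S).filter (fun s => Hit x s)).card := by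
    simp only [Finset.card_filter]
    rw [Finset.sum_comm]
  have hup : ∑ x ∈ range n, ((range S).filter (fun s => Hit x s)).card ≤ n * (C - 1) := by
    calc _ ≤ ∑ _x ∈ range n, (C - 1) :=
          Finset.sum_le_sum (fun x hx => hHitcard x (Finset.mem_range.1 hx))
      _ = n * (C - 1) := by simp
  have hlow : ∑ s ∈ range S, n / (2 * (s + 1)) ≤
      ∑ s ∈ range S, ((range n).filter (fun x => Hit x s)).card :=
    Finset.sum_le_sum (fun s hs => hcol s (Finset.mem_range.1 hs))
  have htot : ∑ s ∈ range S, n / (2 * (s + 1)) ≤ n * (C - 1) := by omega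
  have hreal : ((∑ s ∈ range S, n / (2 * (s + 1)) : ℕ) : ℝ) =
      (n : ℝ) / 2 * ∑ s ∈ range S, 1 / ((s : ℝ) + 1) := by
    rw [Nat.cast_sum, Finset.mul_sum]
    refine Finset.sum_congr rfl (fun s hs => ?_)
    rw [Nat.cast_div (hS s (Finset.mem_range.1 hs)) (by positivity)]
    push_cast
    field_simp
  have h1 : ((∑ s ∈ range S, n / (2 * (s + 1)) : ℕ) : ℝ) ≤ (n : ℝ) * ((C : ℝ) - 1) := by
    have := (Nat.cast_le (α := ℝ)).2 htot
    rw [Nat.cast_mul, Nat.cast_sub (by omega)] at this
    simpa using this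
  rw [hreal] at h1
  have hn' : (0 : ℝ) < n := by exact_mod_cast hn
  nlinarith

end Pool.Agent.K1H46.Thue
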