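import Pool.Agent.K1H46.Checks

/-!
Search for violations of the quartic relation.
-/

namespace Pool.Agent.K1H46.ZSR

/-- first coordinate of the difference (mod 3) -/
def ad (x y : ℕ) : ℕ := Nat.add (Nat.div x 3) (Nat.mul 2 (Nat.div y 3))

/-- second coordinate of the difference (mod 3) -/
def bd (x y : ℕ) : ℕ := Nat.add (Nat.mod x 3) (Nat.mul 2 (Nat.mod y 3))

/-- last pair -/
def v0 (a1 b1 a2 b2 a3 b3 : ℕ) : List ℕ → Bool
  | [x, y] => !(t4 a1 b1 a2 b2 a3 b3 (ad x y) (bd x y))
  | _ => false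

/-- third pair -/
def v1 (a1 b1 a2 b2 : ℕ) : List ℕ → Bool
  | x :: l => anyPick (fun y r => !(Nat.beq x y) && v0 a1 b1 a2 b2 (ad x y) (bd x y) r) [] l
  | [] => false

/-- second pair -/
def v2 (a1 b1 : ℕ) : List ℕ → Bool
  | x :: l => anyPick (fun y r => !(Nat.beq x y) && v1 a1 b1 (ad x y) (bd x y) r) [] l
  | [] => false

/-- first pair -/
def v3 : List ℕ → Bool
  | x :: l => anyPick (fun y r => !(Nat.beq x y) && v2 (ad x y) (bd x y) r) [] l
  | [] => false

/-- at least `k` entries with `p * a + q * b = c` -/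
def lineC (k p q : ℕ) (l : List ℕ) (c : ℕ) : Bool :=
  countGe (fun x => Nat.beq (Nat.mod (Nat.add (Nat.mul p (Nat.div x 3))
    (Nat.mul q (Nat.mod x 3))) 3) c) k l

/-- at least `k` entries on a common affine line -/
def lineGe (k : ℕ) (l : List ℕ) : Bool :=
  lineC k 1 0 l 0 || lineC k 1 0 l 1 || lineC k 1 0 l 2 ||
  lineC k 0 1 l 0 || lineC k 0 1 l 1 || lineC k 0 1 l 2 ||
  lineC k 1 1 l 0 || lineC k 1 1 l 1 || lineC k 1 1 l 2 ||
  lineC k 1 2 l 0 || lineC k 1 2 l 1 || lineC k 1 2 l 2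

/-- five copies of the head -/
def five : List ℕ → Bool
  | [] => false
  | x :: l => countGe (fun y => Nat.beq x y) 5 (x :: l)

/-- the smallest entry is not zero -/
def vac0 : List ℕ → Bool
  | [x] => !(Nat.beq x 0)
  | _ => false

/-- closing condition for nine points -/
def closed9 (l : List ℕ) : Bool :=
  vac0 l || five l || (lenGe 8 l && !(lenGe 9 l) && v3 l) ||
    (lenGe 9 l && (lineGe 8 l || anyPick (fun _ r => v3 r) [] l))

/-- closing condition for ten points -/
def closed10 (l : List ℕ) : Bool :=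
  vac0 l || five l || (lenGe 8 l && !(lenGe 9 l) && v3 l) ||
    (lenGe 9 l && !(lenGe 10 l) && !(lineGe 8 l) && anyPick (fun _ r => v3 r) [] l) ||
    (lenGe 10 l && (lineGe 9 l || anyPick (fun _ r => anyPick (fun _ r' => v3 r') [] r) [] l))

end Pool.Agent.K1H46.ZSR
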